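import Mathlib

/-!
Multi-fold correlations, part a: pure finite sums.  A product of local factors is close to
independent if the divisor sums of the coefficients decay.
-/

set_option autoImplicit false

namespace H34P

open Finset

variable {ι : Type} [Fintype ι] [DecidableEq ι]

/-- Sum of the coefficients over the `Q` divisible by all primes of `U`. -/
def TU (S : Finset ℕ) (c : ℕ → ℝ) (U : Finset ℕ) : ℝ := ∑ Q ∈ S.filter (fun Q => ∀ p ∈ U, p ∣ Q), c Q

/-- the coordinates divisible by `p` -/
def Jp (Q : ι → ℕ) (p : ℕ) : Finset ι := univ.filter (fun j => p ∣ Q j)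

/-- alternating coefficients -/
def psi (g : Finset ι → ℝ) (I : Finset ι) : ℝ := ∑ J ∈ I.powerset, (-1) ^ (I \ J).card * g J

lemma sum_psi (g : Finset ι → ℝ) (K : Finset ι) : ∑ I ∈ K.powerset, psi g I = g K := by
  unfold psi
  rw [sum_comm' (s' := fun J => K.powerset.filter (fun I => J ⊆ I)) (t' := K.powerset)]
  · have h1 : ∀ J ∈ K.powerset, ∑ I ∈ K.powerset.filter (fun I => J ⊆ I),
        (-1 : ℝ) ^ (I \ J).card * g J = if J = K then g K else 0 := by
      intro J hJ
      rw [mem_powerset] at hJ
      rw [← sum_mul]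
      have h2 : ∑ I ∈ K.powerset.filter (fun I => J ⊆ I), (-1 : ℝ) ^ (I \ J).card
          = ∑ D ∈ (K \ J).powerset, (-1 : ℝ) ^ D.card := by
        refine sum_bij' (fun I _ => I \ J) (fun D _ => D ∪ J) ?_ ?_ ?_ ?_ ?_
        · intro I hI
          rw [mem_filter, mem_powerset] at hI
          rw [mem_powerset]
          exact sdiff_subset_sdiff hI.1 (Subset.refl J)
        · intro D hD
          rw [mem_powerset] at hD
          rw [mem_filter, mem_powerset]
          refine ⟨union_subset (hD.trans sdiff_subset) hJ, subset_union_right⟩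
        · intro I hI
          rw [mem_filter, mem_powerset] at hI
          exact sdiff_union_of_subset hI.2
        · intro D hD
          rw [mem_powerset] at hD
          rw [union_sdiff_cancel_right]
          exact (disjoint_sdiff.mono_right hD).symm
        · intro I _
          rfl
      rw [h2]
      have h3 := sum_powerset_neg_one_pow_card (x := K \ J)
      have h4 : ∑ D ∈ (K \ J).powerset, (-1 : ℝ) ^ D.card = if K \ J = ∅ then 1 else 0 := by
        have h5 : ((∑ D ∈ (K \ J).powerset, (-1 : ℤ) ^ D.card : ℤ) : ℝ)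
            = ((if K \ J = ∅ then 1 else 0 : ℤ) : ℝ) := by rw [h3]
        push_cast at h5
        exact h5
      rw [h4]
      by_cases hJK : J = K
      · subst hJK
        simp
      · rw [if_neg, if_neg hJK, zero_mul]
        intro h
        apply hJK
        exact Subset.antisymm hJ (sdiff_eq_empty_iff_subset.1 h)
    rw [sum_congr rfl h1]
    simp
  · intro I J
    simp only [mem_powerset, mem_filter]
    constructor
    · rintro ⟨h1, h2⟩
      exact ⟨⟨h1, h2⟩, h2.trans h1⟩
    · rintro ⟨⟨h1, h2⟩, h3⟩
      exact ⟨h1, h2⟩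

lemma psi_empty (g : Finset ι → ℝ) : psi g ∅ = g ∅ := by
  simp [psi]

lemma psi_single (g : Finset ι → ℝ) (i : ι) : psi g {i} = g {i} - g ∅ := by
  unfold psi
  have h : ({i} : Finset ι).powerset = {∅, {i}} := by
    ext J
    rw [mem_powerset, subset_singleton_iff, mem_insert, mem_singleton]
  rw [h, sum_insert (by
    rw [mem_singleton]
    exact (singleton_ne_empty i).symm), sum_singleton]
  simp
  ring

/-- the local error -/
noncomputable def sE (g : Finset ι → ℝ) (b : ι → ℝ) : ℝ :=
  ∑ I ∈ (univ : Finset (Finset ι)).filter (fun I => 2 ≤ I.card), |psi g I| * ∏ j ∈ I, b j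

omit [Fintype ι] [DecidableEq ι] in
lemma sE_nonneg [Fintype ι] [DecidableEq ι] (g : Finset ι → ℝ) (b : ι → ℝ) (hb : ∀ j, 0 ≤ b j) : 0 ≤ sE g b := by
  unfold sE
  apply sum_nonneg
  intro I _
  exact mul_nonneg (abs_nonneg _) (prod_nonneg fun j _ => hb j)

lemma expand_one (S : Finset ℕ) (g : Finset ι → ℝ) (c : ι → ℕ → ℝ) (p : ℕ)
    (F : (ι → ℕ) → ℝ) :
    ∑ Q ∈ Fintype.piFinset (fun _ : ι => S), (∏ j, c j (Q j)) * (g (Jp Q p) * F Q) =
      ∑ I : Finset ι, psi g I * ∑ Q ∈ Fintype.piFinset (fun _ : ι => S),
        (∏ j, (if j ∈ I then (if p ∣ Q j then c j (Q j) else 0) else c j (Q j))) * F Q := by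
  simp_rw [mul_sum]
  rw [sum_comm]
  apply sum_congr rfl
  intro Q _
  rw [← sum_psi g (Jp Q p), sum_mul, mul_sum]
  have h1 : ∀ I : Finset ι, psi g I * ((∏ j, (if j ∈ I then (if p ∣ Q j then c j (Q j) else 0)
      else c j (Q j))) * F Q) = if I ∈ (Jp Q p).powerset then
        (∏ j, c j (Q j)) * (psi g I * F Q) else 0 := by
    intro I
    by_cases hI : I ∈ (Jp Q p).powerset
    · rw [if_pos hI]
      rw [mem_powerset] at hI
      have h2 : ∏ j, (if j ∈ I then (if p ∣ Q j then c j (Q j) else 0) else c j (Q j))
          = ∏ j, c j (Q j) := by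
        apply prod_congr rfl
        intro j _
        by_cases hj : j ∈ I
        · rw [if_pos hj]
          have := hI hj
          unfold Jp at this
          rw [mem_filter] at this
          rw [if_pos this.2]
        · rw [if_neg hj]
      rw [h2]
      ring
    · rw [if_neg hI]
      rw [mem_powerset, not_subset] at hI
      obtain ⟨j, hj, hj2⟩ := hI
      have h2 : ∏ j, (if j ∈ I then (if p ∣ Q j then c j (Q j) else 0) else c j (Q j)) = 0 := by
        apply prod_eq_zero (mem_univ j)
        rw [if_pos hj, if_neg]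
        intro h
        apply hj2
        unfold Jp
        rw [mem_filter]
        exact ⟨mem_univ j, h⟩
      rw [h2]
      ring
  rw [sum_congr rfl (fun I _ => h1 I), ← sum_filter]
  apply sum_congr
  · ext I
    simp
  · intro I _
    rfl

/-- The multi-fold estimate. -/
theorem multi (S : Finset ℕ) (g : ℕ → Finset ι → ℝ) (b : ι → ℕ → ℝ) (hb : ∀ j p, 0 ≤ b j p)
    (PR : Finset ℕ) (hg0 : ∀ p ∈ PR, g p ∅ = 1) (hg1 : ∀ p ∈ PR, ∀ i, g p {i} = 1) :
    ∀ (c : ι → ℕ → ℝ) (B : ι → ℝ),
    (∀ j, ∀ U ⊆ PR, |TU S (c j) U| ≤ B j * ∏ p ∈ U, b j p) →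
    |∑ Q ∈ Fintype.piFinset (fun _ : ι => S), (∏ j, c j (Q j)) * ∏ p ∈ PR, g p (Jp Q p)
      - ∏ j, TU S (c j) ∅| ≤ (∏ j, B j) * (∏ p ∈ PR, (1 + sE (g p) (fun j => b j p)) - 1) := by
  induction PR using Finset.induction_on with
  | empty =>
    intro c B _
    simp only [prod_empty, mul_one, sub_self, mul_zero]
    have h1 : ∑ Q ∈ Fintype.piFinset (fun _ : ι => S), ∏ j, c j (Q j) = ∏ j, TU S (c j) ∅ := by
      rw [← prod_univ_sum]
      apply prod_congr rfl
      intro j _
      unfold TU
      congr 1
      rw [filter_true_of_mem]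
      simp
    rw [h1, sub_self, abs_zero]
  | insert p PR hp ih =>
    intro c B hc
    have hB : ∀ j, 0 ≤ B j := by
      intro j
      have := hc j ∅ (empty_subset _)
      rw [prod_empty, mul_one] at this
      exact (abs_nonneg _).trans this
    have ih' := ih (fun q hq => hg0 q (mem_insert_of_mem hq)) (fun q hq => hg1 q (mem_insert_of_mem hq))
    set PP := ∏ q ∈ PR, (1 + sE (g q) (fun j => b j q)) with hPP
    have hs0 : ∀ q, 0 ≤ sE (g q) (fun j => b j q) := fun q => sE_nonneg _ _ (fun j => hb j q)
    have hPP1 : 1 ≤ PP := by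
      have h1 : ∏ _q ∈ PR, (1 : ℝ) ≤ PP := by
        rw [hPP]
        exact prod_le_prod (fun _ _ => zero_le_one) (fun q _ => by linarith [hs0 q])
      rwa [prod_const_one] at h1
    -- the modified coefficients
    let cI : Finset ι → ι → ℕ → ℝ := fun I j Q => if j ∈ I then (if p ∣ Q then c j Q else 0) else c j Q
    let BI : Finset ι → ι → ℝ := fun I j => if j ∈ I then B j * b j p else B j
    have hTI : ∀ I j U, TU S (cI I j) U = if j ∈ I then TU S (c j) (insert p U) else TU S (c j) U := by
      intro I j U
      by_cases hj : j ∈ I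
      · rw [if_pos hj]
        unfold TU
        have : ∀ Q, cI I j Q = if p ∣ Q then c j Q else 0 := by
          intro Q
          change (if j ∈ I then _ else _) = _
          rw [if_pos hj]
        rw [sum_congr rfl (fun Q _ => this Q), ← sum_filter, filter_filter]
        apply sum_congr _ (fun _ _ => rfl)
        ext Q
        simp only [mem_filter, mem_insert, forall_eq_or_imp]
        tauto
      · rw [if_neg hj]
        unfold TU
        apply sum_congr rfl
        intro Q _
        change (if j ∈ I then _ else _) = _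
        rw [if_neg hj]
    have hcI : ∀ I j, ∀ U ⊆ PR, |TU S (cI I j) U| ≤ BI I j * ∏ q ∈ U, b j q := by
      intro I j U hU
      rw [hTI]
      change _ ≤ (if j ∈ I then _ else _) * _
      by_cases hj : j ∈ I
      · rw [if_pos hj, if_pos hj]
        have h1 := hc j (insert p U) (insert_subset_insert p hU)
        rw [prod_insert (fun h => hp (hU h))] at h1
        rw [mul_assoc]
        exact h1
      · rw [if_neg hj, if_neg hj]
        exact hc j U (hU.trans (subset_insert p PR))
    have hprodBI : ∀ I : Finset ι, ∏ j, BI I j = (∏ j, B j) * ∏ j ∈ I, b j p := by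
      intro I
      have h1 : ∀ j, BI I j = B j * (if j ∈ I then b j p else 1) := by
        intro j
        change (if j ∈ I then _ else _) = _
        by_cases hj : j ∈ I
        · rw [if_pos hj, if_pos hj]
        · rw [if_neg hj, if_neg hj, mul_one]
      rw [prod_congr rfl (fun j _ => h1 j), prod_mul_distrib]
      congr 1
      rw [prod_ite_mem, univ_inter]
    -- sums
    set M : Finset ι → ℝ := fun I => ∑ Q ∈ Fintype.piFinset (fun _ : ι => S),
      (∏ j, cI I j (Q j)) * ∏ q ∈ PR, g q (Jp Q q) with hM
    have hexp : ∑ Q ∈ Fintype.piFinset (fun _ : ι => S), (∏ j, c j (Q j)) *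
        ∏ q ∈ insert p PR, g q (Jp Q q) = ∑ I : Finset ι, psi (g p) I * M I := by
      have h1 := expand_one S (g p) c p (fun Q => ∏ q ∈ PR, g q (Jp Q q))
      rw [← h1]
      apply sum_congr rfl
      intro Q _
      rw [prod_insert hp]
    have hMI : ∀ I, |M I - ∏ j, TU S (cI I j) ∅| ≤ (∏ j, B j) * (∏ j ∈ I, b j p) * (PP - 1) := by
      intro I
      rw [← hprodBI]
      exact ih' (cI I) (BI I) (hcI I)
    have hTI0 : ∀ I, |∏ j, TU S (cI I j) ∅| ≤ (∏ j, B j) * ∏ j ∈ I, b j p := by
      intro I
      rw [abs_prod, ← hprodBI]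
      apply prod_le_prod
      · intro j _
        exact abs_nonneg _
      · intro j _
        have := hcI I j ∅ (empty_subset _)
        rw [prod_empty, mul_one] at this
        exact this
    have hMabs : ∀ I, |M I| ≤ (∏ j, B j) * (∏ j ∈ I, b j p) * PP := by
      intro I
      have h1 := hMI I
      have h2 := hTI0 I
      have h3 := abs_le.1 h1
      have h4 := abs_le.1 h2
      rw [abs_le]
      constructor <;> nlinarith
    have hBnn : 0 ≤ ∏ j, B j := prod_nonneg fun j _ => hB j
    -- split of the sum over I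
    have hsplit : ∑ I : Finset ι, psi (g p) I * M I = M ∅ +
        ∑ I ∈ (univ : Finset (Finset ι)).filter (fun I => 2 ≤ I.card), psi (g p) I * M I := by
      rw [← sum_filter_add_sum_filter_not univ (fun I : Finset ι => 2 ≤ I.card), add_comm]
      congr 1
      rw [sum_eq_single_of_mem (∅ : Finset ι)]
      · rw [psi_empty, hg0 p (mem_insert_self p PR), one_mul]
      · simp
      · intro I hI hI0
        rw [mem_filter] at hI
        have h1 : I.card = 1 := by
          have h2 : I.card ≠ 0 := by
            rw [Ne, card_eq_zero]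
            exact hI0
          omega
        obtain ⟨i, rfl⟩ := card_eq_one.1 h1
        rw [psi_single, hg0 p (mem_insert_self p PR), hg1 p (mem_insert_self p PR), sub_self,
          zero_mul]
    have hM0 : |M ∅ - ∏ j, TU S (c j) ∅| ≤ (∏ j, B j) * (PP - 1) := by
      have h1 := hMI ∅
      rw [prod_empty, mul_one] at h1
      have h2 : ∏ j, TU S (cI ∅ j) ∅ = ∏ j, TU S (c j) ∅ := by
        apply prod_congr rfl
        intro j _
        rw [hTI, if_neg (notMem_empty j)]
      rw [h2] at h1
      exact h1
    have hrest : |∑ I ∈ (univ : Finset (Finset ι)).filter (fun I => 2 ≤ I.card), psi (g p) I * M I|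
        ≤ (∏ j, B j) * (sE (g p) (fun j => b j p) * PP) := by
      refine (abs_sum_le_sum_abs _ _).trans ?_
      unfold sE
      rw [sum_mul, mul_sum]
      apply sum_le_sum
      intro I _
      rw [abs_mul]
      have h1 := mul_le_mul_of_nonneg_left (hMabs I) (abs_nonneg (psi (g p) I))
      refine h1.trans (le_of_eq ?_)
      ring
    rw [hexp, hsplit, prod_insert hp, ← hPP]
    have h5 : M ∅ + ∑ I ∈ (univ : Finset (Finset ι)).filter (fun I => 2 ≤ I.card), psi (g p) I * M I
        - ∏ j, TU S (c j) ∅ = (M ∅ - ∏ j, TU S (c j) ∅) +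
        ∑ I ∈ (univ : Finset (Finset ι)).filter (fun I => 2 ≤ I.card), psi (g p) I * M I := by ring
    rw [h5]
    refine (abs_add_le _ _).trans ?_
    have h6 := add_le_add hM0 hrest
    refine h6.trans (le_of_eq ?_)
    ring

end H34P
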