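import Mathlib
import Pool.Agent.H34P.PSa
import Pool.Agent.HLT.SelD

/-!
Multi-fold correlations, part b: counting integers in a residue class with prescribed divisors of
the shifted values.
-/

set_option autoImplicit false

namespace H34P

open Finset Pool.Agent.HLT Pool.Agent.HL26

variable {ι : Type} [Fintype ι] [DecidableEq ι]

open Classical in
/-- density of the integers `n` with `p ∣ n + e j` for `j ∈ J` -/
noncomputable def rhoP (e : ι → ℕ) (p : ℕ) (J : Finset ι) : ℝ :=
  if J = ∅ then 1 else if (∀ i ∈ J, ∀ j ∈ J, e i ≡ e j [MOD p]) then 1 / (p:ℝ) else 0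

/-- the local factor -/
noncomputable def gg (e : ι → ℕ) (p : ℕ) (J : Finset ι) : ℝ := (p:ℝ) ^ J.card * rhoP e p J

lemma rhoP_empty (e : ι → ℕ) (p : ℕ) : rhoP e p ∅ = 1 := by
  unfold rhoP
  rw [if_pos rfl]

lemma gg_empty (e : ι → ℕ) (p : ℕ) : gg e p ∅ = 1 := by
  unfold gg
  rw [rhoP_empty, card_empty, pow_zero, one_mul]

lemma gg_single (e : ι → ℕ) (p : ℕ) (hp : 0 < p) (i : ι) : gg e p {i} = 1 := by
  unfold gg rhoP
  have h1 : (p:ℝ) ≠ 0 := by exact_mod_cast hp.ne'
  rw [if_neg (singleton_ne_empty i), if_pos, card_singleton, pow_one]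
  · field_simp
  · intro j hj k hk
    rw [mem_singleton] at hj hk
    rw [hj, hk]

lemma gg_nonneg (e : ι → ℕ) (p : ℕ) (J : Finset ι) : 0 ≤ gg e p J := by
  unfold gg rhoP
  split_ifs <;> positivity

lemma gg_le (e : ι → ℕ) (p : ℕ) (hp : 1 ≤ p) (J : Finset ι) :
    gg e p J ≤ (p:ℝ) ^ (J.card - 1) := by
  unfold gg rhoP
  have h1 : (1:ℝ) ≤ p := by exact_mod_cast hp
  by_cases hJ : J = ∅
  · rw [if_pos hJ, hJ, card_empty]
    norm_num
  · rw [if_neg hJ]
    have hc : 1 ≤ J.card := by
      rw [Nat.one_le_iff_ne_zero, Ne, card_eq_zero]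
      exact hJ
    split_ifs
    · have h2 : (p:ℝ) ^ J.card = (p:ℝ) ^ (J.card - 1) * p := by
        rw [← pow_succ]
        congr 1
        omega
      rw [h2]
      have h3 : (p:ℝ) ≠ 0 := by positivity
      field_simp
      exact le_refl _
    · rw [mul_zero]
      positivity

lemma gg_eq_zero (e : ι → ℕ) (p : ℕ) (J : Finset ι) (h2 : 2 ≤ J.card)
    (hne : ∀ i j, i ≠ j → ¬ e i ≡ e j [MOD p]) : gg e p J = 0 := by
  unfold gg rhoP
  have hJ : J ≠ ∅ := by
    rintro rfl
    simp at h2
  rw [if_neg hJ, if_neg, mul_zero]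
  intro h
  obtain ⟨i, hi, j, hj, hij⟩ := one_lt_card.1 (by omega : 1 < J.card)
  exact hne i j hij (h i hi j hj)

/-- a divisor of the product of the primes of `PR` is squarefree with prime factors in `PR` -/
lemma dvd_prod_primes {PR : Finset ℕ} (hPR : ∀ p ∈ PR, p.Prime) {q : ℕ} (hq : q ∣ ∏ p ∈ PR, p) :
    q = ∏ p ∈ PR.filter (fun p => p ∣ q), p := by
  have hsq : Squarefree (∏ p ∈ PR, p) := by
    refine Finset.squarefree_prod_of_pairwise_isCoprime (fun p hp q hq hpq => ?_)
      (fun p hp => (hPR p hp).prime.squarefree)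
    simp only [Function.onFun, ← Nat.coprime_iff_isRelPrime]
    exact (Nat.coprime_primes (hPR p hp) (hPR q hq)).mpr hpq
  have hqs : Squarefree q := hsq.squarefree_of_dvd hq
  have h1 : PR.filter (fun p => p ∣ q) = q.primeFactors := by
    ext p
    rw [mem_filter, Nat.mem_primeFactors]
    constructor
    · rintro ⟨h1, h2⟩
      exact ⟨hPR p h1, h2, hqs.ne_zero⟩
    · rintro ⟨h1, h2, -⟩
      refine ⟨?_, h2⟩
      obtain ⟨r, hr, hpr⟩ := (h1.prime.dvd_finsetProd_iff _).mp (h2.trans hq)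
      rwa [(Nat.prime_dvd_prime_iff_eq h1 (hPR r hr)).mp hpr]
  rw [h1, Nat.prod_primeFactors_of_squarefree hqs]

lemma prodQ {PR : Finset ℕ} (hPR : ∀ p ∈ PR, p.Prime) (Q : ι → ℕ) (hQ : ∀ j, Q j ∣ ∏ p ∈ PR, p) :
    ∏ j, (Q j : ℝ) = ∏ p ∈ PR, (p:ℝ) ^ (Jp Q p).card := by
  have h1 : ∀ j, (Q j : ℝ) = ∏ p ∈ PR, (if p ∣ Q j then (p:ℝ) else 1) := by
    intro j
    rw [← prod_filter]
    have := dvd_prod_primes hPR (hQ j)
    have h2 : ((Q j : ℕ) : ℝ) = ((∏ p ∈ PR.filter (fun p => p ∣ Q j), p : ℕ) : ℝ) := by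
      rw [← this]
    rw [h2]
    push_cast
    rfl
  rw [prod_congr rfl (fun j _ => h1 j), prod_comm]
  apply prod_congr rfl
  intro p _
  rw [← prod_filter, prod_const]
  rfl

/-- the count -/
theorem count_multi {PR : Finset ℕ} (hPR : ∀ p ∈ PR, p.Prime) (N W a : ℕ) (hW : 0 < W)
    (hco : ∀ p ∈ PR, Nat.Coprime W p) (e : ι → ℕ) (Q : ι → ℕ) (hQ : ∀ j, Q j ∣ ∏ p ∈ PR, p) :
    |(((Ioc N (2 * N)).filter (fun n => n ≡ a [MOD W] ∧ ∀ j, Q j ∣ n + e j)).card : ℝ)
      - (N:ℝ) / W * ∏ p ∈ PR, rhoP e p (Jp Q p)| ≤ 1 := by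
  classical
  by_cases hcomp : ∀ p ∈ PR, ∀ i ∈ Jp Q p, ∀ j ∈ Jp Q p, e i ≡ e j [MOD p]
  · set PR' := PR.filter (fun p => (Jp Q p).Nonempty) with hPR'
    have hsub : ∀ p ∈ PR', p ∈ PR := fun p hp => (mem_filter.1 hp).1
    have hpw : Set.Pairwise (↑PR' : Set ℕ) (Function.onFun Nat.Coprime id) := by
      intro p hp q hq hpq
      exact (Nat.coprime_primes (hPR p (hsub p (mem_coe.1 hp))) (hPR q (hsub q (mem_coe.1 hq)))).2 hpq
    let s : ℕ → ℕ := fun p => if h : (Jp Q p).Nonempty then (p - 1) * e h.choose else 0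
    obtain ⟨n0, hn0⟩ := Nat.chineseRemainderOfFinset s id PR'
      (fun p hp => (hPR p (hsub p hp)).ne_zero) hpw
    set M := ∏ p ∈ PR', p with hM
    have hMpos : 0 < M := prod_pos fun p hp => (hPR p (hsub p hp)).pos
    -- the residue n0
    have hn0' : ∀ p ∈ PR', ∀ i ∈ Jp Q p, p ∣ n0 + e i := by
      intro p hp i hi
      have hne : (Jp Q p).Nonempty := (mem_filter.1 hp).2
      have h1 := hn0 p hp
      have h2 : s p = (p - 1) * e hne.choose := by
        change (if h : (Jp Q p).Nonempty then _ else _) = _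
        rw [dif_pos hne]
      rw [h2] at h1
      have h3 : e hne.choose ≡ e i [MOD p] := hcomp p (hsub p hp) _ hne.choose_spec _ hi
      have h4 : n0 + e i ≡ (p - 1) * e hne.choose + e hne.choose [MOD p] := h1.add h3.symm
      have h5 : (p - 1) * e hne.choose + e hne.choose = p * e hne.choose := by
        have hp1 := (hPR p (hsub p hp)).one_lt
        have : (p - 1) * e hne.choose + 1 * e hne.choose = (p - 1 + 1) * e hne.choose := by ring
        rw [one_mul] at this
        rw [this, Nat.sub_add_cancel hp1.le]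
      rw [h5] at h4
      exact (Nat.modEq_zero_iff_dvd.1 (h4.trans (Nat.modEq_zero_iff_dvd.2 (dvd_mul_right p _))))
    have hiff : ∀ n, (∀ j, Q j ∣ n + e j) ↔ n ≡ n0 [MOD M] := by
      intro n
      constructor
      · intro h
        rw [Nat.modEq_iff_dvd]
        have h3 : (M : ℤ) = ∏ p ∈ PR', (p : ℤ) := by
          rw [hM]
          push_cast
          rfl
        rw [h3]
        apply Finset.prod_dvd_of_coprime
        · intro p hp q hq hpq
          have := (Nat.coprime_primes (hPR p (hsub p (mem_coe.1 hp)))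
            (hPR q (hsub q (mem_coe.1 hq)))).2 hpq
          exact Nat.isCoprime_iff_coprime.2 this
        · intro p hp
          have hne : (Jp Q p).Nonempty := (mem_filter.1 hp).2
          obtain ⟨i, hi⟩ := hne
          have h4 : p ∣ n0 + e i := hn0' p hp i hi
          have h5 : p ∣ n + e i := by
            unfold Jp at hi
            rw [mem_filter] at hi
            exact hi.2.trans (h i)
          have h6 : (n0 : ℤ) - n = ((n0 + e i : ℕ) : ℤ) - ((n + e i : ℕ) : ℤ) := by
            push_cast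
            ring
          rw [h6]
          exact dvd_sub (Int.natCast_dvd_natCast.2 h4) (Int.natCast_dvd_natCast.2 h5)
      · intro h j
        rw [dvd_prod_primes hPR (hQ j)]
        apply Finset.prod_primes_dvd
        · intro p hp
          exact (hPR p (mem_filter.1 hp).1).prime
        · intro p hp
          rw [mem_filter] at hp
          have hj : j ∈ Jp Q p := by
            unfold Jp
            rw [mem_filter]
            exact ⟨mem_univ j, hp.2⟩
          have hp' : p ∈ PR' := by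
            rw [hPR', mem_filter]
            exact ⟨hp.1, ⟨j, hj⟩⟩
          have h1 : n ≡ n0 [MOD p] := h.of_dvd (dvd_prod_of_mem _ hp')
          have h2 : n + e j ≡ n0 + e j [MOD p] := h1.add_right _
          exact Nat.modEq_zero_iff_dvd.1 (h2.trans (Nat.modEq_zero_iff_dvd.2 (hn0' p hp' j hj)))
    have hcoM : Nat.Coprime W M := by
      rw [hM]
      exact Nat.Coprime.prod_right fun p hp => hco p (hsub p hp)
    have hset : (Ioc N (2 * N)).filter (fun n => n ≡ a [MOD W] ∧ ∀ j, Q j ∣ n + e j) =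
        (Ioc N (2 * N)).filter (fun n => n ≡ a [MOD W] ∧ n ≡ n0 [MOD M]) := by
      apply filter_congr
      intro n _
      rw [hiff n]
    have hdens : ∏ p ∈ PR, rhoP e p (Jp Q p) = 1 / (M:ℝ) := by
      have h1 : ∀ p ∈ PR, rhoP e p (Jp Q p) = if (Jp Q p).Nonempty then 1 / (p:ℝ) else 1 := by
        intro p hp
        unfold rhoP
        by_cases hne : (Jp Q p).Nonempty
        · rw [if_neg (nonempty_iff_ne_empty.1 hne), if_pos (hcomp p hp), if_pos hne]
        · rw [if_neg hne, if_pos (not_nonempty_iff_eq_empty.1 hne)]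
      rw [prod_congr rfl h1, ← prod_filter, hM]
      push_cast
      rw [prod_div_distrib, prod_const_one]
    rw [hset, hdens]
    have h7 := SelDAux.cnt_two N W M a n0 hW hMpos hcoM
    have h8 : (N:ℝ) / W * (1 / (M:ℝ)) = (N:ℝ) / (W * M : ℕ) := by
      push_cast
      rw [div_mul_div_comm, mul_one]
    rw [h8]
    exact h7
  · push Not at hcomp
    obtain ⟨p, hp, i, hi, j, hj, hij⟩ := hcomp
    have h1 : (Ioc N (2 * N)).filter (fun n => n ≡ a [MOD W] ∧ ∀ j, Q j ∣ n + e j) = ∅ := by
      rw [filter_eq_empty_iff]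
      rintro n _ ⟨-, h⟩
      apply hij
      unfold Jp at hi hj
      rw [mem_filter] at hi hj
      have h2 : p ∣ n + e i := hi.2.trans (h i)
      have h3 : p ∣ n + e j := hj.2.trans (h j)
      have h4 : n + e i ≡ n + e j [MOD p] :=
        (Nat.modEq_zero_iff_dvd.2 h2).trans (Nat.modEq_zero_iff_dvd.2 h3).symm
      exact Nat.ModEq.add_left_cancel' n h4
    have h2 : ∏ q ∈ PR, rhoP e q (Jp Q q) = 0 := by
      apply prod_eq_zero hp
      unfold rhoP
      have hne : Jp Q p ≠ ∅ := by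
        intro h
        rw [h] at hi
        simp at hi
      rw [if_neg hne, if_neg]
      intro h
      exact hij (h i hi j hj)
    rw [h1, h2]
    simp

end H34P
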