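import Mathlib
import Pool.Agent.H34P.PSb
import Pool.Agent.HLT.SelC

/-!
Multi-fold correlations of Selberg's weights in a residue class.
-/

set_option autoImplicit false

namespace H34P

open Finset Pool.Agent.HLT Pool.Agent.HL26 Pool.Agent.Maynard

/-- coefficients of `LamS ^ 2` -/
noncomputable def Lc (w R Q : ℕ) : ℝ := ∑ q1 ∈ Dv w R, ∑ q2 ∈ Dv w R,
  if Nat.lcm q1 q2 = Q then lamS w R q1 * lamS w R q2 else 0

lemma mem_PwR {w R p : ℕ} : p ∈ PwR w R ↔ p ≤ R ∧ p.Prime ∧ w < p := by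
  unfold PwR PPy
  rw [Finset.mem_filter, Finset.mem_filter, Finset.mem_range]
  constructor
  · rintro ⟨⟨h1, h2⟩, h3⟩; exact ⟨by omega, h2, h3⟩
  · rintro ⟨h1, h2, h3⟩; exact ⟨⟨by omega, h2⟩, h3⟩

lemma PwR_mono {w R R' : ℕ} (h : R ≤ R') : PwR w R ⊆ PwR w R' := by
  intro p hp
  rw [mem_PwR] at hp ⊢
  exact ⟨hp.1.trans h, hp.2⟩

lemma lcm_dvd_P {w R R' q1 q2 : ℕ} (h : R ≤ R') (h1 : q1 ∈ Dv w R) (h2 : q2 ∈ Dv w R) :
    Nat.lcm q1 q2 ∣ ∏ p ∈ PwR w R', p := by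
  have h3 : (∏ p ∈ PwR w R, p) ∣ ∏ p ∈ PwR w R', p := prod_dvd_prod_of_subset _ _ _ (PwR_mono h)
  exact Nat.lcm_dvd ((SelDAux.Dv_dvd h1).trans h3) ((SelDAux.Dv_dvd h2).trans h3)

lemma lcm_mem {w R R' q1 q2 : ℕ} (h : R ≤ R') (h1 : q1 ∈ Dv w R) (h2 : q2 ∈ Dv w R) :
    Nat.lcm q1 q2 ∈ (∏ p ∈ PwR w R', p).divisors := by
  rw [Nat.mem_divisors]
  exact ⟨lcm_dvd_P h h1 h2, SelCAux.P_ne w R'⟩

lemma sum_Lc {w R R' : ℕ} (h : R ≤ R') (f : ℕ → ℝ) :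
    ∑ Q ∈ (∏ p ∈ PwR w R', p).divisors, Lc w R Q * f Q =
      ∑ q1 ∈ Dv w R, ∑ q2 ∈ Dv w R, lamS w R q1 * lamS w R q2 * f (Nat.lcm q1 q2) := by
  unfold Lc
  simp_rw [sum_mul]
  rw [sum_comm]
  apply sum_congr rfl
  intro q1 h1
  rw [sum_comm]
  apply sum_congr rfl
  intro q2 h2
  rw [sum_eq_single_of_mem (Nat.lcm q1 q2) (lcm_mem h h1 h2)]
  · rw [if_pos rfl]
  · intro Q _ hQ
    rw [if_neg (Ne.symm hQ), zero_mul]

lemma LamS_sq_eq {w R R' : ℕ} (h : R ≤ R') (m : ℕ) :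
    LamS w R m ^ 2 = ∑ Q ∈ (∏ p ∈ PwR w R', p).divisors, Lc w R Q * (if Q ∣ m then 1 else 0) := by
  rw [sum_Lc h, SelDAux.LamS_sq]

lemma sum_abs_Lc {w R R' : ℕ} (h : R ≤ R') (hR : 1 ≤ R) :
    ∑ Q ∈ (∏ p ∈ PwR w R', p).divisors, |Lc w R Q| ≤ (R:ℝ) ^ 2 := by
  have h1 : ∀ Q, |Lc w R Q| ≤ ∑ q1 ∈ Dv w R, ∑ q2 ∈ Dv w R, if Nat.lcm q1 q2 = Q then (1:ℝ) else 0 := by
    intro Q
    unfold Lc
    refine (abs_sum_le_sum_abs _ _).trans ?_
    apply sum_le_sum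
    intro q1 h1
    refine (abs_sum_le_sum_abs _ _).trans ?_
    apply sum_le_sum
    intro q2 h2
    split_ifs
    · exact SelDAux.abs_ll w R hR h1 h2
    · rw [abs_zero]
  refine (sum_le_sum fun Q _ => h1 Q).trans ?_
  rw [sum_comm]
  have h2 : ∀ q1 ∈ Dv w R, ∑ Q ∈ (∏ p ∈ PwR w R', p).divisors, ∑ q2 ∈ Dv w R,
      (if Nat.lcm q1 q2 = Q then (1:ℝ) else 0) ≤ R := by
    intro q1 h1
    rw [sum_comm]
    have h3 : ∀ q2 ∈ Dv w R, ∑ Q ∈ (∏ p ∈ PwR w R', p).divisors,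
        (if Nat.lcm q1 q2 = Q then (1:ℝ) else 0) ≤ 1 := by
      intro q2 _
      rw [sum_ite_eq]
      split_ifs
      · exact le_refl _
      · exact zero_le_one
    refine (sum_le_sum h3).trans ?_
    rw [sum_const, nsmul_eq_mul, mul_one]
    exact_mod_cast SelDAux.card_Dv w R
  refine (sum_le_sum h2).trans ?_
  rw [sum_const, nsmul_eq_mul, pow_two]
  exact mul_le_mul_of_nonneg_right (by exact_mod_cast SelDAux.card_Dv w R) (by positivity)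

lemma all_dvd_iff {U : Finset ℕ} (hU : ∀ p ∈ U, p.Prime) (Q : ℕ) :
    (∀ p ∈ U, p ∣ Q) ↔ (∏ p ∈ U, p) ∣ Q := by
  constructor
  · intro h
    exact Finset.prod_primes_dvd Q (fun p hp => (hU p hp).prime) h
  · intro h p hp
    exact (dvd_prod_of_mem _ hp).trans h

lemma TU_Lc {w R R' : ℕ} (h : R ≤ R') {U : Finset ℕ} (hU : ∀ p ∈ U, p.Prime) (G : ℝ) :
    TU (∏ p ∈ PwR w R', p).divisors (fun Q => G * (Lc w R Q / (Q:ℝ))) U
      = G * SelCAux.TT w R (∏ p ∈ U, p) := by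
  unfold TU
  rw [sum_filter]
  have h1 : ∀ Q ∈ (∏ p ∈ PwR w R', p).divisors,
      (if ∀ p ∈ U, p ∣ Q then G * (Lc w R Q / (Q:ℝ)) else 0)
      = Lc w R Q * (if (∏ p ∈ U, p) ∣ Q then G / (Q:ℝ) else 0) := by
    intro Q _
    by_cases hQ : ∀ p ∈ U, p ∣ Q
    · rw [if_pos hQ, if_pos ((all_dvd_iff hU Q).1 hQ)]
      ring
    · rw [if_neg hQ, if_neg (fun h => hQ ((all_dvd_iff hU Q).2 h)), mul_zero]
  rw [sum_congr rfl h1, sum_Lc h]
  unfold SelCAux.TT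
  rw [mul_sum]
  apply sum_congr rfl
  intro q1 _
  rw [mul_sum]
  apply sum_congr rfl
  intro q2 _
  split_ifs
  · ring
  · ring

lemma TT_abs_le {w R R' : ℕ} (hR : 1 ≤ R) {U : Finset ℕ} (hU : U ⊆ PwR w R') :
    |SG w R * SelCAux.TT w R (∏ p ∈ U, p)| ≤ ∏ p ∈ U, (5 / ((p:ℝ) - 1)) := by
  have hG := SG_pos w R hR
  have hUp : ∀ p ∈ U, p.Prime := fun p hp => (mem_PwR.1 (hU hp)).2.1
  have hnn : ∀ p ∈ U, (0:ℝ) ≤ 5 / ((p:ℝ) - 1) := by
    intro p hp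
    have : (2:ℝ) ≤ p := by exact_mod_cast (hUp p hp).two_le
    apply div_nonneg (by norm_num)
    linarith
  by_cases hUR : U ⊆ PwR w R
  · have he : (∏ p ∈ U, p) ∣ ∏ p ∈ PwR w R, p := prod_dvd_prod_of_subset _ _ _ hUR
    have h1 := SelCAux.TT_bound w R (∏ p ∈ U, p) hR he
    have hpf : (∏ p ∈ U, p).primeFactors = U := Nat.primeFactors_prod hUp
    have hsq : Squarefree (∏ p ∈ U, p) := (SelCAux.sqf_P w R).squarefree_of_dvd he
    have htot : ((Nat.totient (∏ p ∈ U, p) : ℕ) : ℝ) = ∏ p ∈ U, ((p:ℝ) - 1) := by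
      rw [SelCAux.totient_sqf hsq, hpf]
    rw [hpf, htot] at h1
    have h2 : (SG w R * SelCAux.TT w R (∏ p ∈ U, p)) ^ 2 ≤ (∏ p ∈ U, (5 / ((p:ℝ) - 1))) ^ 2 := by
      rw [mul_pow]
      have h3 : (∏ p ∈ U, (5 / ((p:ℝ) - 1))) ^ 2 = 25 ^ U.card / (∏ p ∈ U, ((p:ℝ) - 1)) ^ 2 := by
        rw [prod_div_distrib, prod_const, div_pow, ← pow_mul, mul_comm, pow_mul]
        norm_num
      rw [h3]
      calc SG w R ^ 2 * SelCAux.TT w R (∏ p ∈ U, p) ^ 2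
          ≤ SG w R ^ 2 * (1 / SG w R ^ 2 * (25 ^ U.card / (∏ p ∈ U, ((p:ℝ) - 1)) ^ 2)) :=
            mul_le_mul_of_nonneg_left h1 (sq_nonneg _)
        _ = 25 ^ U.card / (∏ p ∈ U, ((p:ℝ) - 1)) ^ 2 := by
            field_simp
    exact abs_le_of_sq_le_sq h2 (prod_nonneg hnn)
  · rw [not_subset] at hUR
    obtain ⟨p, hp, hpR⟩ := hUR
    have hpp := mem_PwR.1 (hU hp)
    have hpR' : R < p := by
      by_contra hcon
      apply hpR
      rw [mem_PwR]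
      exact ⟨by omega, hpp.2⟩
    have h0 : SelCAux.TT w R (∏ p ∈ U, p) = 0 := by
      unfold SelCAux.TT
      apply sum_eq_zero
      intro q1 h1
      apply sum_eq_zero
      intro q2 h2
      rw [if_neg]
      intro hd
      have h3 : p ∣ ∏ q ∈ PwR w R, q :=
        ((dvd_prod_of_mem _ hp).trans hd).trans (lcm_dvd_P le_rfl h1 h2)
      obtain ⟨r, hr, hpr⟩ := (hpp.2.1.prime.dvd_finsetProd_iff _).mp h3
      rw [mem_PwR] at hr
      rw [(Nat.prime_dvd_prime_iff_eq hpp.2.1 hr.2.1).mp hpr] at hpR'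
      omega
    rw [h0, mul_zero, abs_zero]
    exact prod_nonneg hnn

lemma TT_one {w R : ℕ} (hR : 1 ≤ R) : SG w R * SelCAux.TT w R (∏ p ∈ (∅ : Finset ℕ), p) = 1 := by
  rw [prod_empty]
  have h1 : SelCAux.TT w R 1 = VV w R 1 := by
    unfold SelCAux.TT VV
    apply sum_congr rfl
    intro q1 _
    apply sum_congr rfl
    intro q2 _
    rw [if_pos (one_dvd _), Nat.gcd_one_right, Nat.cast_one, mul_one]
  rw [h1, VV_one w R hR]
  have := SG_pos w R hR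
  field_simp

variable {ι : Type} [Fintype ι] [DecidableEq ι]

/-- expansion of a product of divisor sums over a residue class -/
lemma sum_expand (S : Finset ℕ) (N w a : ℕ) (e : ι → ℕ) (L : ι → ℕ → ℝ) (F : ι → ℕ → ℝ)
    (hF : ∀ j m, F j m = ∑ Q ∈ S, L j Q * (if Q ∣ m then 1 else 0)) :
    ∑ n ∈ XS N w a, ∏ j, F j (n + e j) =
      ∑ Q ∈ Fintype.piFinset (fun _ : ι => S), (∏ j, L j (Q j)) *
        (((Ioc N (2 * N)).filter (fun n => n ≡ a [MOD Wp w] ∧ ∀ j, Q j ∣ n + e j)).card : ℝ) := by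
  have h1 : ∀ n, ∏ j, F j (n + e j) = ∑ Q ∈ Fintype.piFinset (fun _ : ι => S), (∏ j, L j (Q j)) *
      (if ∀ j, Q j ∣ n + e j then 1 else 0) := by
    intro n
    have h2 : ∏ j, F j (n + e j) = ∏ j, ∑ Q ∈ S, L j Q * (if Q ∣ n + e j then 1 else 0) := by
      apply prod_congr rfl
      intro j _
      exact hF j _
    rw [h2, prod_univ_sum]
    apply sum_congr rfl
    intro Q _
    rw [prod_mul_distrib]
    congr 1
    by_cases hall : ∀ j, Q j ∣ n + e j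
    · rw [if_pos hall]
      exact prod_eq_one fun j _ => if_pos (hall j)
    · rw [if_neg hall]
      push Not at hall
      obtain ⟨j, hj⟩ := hall
      exact prod_eq_zero (mem_univ j) (if_neg hj)
  simp_rw [h1]
  rw [sum_comm]
  apply sum_congr rfl
  intro Q _
  rw [← mul_sum, Finset.sum_boole, XS, Finset.filter_filter]

/-- main term and error of the expansion -/
lemma fold_general {PR : Finset ℕ} (hPR : ∀ p ∈ PR, p.Prime) (N w a : ℕ)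
    (hco : ∀ p ∈ PR, Nat.Coprime (Wp w) p) (e : ι → ℕ) (L : ι → ℕ → ℝ) (F : ι → ℕ → ℝ)
    (hF : ∀ j m, F j m = ∑ Q ∈ (∏ p ∈ PR, p).divisors, L j Q * (if Q ∣ m then 1 else 0))
    (E : ι → ℝ) (hE : ∀ j, ∑ Q ∈ (∏ p ∈ PR, p).divisors, |L j Q| ≤ E j) :
    |∑ n ∈ XS N w a, ∏ j, F j (n + e j) - (N:ℝ) / Wp w *
      ∑ Q ∈ Fintype.piFinset (fun _ : ι => (∏ p ∈ PR, p).divisors), (∏ j, (L j (Q j) / (Q j : ℝ))) *
        ∏ p ∈ PR, gg e p (Jp Q p)| ≤ ∏ j, E j := by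
  have hW := SelDAux.Wp_pos w
  set S := (∏ p ∈ PR, p).divisors with hS
  rw [sum_expand S N w a e L F hF, mul_sum, ← sum_sub_distrib]
  refine (abs_sum_le_sum_abs _ _).trans ?_
  have h1 : ∀ Q ∈ Fintype.piFinset (fun _ : ι => S), |(∏ j, L j (Q j)) *
        (((Ioc N (2 * N)).filter (fun n => n ≡ a [MOD Wp w] ∧ ∀ j, Q j ∣ n + e j)).card : ℝ) -
        (N:ℝ) / Wp w * ((∏ j, (L j (Q j) / (Q j : ℝ))) * ∏ p ∈ PR, gg e p (Jp Q p))| ≤
        ∏ j, |L j (Q j)| := by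
    intro Q hQ
    rw [Fintype.mem_piFinset] at hQ
    have hQd : ∀ j, Q j ∣ ∏ p ∈ PR, p := fun j => (Nat.mem_divisors.1 (hQ j)).1
    have hQ0 : ∀ j, (Q j : ℝ) ≠ 0 := by
      intro j
      have := Nat.pos_of_mem_divisors (hQ j)
      exact_mod_cast this.ne'
    have h2 := count_multi hPR N (Wp w) a hW hco e Q hQd
    have h3 : (∏ j, (L j (Q j) / (Q j : ℝ))) * ∏ p ∈ PR, gg e p (Jp Q p) =
        (∏ j, L j (Q j)) * ∏ p ∈ PR, rhoP e p (Jp Q p) := by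
      unfold gg
      rw [prod_mul_distrib, ← prodQ hPR Q hQd, prod_div_distrib]
      have h4 : ∏ j, (Q j : ℝ) ≠ 0 := prod_ne_zero_iff.2 fun j _ => hQ0 j
      field_simp
    rw [h3]
    have h5 : (∏ j, L j (Q j)) *
        (((Ioc N (2 * N)).filter (fun n => n ≡ a [MOD Wp w] ∧ ∀ j, Q j ∣ n + e j)).card : ℝ) -
        (N:ℝ) / Wp w * ((∏ j, L j (Q j)) * ∏ p ∈ PR, rhoP e p (Jp Q p)) =
        (∏ j, L j (Q j)) * ((((Ioc N (2 * N)).filter (fun n => n ≡ a [MOD Wp w] ∧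
          ∀ j, Q j ∣ n + e j)).card : ℝ) - (N:ℝ) / Wp w * ∏ p ∈ PR, rhoP e p (Jp Q p)) := by ring
    rw [h5, abs_mul, abs_prod]
    calc _ ≤ (∏ j, |L j (Q j)|) * 1 :=
          mul_le_mul_of_nonneg_left h2 (prod_nonneg fun j _ => abs_nonneg _)
      _ = _ := mul_one _
  refine (sum_le_sum h1).trans ?_
  have h6 : ∑ Q ∈ Fintype.piFinset (fun _ : ι => S), ∏ j, |L j (Q j)| = ∏ j, ∑ Q ∈ S, |L j Q| :=
    (prod_univ_sum (fun _ : ι => S) (fun j Q => |L j Q|)).symm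
  rw [h6]
  apply prod_le_prod
  · intro j _
    exact sum_nonneg fun Q _ => abs_nonneg _
  · intro j _
    exact hE j

lemma coprime_Wp {w R : ℕ} : ∀ p ∈ PwR w R, Nat.Coprime (Wp w) p := by
  intro p hp
  have h1 := SelDAux.coprime_prod w R
  exact h1.coprime_dvd_right (dvd_prod_of_mem _ hp)

/-- The multi-fold sum of Selberg's weights. -/
theorem fold (Rj e : ι → ℕ) (w R N a : ℕ) (hR1 : ∀ j, 1 ≤ Rj j) (hRR : ∀ j, Rj j ≤ R) :
    |∑ n ∈ XS N w a, ∏ j, (SG w (Rj j) * LamS w (Rj j) (n + e j) ^ 2) - (N:ℝ) / Wp w| ≤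
      (N:ℝ) / Wp w * (∏ q ∈ PwR w R, (1 + sE (gg e q) (fun _ => 5 / ((q:ℝ) - 1))) - 1)
        + ∏ j, (SG w (Rj j) * (Rj j : ℝ) ^ 2) := by
  have hW := SelDAux.Wp_pos w
  have hWR : (0:ℝ) < Wp w := by exact_mod_cast hW
  set PR := PwR w R with hPRd
  have hPR : ∀ p ∈ PR, p.Prime := fun p hp => (mem_PwR.1 hp).2.1
  set S := (∏ p ∈ PR, p).divisors with hS
  let L : ι → ℕ → ℝ := fun j Q => SG w (Rj j) * Lc w (Rj j) Q
  have hF : ∀ j m, SG w (Rj j) * LamS w (Rj j) m ^ 2 =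
      ∑ Q ∈ S, L j Q * (if Q ∣ m then 1 else 0) := by
    intro j m
    rw [LamS_sq_eq (hRR j), mul_sum]
    apply sum_congr rfl
    intro Q _
    change _ = SG w (Rj j) * Lc w (Rj j) Q * _
    ring
  have hE : ∀ j, ∑ Q ∈ S, |L j Q| ≤ SG w (Rj j) * (Rj j : ℝ) ^ 2 := by
    intro j
    have hG := SG_pos w (Rj j) (hR1 j)
    have h1 : ∀ Q ∈ S, |L j Q| = SG w (Rj j) * |Lc w (Rj j) Q| := by
      intro Q _
      change |SG w (Rj j) * Lc w (Rj j) Q| = _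
      rw [abs_mul, abs_of_pos hG]
    rw [sum_congr rfl h1, ← mul_sum]
    exact mul_le_mul_of_nonneg_left (sum_abs_Lc (hRR j) (hR1 j)) hG.le
  have h1 := fold_general hPR N w a coprime_Wp e L (fun j m => SG w (Rj j) * LamS w (Rj j) m ^ 2)
    hF (fun j => SG w (Rj j) * (Rj j : ℝ) ^ 2) hE
  have h2 := multi S (gg e) (fun _ q => 5 / |(q:ℝ) - 1|) (fun _ q => by positivity) PR
    (fun p _ => gg_empty e p) (fun p hp i => gg_single e p (hPR p hp).pos i)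
    (fun j Q => L j Q / (Q:ℝ)) (fun _ => 1) (by
      intro j U hU
      have h3 : TU S (fun Q => L j Q / (Q:ℝ)) U = SG w (Rj j) * SelCAux.TT w (Rj j) (∏ p ∈ U, p) := by
        rw [← TU_Lc (hRR j) (fun p hp => hPR p (hU hp)) (SG w (Rj j))]
        unfold TU
        apply sum_congr rfl
        intro Q _
        change SG w (Rj j) * Lc w (Rj j) Q / (Q:ℝ) = _
        ring
      rw [h3, one_mul]
      refine (TT_abs_le (hR1 j) hU).trans (le_of_eq ?_)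
      apply prod_congr rfl
      intro p hp
      have hp2 : (2:ℝ) ≤ p := by exact_mod_cast (hPR p (hU hp)).two_le
      rw [abs_of_pos (by linarith)])
  have h3 : ∏ j, TU S (fun Q => L j Q / (Q:ℝ)) ∅ = 1 := by
    apply prod_eq_one
    intro j _
    have h4 : TU S (fun Q => L j Q / (Q:ℝ)) ∅ = SG w (Rj j) * SelCAux.TT w (Rj j)
        (∏ p ∈ (∅ : Finset ℕ), p) := by
      rw [← TU_Lc (hRR j) (by simp) (SG w (Rj j))]
      unfold TU
      apply sum_congr rfl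
      intro Q _
      change SG w (Rj j) * Lc w (Rj j) Q / (Q:ℝ) = _
      ring
    rw [h4, TT_one (hR1 j)]
  have h4 : ∏ q ∈ PR, (1 + sE (gg e q) (fun _ => 5 / |(q:ℝ) - 1|)) =
      ∏ q ∈ PR, (1 + sE (gg e q) (fun _ => 5 / ((q:ℝ) - 1))) := by
    apply prod_congr rfl
    intro q hq
    have hp2 : (2:ℝ) ≤ q := by exact_mod_cast (hPR q hq).two_le
    rw [abs_of_pos (by linarith)]
  rw [h3, prod_const_one, one_mul, h4] at h2
  set MM := ∑ Q ∈ Fintype.piFinset (fun _ : ι => S), (∏ j, (L j (Q j) / (Q j : ℝ))) *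
        ∏ p ∈ PR, gg e p (Jp Q p) with hMM
  set TOT := ∑ n ∈ XS N w a, ∏ j, (SG w (Rj j) * LamS w (Rj j) (n + e j) ^ 2) with hTOT
  have hNW : (0:ℝ) ≤ (N:ℝ) / Wp w := by positivity
  have h5 : TOT - (N:ℝ) / Wp w = (TOT - (N:ℝ) / Wp w * MM) + (N:ℝ) / Wp w * (MM - 1) := by ring
  rw [h5]
  refine (abs_add_le _ _).trans ?_
  have h6 : |(N:ℝ) / Wp w * (MM - 1)| ≤
      (N:ℝ) / Wp w * (∏ q ∈ PR, (1 + sE (gg e q) (fun _ => 5 / ((q:ℝ) - 1))) - 1) := by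
    rw [abs_mul, abs_of_nonneg hNW]
    exact mul_le_mul_of_nonneg_left h2 hNW
  linarith

end H34P
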