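import Mathlib
import Pool.Agent.H34P.PSc

/-!
Local factors: bounded shifts have few common residues modulo large primes.
-/

set_option autoImplicit false

namespace H34P

open Finset Pool.Agent.HLT Pool.Agent.HL26 Pool.Agent.Maynard

variable {ι : Type} [Fintype ι] [DecidableEq ι]

omit [Fintype ι] in
lemma psi_abs_le (g : Finset ι → ℝ) (I : Finset ι) (M : ℝ) (hM : ∀ J ⊆ I, |g J| ≤ M) :
    |psi g I| ≤ 2 ^ I.card * M := by
  unfold psi
  refine (abs_sum_le_sum_abs _ _).trans ?_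
  have h1 : ∀ J ∈ I.powerset, |(-1 : ℝ) ^ (I \ J).card * g J| ≤ M := by
    intro J hJ
    rw [abs_mul, abs_pow, abs_neg, abs_one, one_pow, one_mul]
    exact hM J (mem_powerset.1 hJ)
  refine (sum_le_sum h1).trans ?_
  rw [sum_const, nsmul_eq_mul, card_powerset]
  push_cast
  exact le_refl _

/-- primes at which two shifts agree -/
noncomputable def PB (e : ι → ℕ) (w R : ℕ) : Finset ℕ := by
  classical
  exact (PwR w R).filter (fun q => ∃ i j, i ≠ j ∧ e i ≡ e j [MOD q])

lemma mem_PB {e : ι → ℕ} {w R q : ℕ} :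
    q ∈ PB e w R ↔ q ∈ PwR w R ∧ ∃ i j, i ≠ j ∧ e i ≡ e j [MOD q] := by
  classical
  unfold PB
  rw [mem_filter]

lemma PB_card (e : ι → ℕ) (w R H : ℕ) (hw : 2 ≤ w) (he : Function.Injective e)
    (hH : ∀ j, e j ≤ H) (hH1 : 1 ≤ H) :
    ((PB e w R).card : ℝ) ≤ (Fintype.card ι : ℝ) ^ 2 * (Real.log H / Real.log w) := by
  classical
  have hw0 : (1:ℝ) < w := by exact_mod_cast (by omega : 1 < w)
  have hlogw := Real.log_pos hw0
  have h1 : PB e w R ⊆ ((univ : Finset (ι × ι)).filter (fun x => e x.1 < e x.2)).biUnion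
      (fun x => (PB e w R).filter (fun p => p ∣ e x.2 - e x.1)) := by
    intro q hq
    obtain ⟨hq1, i, j, hij, hmod⟩ := mem_PB.1 hq
    rw [mem_biUnion]
    rcases lt_trichotomy (e i) (e j) with h | h | h
    · refine ⟨(i, j), mem_filter.2 ⟨mem_univ _, h⟩, mem_filter.2 ⟨hq, ?_⟩⟩
      exact (Nat.modEq_iff_dvd' h.le).1 hmod
    · exact absurd (he h) hij
    · refine ⟨(j, i), mem_filter.2 ⟨mem_univ _, h⟩, mem_filter.2 ⟨hq, ?_⟩⟩
      exact (Nat.modEq_iff_dvd' h.le).1 hmod.symm
  have h2 := (card_le_card h1).trans card_biUnion_le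
  have h3 : ((PB e w R).card : ℝ) ≤ ∑ x ∈ (univ : Finset (ι × ι)).filter (fun x => e x.1 < e x.2),
      (((PB e w R).filter (fun p => p ∣ e x.2 - e x.1)).card : ℝ) := by
    exact_mod_cast h2
  have h4 : ∀ x ∈ (univ : Finset (ι × ι)).filter (fun x => e x.1 < e x.2),
      (((PB e w R).filter (fun p => p ∣ e x.2 - e x.1)).card : ℝ) ≤ Real.log H / Real.log w := by
    intro x hx
    rw [mem_filter] at hx
    have hle : e x.2 - e x.1 ≤ H := (Nat.sub_le _ _).trans (hH x.2)
    have hpos : 1 ≤ e x.2 - e x.1 := by omega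
    have := card_prime_dvd_le w (e x.2 - e x.1) hw hpos
      ((PB e w R).filter (fun p => p ∣ e x.2 - e x.1))
      (fun p hp => (mem_PwR.1 (mem_PB.1 (mem_filter.mp hp).1).1).2.2)
      (fun p hp => (mem_PwR.1 (mem_PB.1 (mem_filter.mp hp).1).1).2.1)
      (fun p hp => (mem_filter.mp hp).2)
    refine this.trans (div_le_div_of_nonneg_right ?_ hlogw.le)
    apply Real.log_le_log (by exact_mod_cast hpos)
    exact_mod_cast hle
  have h5 := sum_le_sum h4
  rw [sum_const, nsmul_eq_mul] at h5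
  have h6 : (((univ : Finset (ι × ι)).filter (fun x => e x.1 < e x.2)).card : ℝ)
      ≤ (Fintype.card ι : ℝ) ^ 2 := by
    have := card_filter_le (univ : Finset (ι × ι)) (fun x => e x.1 < e x.2)
    rw [card_univ, Fintype.card_prod, ← sq] at this
    exact_mod_cast this
  have h7 : 0 ≤ Real.log H / Real.log w :=
    div_nonneg (Real.log_nonneg (by exact_mod_cast hH1)) hlogw.le
  exact h3.trans (h5.trans (mul_le_mul_of_nonneg_right h6 h7))

/-- number of subsets -/
lemma card_sub_le (r : ℕ) (hr : Fintype.card ι ≤ r) :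
    ((((univ : Finset (Finset ι)).filter (fun I => 2 ≤ I.card)).card : ℕ) : ℝ) ≤ 2 ^ r := by
  have h1 := card_filter_le (univ : Finset (Finset ι)) (fun I => 2 ≤ I.card)
  rw [card_univ, Fintype.card_finset] at h1
  have h2 : 2 ^ Fintype.card ι ≤ 2 ^ r := Nat.pow_le_pow_right (by norm_num) hr
  exact_mod_cast h1.trans h2

lemma sE_good (r : ℕ) (hr : Fintype.card ι ≤ r) (e : ι → ℕ) (q : ℕ) (hq : 20 ≤ q)
    (hgood : ∀ i j, i ≠ j → ¬ e i ≡ e j [MOD q]) :
    sE (gg e q) (fun _ => 5 / ((q:ℝ) - 1)) ≤ 2 ^ r * 400 * (1 / ((q:ℝ) - 1) ^ 2) := by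
  have hq0 : (20:ℝ) ≤ q := by exact_mod_cast hq
  have hb : (5:ℝ) / ((q:ℝ) - 1) ≤ 10 / ((q:ℝ) - 1) := by
    apply div_le_div_of_nonneg_right (by norm_num)
    linarith
  have hb0 : (0:ℝ) ≤ 5 / ((q:ℝ) - 1) := by
    apply div_nonneg (by norm_num)
    linarith
  unfold sE
  have h1 : ∀ I ∈ (univ : Finset (Finset ι)).filter (fun I => 2 ≤ I.card),
      |psi (gg e q) I| * ∏ j ∈ I, (5 / ((q:ℝ) - 1)) ≤ 400 * (1 / ((q:ℝ) - 1) ^ 2) := by
    intro I hI
    rw [mem_filter] at hI
    have h2 := psi_abs_le (gg e q) I 1 (by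
      intro J _
      rw [abs_of_nonneg (gg_nonneg e q J)]
      by_cases hJ : 2 ≤ J.card
      · rw [gg_eq_zero e q J hJ hgood]
        exact zero_le_one
      · refine (gg_le e q (by omega) J).trans ?_
        have : J.card - 1 = 0 := by omega
        rw [this, pow_zero])
    rw [mul_one] at h2
    rw [prod_const]
    have h3 : |psi (gg e q) I| * (5 / ((q:ℝ) - 1)) ^ I.card ≤ 2 ^ I.card * (5 / ((q:ℝ) - 1)) ^ I.card :=
      mul_le_mul_of_nonneg_right h2 (pow_nonneg hb0 _)
    refine h3.trans ?_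
    rw [← mul_pow]
    have h4 : (2 * (5 / ((q:ℝ) - 1))) ≤ 1 := by
      rw [mul_div_assoc', div_le_one (by linarith)]
      linarith
    have h5 : (2 * (5 / ((q:ℝ) - 1))) ^ I.card ≤ (2 * (5 / ((q:ℝ) - 1))) ^ 2 :=
      pow_le_pow_of_le_one (by positivity) h4 hI.2
    refine h5.trans ?_
    rw [mul_pow, div_pow]
    have h6 : (0:ℝ) ≤ 1 / ((q:ℝ) - 1) ^ 2 := by positivity
    have h7 : (2:ℝ) ^ 2 * (5 ^ 2 / ((q:ℝ) - 1) ^ 2) = 100 * (1 / ((q:ℝ) - 1) ^ 2) := by ring
    rw [h7]
    nlinarith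
  refine (sum_le_sum h1).trans ?_
  rw [sum_const, nsmul_eq_mul, mul_assoc]
  apply mul_le_mul_of_nonneg_right (card_sub_le r hr)
  positivity

/-- a general bound for the bad primes -/
lemma sE_bad (r : ℕ) (hr : Fintype.card ι ≤ r) (e : ι → ℕ) (q : ℕ) (hq : 20 ≤ q) (b : ι → ℝ)
    (t : ℝ) (ht : 0 ≤ t) (hb0 : ∀ j, 0 ≤ b j)
    (hb : ∀ I : Finset ι, 2 ≤ I.card → ∏ j ∈ I, b j ≤ (10 / (q:ℝ)) ^ (I.card - 1) * t) :
    sE (gg e q) b ≤ 2 ^ r * (40 ^ r * t) := by
  have hq0 : (20:ℝ) ≤ q := by exact_mod_cast hq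
  unfold sE
  have h1 : ∀ I ∈ (univ : Finset (Finset ι)).filter (fun I => 2 ≤ I.card),
      |psi (gg e q) I| * ∏ j ∈ I, b j ≤ 40 ^ r * t := by
    intro I hI
    rw [mem_filter] at hI
    have hc : 1 ≤ I.card := by omega
    have hcr : I.card ≤ r := (card_le_univ I).trans hr
    have h2 := psi_abs_le (gg e q) I ((q:ℝ) ^ (I.card - 1)) (by
      intro J hJ
      rw [abs_of_nonneg (gg_nonneg e q J)]
      refine (gg_le e q (by omega) J).trans ?_
      apply pow_le_pow_right₀ (by linarith)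
      have := card_le_card hJ
      omega)
    have h3 : |psi (gg e q) I| * ∏ j ∈ I, b j ≤
        (2 ^ I.card * (q:ℝ) ^ (I.card - 1)) * ((10 / (q:ℝ)) ^ (I.card - 1) * t) :=
      mul_le_mul h2 (hb I hI.2) (prod_nonneg fun j _ => hb0 j) (by positivity)
    refine h3.trans ?_
    have h4 : (2 ^ I.card * (q:ℝ) ^ (I.card - 1)) * ((10 / (q:ℝ)) ^ (I.card - 1) * t) =
        2 ^ I.card * 10 ^ (I.card - 1) * t := by
      rw [div_pow]
      have : (q:ℝ) ^ (I.card - 1) ≠ 0 := by positivity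
      field_simp
    rw [h4]
    apply mul_le_mul_of_nonneg_right _ ht
    have h5 : (2:ℝ) ^ I.card * 10 ^ (I.card - 1) ≤ 2 ^ I.card * 20 ^ I.card := by
      apply mul_le_mul_of_nonneg_left _ (by positivity)
      calc (10:ℝ) ^ (I.card - 1) ≤ 20 ^ (I.card - 1) := pow_le_pow_left₀ (by norm_num) (by norm_num) _
        _ ≤ 20 ^ I.card := pow_le_pow_right₀ (by norm_num) (by omega)
    refine h5.trans ?_
    rw [← mul_pow]
    norm_num
    exact pow_le_pow_right₀ (by norm_num) hcr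
  refine (sum_le_sum h1).trans ?_
  rw [sum_const, nsmul_eq_mul]
  exact mul_le_mul_of_nonneg_right (card_sub_le r hr) (by positivity)

lemma b_le {q : ℕ} (hq : 20 ≤ q) : (5:ℝ) / ((q:ℝ) - 1) ≤ 10 / (q:ℝ) := by
  have hq0 : (20:ℝ) ≤ q := by exact_mod_cast hq
  rw [div_le_div_iff₀ (by linarith) (by linarith)]
  linarith

/-- The product of the local factors. -/
theorem local_le (r : ℕ) : ∃ C : ℝ, 0 < C ∧ ∀ (ι : Type) [Fintype ι] [DecidableEq ι] (e : ι → ℕ)
    (w R H : ℕ), Fintype.card ι ≤ r → 20 ≤ w → Function.Injective e → (∀ j, e j ≤ H) → 1 ≤ H →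
    ∏ q ∈ PwR w R, (1 + sE (gg e q) (fun _ => 5 / ((q:ℝ) - 1))) ≤
      Real.exp (C * (1 + Real.log H / Real.log w) / w) := by
  classical
  refine ⟨2 ^ r * 800 + 2 ^ r * (40 ^ r * 10) * r ^ 2, by positivity, ?_⟩
  intro ι _ _ e w R H hr hw he hH hH1
  have hw0 : (20:ℝ) ≤ w := by exact_mod_cast hw
  have hlogw : 0 < Real.log w := Real.log_pos (by linarith)
  have hlogH : 0 ≤ Real.log H := Real.log_nonneg (by exact_mod_cast hH1)
  have hq20 : ∀ q ∈ PwR w R, 20 ≤ q := fun q hq => by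
    have := (mem_PwR.1 hq).2.2
    omega
  have hs0 : ∀ q ∈ PwR w R, 0 ≤ sE (gg e q) (fun _ => 5 / ((q:ℝ) - 1)) := by
    intro q hq
    apply sE_nonneg
    intro _
    have : (20:ℝ) ≤ q := by exact_mod_cast hq20 q hq
    apply div_nonneg (by norm_num)
    linarith
  have h1 : ∏ q ∈ PwR w R, (1 + sE (gg e q) (fun _ => 5 / ((q:ℝ) - 1))) ≤
      Real.exp (∑ q ∈ PwR w R, sE (gg e q) (fun _ => 5 / ((q:ℝ) - 1))) := by
    rw [Real.exp_sum]
    apply prod_le_prod
    · intro q hq
      linarith [hs0 q hq]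
    · intro q _
      rw [add_comm]
      exact Real.add_one_le_exp _
  refine h1.trans (Real.exp_le_exp.2 ?_)
  rw [← sum_filter_add_sum_filter_not (PwR w R) (fun q => q ∈ PB e w R)]
  have hbad : ∑ q ∈ (PwR w R).filter (fun q => q ∈ PB e w R),
      sE (gg e q) (fun _ => 5 / ((q:ℝ) - 1)) ≤
      (r:ℝ) ^ 2 * (Real.log H / Real.log w) * (2 ^ r * (40 ^ r * (10 / w))) := by
    have h2 : ∀ q ∈ (PwR w R).filter (fun q => q ∈ PB e w R),
        sE (gg e q) (fun _ => 5 / ((q:ℝ) - 1)) ≤ 2 ^ r * (40 ^ r * (10 / w)) := by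
      intro q hq
      rw [mem_filter] at hq
      have hq' := hq20 q hq.1
      have hqw : (w:ℝ) ≤ q := by exact_mod_cast (mem_PwR.1 hq.1).2.2.le
      have hq0 : (20:ℝ) ≤ q := by exact_mod_cast hq'
      apply sE_bad r hr e q hq' _ _ (by positivity)
      · intro _
        apply div_nonneg (by norm_num)
        linarith
      · intro I hI
        rw [prod_const]
        have h3 : (5 / ((q:ℝ) - 1)) ^ I.card ≤ (10 / (q:ℝ)) ^ I.card :=
          pow_le_pow_left₀ (div_nonneg (by norm_num) (by linarith)) (b_le hq') _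
        refine h3.trans ?_
        have h4 : (10 / (q:ℝ)) ^ I.card = (10 / (q:ℝ)) ^ (I.card - 1) * (10 / (q:ℝ)) := by
          rw [← pow_succ]
          congr 1
          omega
        rw [h4]
        apply mul_le_mul_of_nonneg_left _ (by positivity)
        exact div_le_div_of_nonneg_left (by norm_num) (by linarith) hqw
    refine (sum_le_sum h2).trans ?_
    rw [sum_const, nsmul_eq_mul]
    apply mul_le_mul_of_nonneg_right _ (by positivity)
    have h5 : ((((PwR w R).filter (fun q => q ∈ PB e w R)).card : ℕ) : ℝ) ≤ ((PB e w R).card : ℝ) := by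
      exact_mod_cast card_le_card (fun q hq => (mem_filter.1 hq).2)
    refine h5.trans ((PB_card e w R H (by omega) he hH hH1).trans ?_)
    apply mul_le_mul_of_nonneg_right _ (by positivity)
    have : (Fintype.card ι : ℝ) ≤ r := by exact_mod_cast hr
    exact pow_le_pow_left₀ (Nat.cast_nonneg _) this 2
  have hgood : ∑ q ∈ (PwR w R).filter (fun q => ¬ q ∈ PB e w R),
      sE (gg e q) (fun _ => 5 / ((q:ℝ) - 1)) ≤ 2 ^ r * 400 * (2 / w) := by
    have h2 : ∀ q ∈ (PwR w R).filter (fun q => ¬ q ∈ PB e w R),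
        sE (gg e q) (fun _ => 5 / ((q:ℝ) - 1)) ≤ 2 ^ r * 400 * (1 / ((q:ℝ) - 1) ^ 2) := by
      intro q hq
      rw [mem_filter] at hq
      apply sE_good r hr e q (hq20 q hq.1)
      intro i j hij hmod
      exact hq.2 (mem_PB.2 ⟨hq.1, i, j, hij, hmod⟩)
    refine (sum_le_sum h2).trans ?_
    rw [← mul_sum]
    apply mul_le_mul_of_nonneg_left _ (by positivity)
    exact SelCAux.tail_sum w (by omega) _ (fun q hq => (mem_PwR.1 (mem_filter.1 hq).1).2.2)
  have hlast : (r:ℝ) ^ 2 * (Real.log H / Real.log w) * (2 ^ r * (40 ^ r * (10 / w))) +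
      2 ^ r * 400 * (2 / w) ≤
      (2 ^ r * 800 + 2 ^ r * (40 ^ r * 10) * r ^ 2) * (1 + Real.log H / Real.log w) / w := by
    rw [le_div_iff₀ (by linarith)]
    have hT : 0 ≤ Real.log H / Real.log w := div_nonneg hlogH hlogw.le
    set T := Real.log H / Real.log w with hTd
    have e1 : ((r:ℝ) ^ 2 * T * (2 ^ r * (40 ^ r * (10 / w))) + 2 ^ r * 400 * (2 / w)) * w =
        2 ^ r * (40 ^ r * 10) * r ^ 2 * T + 2 ^ r * 800 := by
      have : (w:ℝ) ≠ 0 := by linarith
      field_simp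
      ring
    rw [e1]
    have h3 : (0:ℝ) ≤ 2 ^ r * (40 ^ r * 10) * r ^ 2 := by positivity
    have h4 : (0:ℝ) ≤ 2 ^ r * 800 * T := by positivity
    nlinarith
  linarith

/-- The product of the local factors with one special prime. -/
theorem local_le' (r : ℕ) : ∃ C : ℝ, 0 < C ∧ ∀ (ι : Type) [Fintype ι] [DecidableEq ι] (e : ι → ℕ)
    (j0 : ι) (w R H p : ℕ), Fintype.card ι ≤ r → 20 ≤ w → Function.Injective e → (∀ j, e j ≤ H) →
    1 ≤ H → ∏ q ∈ PwR w R, (1 + sE (gg e q) (fun j => if q = p ∧ j = j0 then 1 else 5 / ((q:ℝ) - 1)))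
      ≤ C * Real.exp (C * (1 + Real.log H / Real.log w) / w) := by
  classical
  obtain ⟨C, hC, h⟩ := local_le r
  refine ⟨(1 + 2 ^ r * (40 ^ r * 1)) + C, by positivity, ?_⟩
  intro ι _ _ e j0 w R H p hr hw he hH hH1
  have hw0 : (20:ℝ) ≤ w := by exact_mod_cast hw
  have hlogw : 0 < Real.log w := Real.log_pos (by linarith)
  have hlogH : 0 ≤ Real.log H := Real.log_nonneg (by exact_mod_cast hH1)
  have hq20 : ∀ q ∈ PwR w R, 20 ≤ q := fun q hq => by
    have := (mem_PwR.1 hq).2.2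
    omega
  have hs0 : ∀ q ∈ PwR w R, 0 ≤ sE (gg e q) (fun _ => 5 / ((q:ℝ) - 1)) := by
    intro q hq
    apply sE_nonneg
    intro _
    have : (20:ℝ) ≤ q := by exact_mod_cast hq20 q hq
    apply div_nonneg (by norm_num)
    linarith
  have h1 : ∀ q ∈ PwR w R, 1 + sE (gg e q) (fun j => if q = p ∧ j = j0 then 1 else 5 / ((q:ℝ) - 1)) ≤
      (if q = p then (1 + 2 ^ r * (40 ^ r * 1)) else 1) *
        (1 + sE (gg e q) (fun _ => 5 / ((q:ℝ) - 1))) := by
    intro q hq
    by_cases hqp : q = p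
    · rw [if_pos hqp]
      have hq' := hq20 q hq
      have hq0 : (20:ℝ) ≤ q := by exact_mod_cast hq'
      have hb5 : (0:ℝ) ≤ 5 / ((q:ℝ) - 1) := div_nonneg (by norm_num) (by linarith)
      have hb10 : (10:ℝ) / q ≤ 1 := by
        rw [div_le_one (by linarith)]
        linarith
      have h2 : sE (gg e q) (fun j => if q = p ∧ j = j0 then 1 else 5 / ((q:ℝ) - 1)) ≤
          2 ^ r * (40 ^ r * 1) := by
        apply sE_bad r hr e q hq' _ 1 zero_le_one
        · intro j
          split_ifs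
          · exact zero_le_one
          · exact hb5
        · intro I hI
          rw [mul_one]
          have h3 : ∏ j ∈ I, (if q = p ∧ j = j0 then (1:ℝ) else 5 / ((q:ℝ) - 1)) ≤
              ∏ j ∈ I, (if j = j0 then (1:ℝ) else 10 / (q:ℝ)) := by
            apply prod_le_prod
            · intro j _
              split_ifs
              · exact zero_le_one
              · exact hb5
            · intro j _
              by_cases hj : j = j0
              · rw [if_pos ⟨hqp, hj⟩, if_pos hj]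
              · rw [if_neg (fun h => hj h.2), if_neg hj]
                exact b_le hq'
          refine h3.trans ?_
          by_cases hj0 : j0 ∈ I
          · rw [← mul_prod_erase I _ hj0, if_pos rfl, one_mul]
            have h4 : ∏ j ∈ I.erase j0, (if j = j0 then (1:ℝ) else 10 / (q:ℝ)) =
                ∏ _j ∈ I.erase j0, (10 / (q:ℝ)) := by
              apply prod_congr rfl
              intro j hj
              rw [if_neg (mem_erase.1 hj).1]
            rw [h4, prod_const, card_erase_of_mem hj0]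
          · have h4 : ∏ j ∈ I, (if j = j0 then (1:ℝ) else 10 / (q:ℝ)) = ∏ _j ∈ I, (10 / (q:ℝ)) := by
              apply prod_congr rfl
              intro j hj
              rw [if_neg]
              rintro rfl
              exact hj0 hj
            rw [h4, prod_const]
            exact pow_le_pow_of_le_one (by positivity) hb10 (Nat.sub_le _ _)
      have h5 := hs0 q hq
      have h6 : (0:ℝ) ≤ 2 ^ r * (40 ^ r * 1) := by positivity
      nlinarith
    · rw [if_neg hqp, one_mul]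
      have h2 : (fun j : ι => if q = p ∧ j = j0 then (1:ℝ) else 5 / ((q:ℝ) - 1)) =
          fun _ => 5 / ((q:ℝ) - 1) := by
        funext j
        rw [if_neg (fun h => hqp h.1)]
      rw [h2]
  have h7 : ∏ q ∈ PwR w R, (if q = p then ((1:ℝ) + 2 ^ r * (40 ^ r * 1)) else 1) ≤
      1 + 2 ^ r * (40 ^ r * 1) := by
    rw [prod_ite_eq']
    split_ifs
    · exact le_refl _
    · have : (0:ℝ) ≤ 2 ^ r * (40 ^ r * 1) := by positivity
      linarith
  have h8 := h ι e w R H hr hw he hH hH1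
  refine (prod_le_prod (fun q hq => ?_) h1).trans ?_
  · have : 0 ≤ sE (gg e q) (fun j => if q = p ∧ j = j0 then 1 else 5 / ((q:ℝ) - 1)) := by
      apply sE_nonneg
      intro j
      split_ifs
      · exact zero_le_one
      · have : (20:ℝ) ≤ q := by exact_mod_cast hq20 q hq
        apply div_nonneg (by norm_num)
        linarith
    linarith
  · rw [prod_mul_distrib]
    have hP0 : 0 ≤ ∏ q ∈ PwR w R, (1 + sE (gg e q) (fun _ => 5 / ((q:ℝ) - 1))) :=
      prod_nonneg fun q hq => by linarith [hs0 q hq]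
    have h9 : Real.exp (C * (1 + Real.log H / Real.log w) / w) ≤
        Real.exp (((1 + 2 ^ r * (40 ^ r * 1)) + C) * (1 + Real.log H / Real.log w) / w) := by
      apply Real.exp_le_exp.2
      apply div_le_div_of_nonneg_right _ (by linarith)
      apply mul_le_mul_of_nonneg_right _ (by positivity)
      have : (0:ℝ) ≤ 1 + 2 ^ r * (40 ^ r * 1) := by positivity
      linarith
    calc _ ≤ (1 + 2 ^ r * (40 ^ r * 1)) * Real.exp (C * (1 + Real.log H / Real.log w) / w) :=
          mul_le_mul h7 h8 hP0 (by positivity)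
      _ ≤ ((1 + 2 ^ r * (40 ^ r * 1)) + C) *
          Real.exp (((1 + 2 ^ r * (40 ^ r * 1)) + C) * (1 + Real.log H / Real.log w) / w) := by
          apply mul_le_mul _ h9 (Real.exp_pos _).le (by positivity)
          linarith

end H34P
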