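import Mathlib
import Pool.Agent.H34P.PSd
import Pool.Agent.HLT.Mertens
import Pool.Agent.HLT.Maj4
import Pool.Agent.HL26.Assemble

/-!
Asymptotics: the level `w` of the pre-sieve grows like `log log N`.
-/

set_option autoImplicit false

namespace H34P

open Finset Filter Pool.Agent.HLT Pool.Agent.HL26 Pool.Agent.Maynard

/-- level of the pre-sieve -/
noncomputable def wN (N : ℕ) : ℕ := ⌊Real.log (Real.log N) / 3⌋₊

lemma tendsto_logN : Tendsto (fun N : ℕ => Real.log N) atTop atTop :=
  Real.tendsto_log_atTop.comp tendsto_natCast_atTop_atTop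

lemma tendsto_loglogN : Tendsto (fun N : ℕ => Real.log (Real.log N)) atTop atTop :=
  Real.tendsto_log_atTop.comp tendsto_logN

lemma tendsto_wN : Tendsto wN atTop atTop := by
  unfold wN
  exact tendsto_nat_floor_atTop.comp (tendsto_loglogN.atTop_div_const (by norm_num))

lemma ev_w_ge (T : ℕ) : ∀ᶠ N : ℕ in atTop, T ≤ wN N := tendsto_wN.eventually_ge_atTop T

lemma w_le (N : ℕ) (h : 0 ≤ Real.log (Real.log N)) : (wN N : ℝ) ≤ Real.log (Real.log N) / 3 :=
  Nat.floor_le (by positivity)

lemma lt_w (N : ℕ) : Real.log (Real.log N) / 3 < wN N + 1 := Nat.lt_floor_add_one _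

/-- (b) the modulus is small -/
lemma ev_Wp_le : ∀ᶠ N : ℕ in atTop, ((Wp (wN N) : ℕ) : ℝ) ≤ Real.sqrt (Real.log N) := by
  filter_upwards [tendsto_loglogN.eventually_ge_atTop 0, tendsto_logN.eventually_gt_atTop 1] with N h h1
  have hW : ((Wp (wN N) : ℕ) : ℝ) ≤ (4:ℝ) ^ (wN N) := by
    have := prod_PPy_le (wN N)
    unfold Wp
    exact_mod_cast this
  refine hW.trans ?_
  have h2 := w_le N h
  have h3 : (4:ℝ) ^ (wN N) = Real.exp (wN N * Real.log 4) := by
    rw [mul_comm, Real.exp_mul, Real.exp_log (by norm_num), Real.rpow_natCast]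
  have h4 : Real.log 4 ≤ 3 / 2 := by
    have h5 : Real.log 4 = 2 * Real.log 2 := by
      rw [show (4:ℝ) = 2 ^ 2 by norm_num, Real.log_pow]
      push_cast
      ring
    have := Real.log_two_lt_d9
    rw [h5]
    linarith
  have h6 : Real.sqrt (Real.log N) = Real.exp (Real.log (Real.log N) / 2) := by
    rw [Real.sqrt_eq_rpow, Real.rpow_def_of_pos (by linarith)]
    congr 1
    ring
  rw [h3, h6]
  apply Real.exp_le_exp.2
  have h7 : (0:ℝ) ≤ wN N := Nat.cast_nonneg _
  have h8 : 0 ≤ Real.log 4 := Real.log_nonneg (by norm_num)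
  nlinarith

/-- (c) the local factors tend to 1 -/
lemma ev_local (A : ℕ) (C κ : ℝ) (hC : 0 < C) (hκ : 0 < κ) : ∀ᶠ N : ℕ in atTop, ∀ H : ℕ, 1 ≤ H →
    (H:ℝ) ≤ (Real.log N) ^ A →
    Real.exp (C * (1 + Real.log H / Real.log (wN N)) / wN N) ≤ 1 + κ := by
  have h1 : Tendsto (fun N : ℕ => C * (1 / (wN N : ℝ) + 6 * A / Real.log (wN N))) atTop
      (nhds (C * (0 + 0))) := by
    apply Tendsto.const_mul
    apply Tendsto.add
    · exact (tendsto_const_nhds).div_atTop (tendsto_natCast_atTop_atTop.comp tendsto_wN)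
    · exact (tendsto_const_nhds).div_atTop
        (Real.tendsto_log_atTop.comp (tendsto_natCast_atTop_atTop.comp tendsto_wN))
  rw [add_zero, mul_zero] at h1
  have h2 : ∀ᶠ N : ℕ in atTop, C * (1 / (wN N : ℝ) + 6 * A / Real.log (wN N)) < Real.log (1 + κ) :=
    h1.eventually_lt_const (Real.log_pos (by linarith))
  filter_upwards [h2, ev_w_ge 20, tendsto_loglogN.eventually_ge_atTop 0,
    tendsto_logN.eventually_gt_atTop 1] with N h3 hw h4 h5 H hH1 hH
  have hw0 : (20:ℝ) ≤ wN N := by exact_mod_cast hw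
  have hlw : 0 < Real.log (wN N) := Real.log_pos (by linarith)
  have h6 : Real.log H ≤ A * Real.log (Real.log N) := by
    rw [← Real.log_pow]
    exact Real.log_le_log (by exact_mod_cast hH1) hH
  have h7 := lt_w N
  have h8 : Real.log H ≤ 6 * A * wN N := by
    have h9 : Real.log (Real.log N) ≤ 6 * wN N := by linarith
    have hA : (0:ℝ) ≤ A := Nat.cast_nonneg _
    nlinarith
  have h10 : C * (1 + Real.log H / Real.log (wN N)) / wN N ≤
      C * (1 / (wN N : ℝ) + 6 * A / Real.log (wN N)) := by
    rw [mul_div_assoc]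
    apply mul_le_mul_of_nonneg_left _ hC.le
    rw [add_div]
    apply add_le_add_right
    rw [div_div, div_le_div_iff₀ (by positivity) hlw]
    nlinarith
  calc Real.exp (C * (1 + Real.log H / Real.log (wN N)) / wN N) ≤ Real.exp (Real.log (1 + κ)) :=
        Real.exp_le_exp.2 (h10.trans h3.le)
    _ = 1 + κ := Real.exp_log (by linarith)

/-- lower bound for the density of the integers coprime to `Wp w` -/
lemma cW_lower : ∃ c : ℝ, 0 < c ∧ ∀ w : ℕ, 2 ≤ w → c / Real.log w ≤ cW (Wp w) := by
  obtain ⟨C, hC, h⟩ := th_lower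
  have hl2 : (0:ℝ) < Real.log 2 := Real.log_pos (by norm_num)
  refine ⟨1 / (2 * C), by positivity, fun w hw => ?_⟩
  have hlw : 0 < Real.log w := Real.log_pos (by exact_mod_cast (by omega : 1 < w))
  have h1 := h 1 w hw
  have h2 : cW (Wp w) = th 1 w := by
    rw [B1aux.cW_Wp]
    unfold th
    apply prod_congr _ (fun _ _ => rfl)
    ext p
    rw [mem_filter]
    constructor
    · intro hp
      exact ⟨hp, (PPy_prime w p hp).one_lt⟩
    · exact fun hp => hp.1
  rw [h2]
  have h3 := th_pos 1 w
  have h4 : (C * Real.log w)⁻¹ ≤ th 1 w := by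
    rw [inv_le_comm₀ (by positivity) h3]
    exact h1
  refine le_trans ?_ h4
  rw [div_div, ← one_div]
  apply one_div_le_one_div_of_le (by positivity)
  nlinarith

lemma tendsto_cWlog : Tendsto (fun N : ℕ => cW (Wp (wN N)) * Real.log N) atTop atTop := by
  obtain ⟨c, hc, h⟩ := cW_lower
  have h1 : Tendsto (fun N : ℕ => c * Real.sqrt (Real.log N)) atTop atTop := by
    apply Tendsto.const_mul_atTop hc
    exact Real.tendsto_sqrt_atTop.comp tendsto_logN
  refine tendsto_atTop_mono' _ ?_ h1
  filter_upwards [ev_w_ge 2, tendsto_loglogN.eventually_ge_atTop 0,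
    tendsto_logN.eventually_gt_atTop 1] with N hw h2 h3
  have h4 := h (wN N) hw
  have hw0 : (2:ℝ) ≤ wN N := by exact_mod_cast hw
  have hlw : 0 < Real.log (wN N) := Real.log_pos (by linarith)
  have h5 : Real.log (wN N) ≤ Real.sqrt (Real.log N) := by
    have h6 : Real.log (wN N) ≤ wN N := (Real.log_le_sub_one_of_pos (by linarith)).trans (by linarith)
    have h7 := w_le N h2
    have h8 : Real.log (Real.log N) / 3 ≤ Real.sqrt (Real.log N) := by
      have h9 : Real.log (Real.log N) = 2 * Real.log (Real.sqrt (Real.log N)) := by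
        rw [Real.log_sqrt (by linarith)]
        ring
      have h10 : 0 < Real.sqrt (Real.log N) := Real.sqrt_pos.2 (by linarith)
      have h11 := Real.log_le_sub_one_of_pos h10
      rw [h9]
      linarith
    linarith
  have h12 : 0 < Real.sqrt (Real.log N) := Real.sqrt_pos.2 (by linarith)
  have h13 : Real.log N = Real.sqrt (Real.log N) * Real.sqrt (Real.log N) :=
    (Real.mul_self_sqrt (by linarith)).symm
  calc c * Real.sqrt (Real.log N) ≤ c / Real.log (wN N) * (Real.sqrt (Real.log N) * Real.sqrt (Real.log N)) := by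
        rw [div_mul_eq_mul_div, le_div_iff₀ hlw]
        have : c * Real.sqrt (Real.log N) * Real.log (wN N) ≤
            c * Real.sqrt (Real.log N) * Real.sqrt (Real.log N) :=
          mul_le_mul_of_nonneg_left h5 (by positivity)
        linarith
    _ = c / Real.log (wN N) * Real.log N := by rw [← h13]
    _ ≤ cW (Wp (wN N)) * Real.log N := mul_le_mul_of_nonneg_right h4 (by linarith)

/-- (d) the errors of the harmonic sums are negligible -/
lemma ev_KV (κ : ℝ) (hκ : 0 < κ) : ∀ᶠ N : ℕ in atTop,
    KV (Wp (wN N)) ≤ κ * (cW (Wp (wN N)) * Real.log N) := by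
  obtain ⟨c, hc, h⟩ := cW_lower
  -- KV <= 9 + 2 log W <= 9 + loglog N, and cW log N >= c sqrt(log N)
  have hlim : Tendsto (fun N : ℕ => (9 + Real.log (Real.log N)) / Real.sqrt (Real.log N)) atTop
      (nhds 0) := by
    have h1 : Tendsto (fun x : ℝ => (9 + Real.log x) / Real.sqrt x) atTop (nhds 0) := by
      have h2 : Tendsto (fun x : ℝ => 9 / Real.sqrt x + Real.log x / Real.sqrt x) atTop
          (nhds (0 + 0)) := by
        apply Tendsto.add
        · exact tendsto_const_nhds.div_atTop Real.tendsto_sqrt_atTop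
        · have h3 := (isLittleO_log_rpow_atTop (r := 1 / 2) (by norm_num)).tendsto_div_nhds_zero
          refine h3.congr fun x => ?_
          rw [Real.sqrt_eq_rpow]
      rw [add_zero] at h2
      refine h2.congr fun x => ?_
      rw [add_div]
    exact h1.comp tendsto_logN
  have h4 : ∀ᶠ N : ℕ in atTop, (9 + Real.log (Real.log N)) / Real.sqrt (Real.log N) < κ * c :=
    hlim.eventually_lt_const (by positivity)
  filter_upwards [h4, ev_w_ge 2, tendsto_loglogN.eventually_ge_atTop 0,
    tendsto_logN.eventually_gt_atTop 1, ev_Wp_le] with N h5 hw h2 h3 hWle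
  have h6 := h (wN N) hw
  have hw0 : (2:ℝ) ≤ wN N := by exact_mod_cast hw
  have hlw : 0 < Real.log (wN N) := Real.log_pos (by linarith)
  have h12 : 0 < Real.sqrt (Real.log N) := Real.sqrt_pos.2 (by linarith)
  have hWpos : (0:ℝ) < Wp (wN N) := by exact_mod_cast SelDAux.Wp_pos (wN N)
  have hKV : KV (Wp (wN N)) ≤ 9 + Real.log (Real.log N) := by
    unfold KV KW
    have h7 : Real.log (Wp (wN N)) ≤ Real.log (Real.log N) / 2 := by
      rw [← Real.log_sqrt (by linarith)]
      exact Real.log_le_log hWpos hWle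
    linarith
  have h5' : Real.log (wN N) ≤ Real.sqrt (Real.log N) := by
    have h6 : Real.log (wN N) ≤ wN N := (Real.log_le_sub_one_of_pos (by linarith)).trans (by linarith)
    have h7 := w_le N h2
    have h8 : Real.log (Real.log N) / 3 ≤ Real.sqrt (Real.log N) := by
      have h9 : Real.log (Real.log N) = 2 * Real.log (Real.sqrt (Real.log N)) := by
        rw [Real.log_sqrt (by linarith)]
        ring
      have h11 := Real.log_le_sub_one_of_pos h12
      rw [h9]
      linarith
    linarith
  have h13 : Real.log N = Real.sqrt (Real.log N) * Real.sqrt (Real.log N) :=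
    (Real.mul_self_sqrt (by linarith)).symm
  have h14 : c * Real.sqrt (Real.log N) ≤ cW (Wp (wN N)) * Real.log N := by
    calc c * Real.sqrt (Real.log N) ≤ c / Real.log (wN N) * (Real.sqrt (Real.log N) * Real.sqrt (Real.log N)) := by
          rw [div_mul_eq_mul_div, le_div_iff₀ hlw]
          have : c * Real.sqrt (Real.log N) * Real.log (wN N) ≤
              c * Real.sqrt (Real.log N) * Real.sqrt (Real.log N) :=
            mul_le_mul_of_nonneg_left h5' (by positivity)
          linarith
      _ = c / Real.log (wN N) * Real.log N := by rw [← h13]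
      _ ≤ cW (Wp (wN N)) * Real.log N := mul_le_mul_of_nonneg_right h6 (by linarith)
  rw [div_lt_iff₀ h12] at h5
  calc KV (Wp (wN N)) ≤ 9 + Real.log (Real.log N) := hKV
    _ ≤ κ * (c * Real.sqrt (Real.log N)) := by linarith
    _ ≤ κ * (cW (Wp (wN N)) * Real.log N) := mul_le_mul_of_nonneg_left h14 hκ.le

end H34P
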