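import Mathlib
import Pool.Agent.H34P.PSas
import Pool.Agent.HLT.Maj4
import Pool.Agent.HLT.SelD
import Pool.Agent.HLT.PrimesClass

/-!
Asymptotics for the growing pre-sieve: Selberg's sum, small errors, the rough loss, primes in the
classes.
-/

set_option autoImplicit false

namespace H34P

open Finset Filter Pool.Agent.HLT Pool.Agent.HL26 Pool.Agent.Maynard

/-- (e) -/
lemma ev_SG_le : ∃ C : ℝ, 0 < C ∧ ∀ᶠ N : ℕ in atTop, ∀ R : ℕ, wN N ≤ R → R ≤ N →
    SG (wN N) R ≤ C * (cW (Wp (wN N)) * Real.log N) := by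
  obtain ⟨C, hC, hth⟩ := th_ratio
  obtain ⟨c, hc, hcW⟩ := cW_lower
  refine ⟨C / c, by positivity, ?_⟩
  filter_upwards [ev_w_ge 2] with N hw R hR hRN
  have hw0 : (2:ℝ) ≤ wN N := by exact_mod_cast hw
  have hlw : 0 < Real.log (wN N) := Real.log_pos (by linarith)
  have h1 : SG (wN N) R ≤ (th (wN N) R)⁻¹ := U3aux.SG_le_th (wN N) R
  have h2 := hth (wN N) R hw hR
  have h3 := hcW (wN N) hw
  have hR0 : (0:ℝ) < R := by exact_mod_cast (by omega : 0 < R)
  have h4 : Real.log R ≤ Real.log N := Real.log_le_log hR0 (by exact_mod_cast hRN)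
  have hN1 : 0 ≤ Real.log N := le_trans (Real.log_nonneg (by exact_mod_cast (by omega : 1 ≤ R))) h4
  calc SG (wN N) R ≤ C * (Real.log R / Real.log (wN N)) := h1.trans h2
    _ ≤ C * (Real.log N / Real.log (wN N)) := by gcongr
    _ = C / c * (c / Real.log (wN N) * Real.log N) := by field_simp
    _ ≤ C / c * (cW (Wp (wN N)) * Real.log N) := by gcongr

/-- (f) -/
lemma ev_SG_ge (ρ κ : ℝ) (hρ : 0 < ρ) (hκ : 0 < κ) : ∀ᶠ N : ℕ in atTop,
    (ρ - κ) * (cW (Wp (wN N)) * Real.log N) ≤ SG (wN N) ⌊(N:ℝ) ^ ρ⌋₊ := by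
  filter_upwards [ev_KV (κ / 2) (by positivity), eventually_ge_atTop 1,
    tendsto_logN.eventually_ge_atTop (2 * Real.log 2 / κ)] with N h1 hN h2
  have hN1 : (1:ℝ) ≤ N := by exact_mod_cast hN
  have hx : (1:ℝ) ≤ (N:ℝ) ^ ρ := Real.one_le_rpow hN1 hρ.le
  have hfl : (1:ℕ) ≤ ⌊(N:ℝ) ^ ρ⌋₊ := Nat.le_floor (by exact_mod_cast hx)
  have hfl' : (1:ℝ) ≤ (⌊(N:ℝ) ^ ρ⌋₊ : ℝ) := by exact_mod_cast hfl
  have h3 : (N:ℝ) ^ ρ ≤ 2 * (⌊(N:ℝ) ^ ρ⌋₊ : ℝ) := by
    have := (Nat.lt_floor_add_one ((N:ℝ) ^ ρ)).le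
    linarith
  have h4 : ρ * Real.log N ≤ Real.log 2 + Real.log (⌊(N:ℝ) ^ ρ⌋₊ : ℝ) := by
    rw [← Real.log_rpow (by linarith), ← Real.log_mul (by norm_num) (by linarith)]
    exact Real.log_le_log (by linarith) h3
  have h5 := SG_ge (wN N) ⌊(N:ℝ) ^ ρ⌋₊ hfl
  have hcW := cW_nonneg (Wp (wN N))
  have h6 : KW (Wp (wN N)) ≤ KV (Wp (wN N)) := by
    have := KW_pos (SelDAux.Wp_pos (wN N))
    unfold KV
    linarith
  have h7 : 2 * Real.log 2 ≤ κ * Real.log N := by
    rw [div_le_iff₀ hκ] at h2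
    linarith
  have h8 : cW (Wp (wN N)) * (ρ * Real.log N) ≤
      cW (Wp (wN N)) * (Real.log 2 + Real.log (⌊(N:ℝ) ^ ρ⌋₊ : ℝ)) :=
    mul_le_mul_of_nonneg_left h4 hcW
  have h9 : cW (Wp (wN N)) * (2 * Real.log 2) ≤ cW (Wp (wN N)) * (κ * Real.log N) :=
    mul_le_mul_of_nonneg_left h7 hcW
  nlinarith

lemma log_pow_le (a : ℕ) (s κ : ℝ) (hs : 0 < s) (hκ : 0 < κ) : ∀ᶠ N : ℕ in atTop,
    (Real.log N) ^ a ≤ κ * (N:ℝ) ^ s := by
  have h1 := (isLittleO_log_rpow_rpow_atTop (a : ℝ) hs).bound hκ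
  have h2 := tendsto_natCast_atTop_atTop.eventually h1
  filter_upwards [h2, tendsto_logN.eventually_ge_atTop 0] with N h h0
  rw [Real.rpow_natCast, Real.norm_of_nonneg (by positivity), Real.norm_of_nonneg (by positivity)] at h
  exact h

/-- (g) -/
lemma ev_err (C : ℝ) (j : ℕ) (θ κ : ℝ) (hC : 0 ≤ C) (hθ : θ < 1) (hκ : 0 < κ) : ∀ᶠ N : ℕ in atTop,
    (C * Real.log N) ^ j * (N:ℝ) ^ θ ≤ κ * ((N:ℝ) / Wp (wN N)) := by
  filter_upwards [log_pow_le (j + 1) (1 - θ) (κ / (C ^ j + 1)) (by linarith) (by positivity),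
    tendsto_logN.eventually_ge_atTop 1, ev_Wp_le, eventually_ge_atTop 1] with N h1 hL hW hN
  have hN0 : (0:ℝ) < N := by exact_mod_cast hN
  have hWpos : (0:ℝ) < Wp (wN N) := by exact_mod_cast SelDAux.Wp_pos (wN N)
  have hWL : (Wp (wN N) : ℝ) ≤ Real.log N := by
    refine hW.trans ?_
    rw [Real.sqrt_le_left (by linarith)]
    nlinarith
  have hNt : (0:ℝ) < (N:ℝ) ^ θ := Real.rpow_pos_of_pos hN0 _
  have hsplit : (N:ℝ) ^ (1 - θ) * (N:ℝ) ^ θ = N := by
    rw [← Real.rpow_add hN0]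
    simp
  have hCj : 0 ≤ C ^ j := by positivity
  have h2 : C ^ j * (κ / (C ^ j + 1)) ≤ κ := by
    rw [mul_div_assoc', div_le_iff₀ (by positivity)]
    nlinarith
  have hL0 : 0 < Real.log N := by linarith
  rw [← mul_div_assoc, le_div_iff₀ hWpos, mul_pow]
  calc C ^ j * Real.log N ^ j * (N:ℝ) ^ θ * (Wp (wN N) : ℝ) ≤
        C ^ j * Real.log N ^ j * (N:ℝ) ^ θ * Real.log N := by gcongr
    _ = C ^ j * Real.log N ^ (j + 1) * (N:ℝ) ^ θ := by ring
    _ ≤ C ^ j * (κ / (C ^ j + 1) * (N:ℝ) ^ (1 - θ)) * (N:ℝ) ^ θ := by gcongr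
    _ = C ^ j * (κ / (C ^ j + 1)) * ((N:ℝ) ^ (1 - θ) * (N:ℝ) ^ θ) := by ring
    _ = C ^ j * (κ / (C ^ j + 1)) * N := by rw [hsplit]
    _ ≤ κ * N := by gcongr

/-! ### the rough loss -/

/-- the sum of the reciprocals of the primes up to `z`, crude -/
lemma sum_inv_le {w z : ℕ} (hz : 1 ≤ z) {y : ℝ} (hy : 1 ≤ y) :
    ∑ p ∈ PwR w z, (1:ℝ) / p ≤ (1 + y) + (Real.log z + Real.log 4) / y := by
  set Q := ⌊Real.exp y⌋₊ with hQ
  have hQ1 : 1 ≤ Q := Nat.le_floor (by
    push_cast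
    exact Real.one_le_exp (by linarith))
  have h1 : ∀ p ∈ PwR w z, (1:ℝ) / p ≤ (if p ≤ Q then (1:ℝ) / p else 0) + (Real.log p / p) / y := by
    intro p hp
    have hpp := (mem_PwR.1 hp).2.1
    have hp1 : (1:ℝ) ≤ p := by exact_mod_cast hpp.one_lt.le
    have hp0 : (0:ℝ) < p := by linarith
    have hlp : 0 ≤ Real.log p := Real.log_nonneg hp1
    split_ifs with h
    · have : 0 ≤ Real.log p / p / y := by positivity
      linarith
    · push Not at h
      have h2 : Real.exp y < p := by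
        have := Nat.lt_of_floor_lt h
        exact this
      have h3 : y ≤ Real.log p := by
        rw [Real.le_log_iff_exp_le hp0]
        exact h2.le
      rw [zero_add, div_div, div_le_div_iff₀ hp0 (by positivity)]
      nlinarith
  refine (sum_le_sum h1).trans ?_
  rw [sum_add_distrib]
  refine add_le_add ?_ ?_
  · rw [← sum_filter]
    have h2 : ∑ p ∈ (PwR w z).filter (fun p => p ≤ Q), (1:ℝ) / p ≤ ∑ n ∈ Icc 1 Q, (1:ℝ) / n := by
      apply sum_le_sum_of_subset_of_nonneg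
      · intro p hp
        rw [mem_filter] at hp
        rw [mem_Icc]
        exact ⟨(mem_PwR.1 hp.1).2.1.one_lt.le, hp.2⟩
      · intro n _ _
        positivity
    have h3 : ∑ n ∈ Icc 1 Q, (1:ℝ) / n ≤ 1 + Real.log Q := by
      have h4 := harmonic_le_one_add_log Q
      rw [harmonic_eq_sum_Icc] at h4
      push_cast at h4
      simpa only [one_div] using h4
    have h5 : Real.log Q ≤ y := by
      rw [Real.log_le_iff_le_exp (by exact_mod_cast hQ1)]
      exact Nat.floor_le (Real.exp_pos y).le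
    linarith
  · rw [← sum_div]
    apply div_le_div_of_nonneg_right _ (by linarith)
    refine le_trans ?_ (sum_log_div_le z hz)
    refine Finset.sum_le_sum_of_subset_of_nonneg (Finset.filter_subset _ _) fun p hp _ => ?_
    have hp1 : (1:ℝ) ≤ p := by exact_mod_cast (PPy_prime z p hp).one_lt.le
    have hlp : 0 ≤ Real.log p := Real.log_nonneg hp1
    positivity

/-- the errors of the harmonic sums, against the square root of the logarithm -/
lemma ev_KV2 (κ : ℝ) (hκ : 0 < κ) : ∀ᶠ N : ℕ in atTop,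
    KV (Wp (wN N)) * Real.sqrt (Real.log N) ≤ κ * (cW (Wp (wN N)) * Real.log N) := by
  obtain ⟨c, hc, h⟩ := cW_lower
  have hlim : Tendsto (fun N : ℕ => ((9 + Real.log (Real.log N)) / (Real.log N) ^ (1 / 4 : ℝ)) ^ 2) atTop
      (nhds 0) := by
    have h1 : Tendsto (fun x : ℝ => ((9 + Real.log x) / x ^ (1 / 4 : ℝ)) ^ 2) atTop (nhds 0) := by
      have h2 : Tendsto (fun x : ℝ => 9 / x ^ (1 / 4 : ℝ) + Real.log x / x ^ (1 / 4 : ℝ)) atTop
          (nhds (0 + 0)) := by
        apply Tendsto.add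
        · exact tendsto_const_nhds.div_atTop (tendsto_rpow_atTop (by norm_num))
        · exact (isLittleO_log_rpow_atTop (r := 1 / 4) (by norm_num)).tendsto_div_nhds_zero
      have h3 := h2.pow 2
      rw [add_zero, zero_pow two_ne_zero] at h3
      refine h3.congr fun x => ?_
      rw [add_div]
    exact h1.comp tendsto_logN
  have h4 : ∀ᶠ N : ℕ in atTop,
      ((9 + Real.log (Real.log N)) / (Real.log N) ^ (1 / 4 : ℝ)) ^ 2 < κ * c :=
    hlim.eventually_lt_const (by positivity)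
  filter_upwards [h4, ev_w_ge 2, tendsto_loglogN.eventually_ge_atTop 0,
    tendsto_logN.eventually_gt_atTop 1, ev_Wp_le] with N h5 hw h2 h3 hWle
  have h6 := h (wN N) hw
  have hw0 : (2:ℝ) ≤ wN N := by exact_mod_cast hw
  have hlw : 0 < Real.log (wN N) := Real.log_pos (by linarith)
  have h12 : 0 < Real.sqrt (Real.log N) := Real.sqrt_pos.2 (by linarith)
  have hWpos : (0:ℝ) < Wp (wN N) := by exact_mod_cast SelDAux.Wp_pos (wN N)
  have hKV : KV (Wp (wN N)) ≤ 9 + Real.log (Real.log N) := by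
    unfold KV KW
    have h7 : Real.log (Wp (wN N)) ≤ Real.log (Real.log N) / 2 := by
      rw [← Real.log_sqrt (by linarith)]
      exact Real.log_le_log hWpos hWle
    linarith
  have hlw2 : Real.log (wN N) ≤ 9 + Real.log (Real.log N) := by
    have h6 : Real.log (wN N) ≤ wN N := (Real.log_le_sub_one_of_pos (by linarith)).trans (by linarith)
    have h7 := w_le N h2
    linarith
  have h13 : Real.log N = Real.sqrt (Real.log N) * Real.sqrt (Real.log N) :=
    (Real.mul_self_sqrt (by linarith)).symm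
  have h14 : ((Real.log N) ^ (1 / 4 : ℝ)) ^ 2 = Real.sqrt (Real.log N) := by
    rw [← Real.rpow_natCast, ← Real.rpow_mul (by linarith), Real.sqrt_eq_rpow]
    norm_num
  set l2 := 9 + Real.log (Real.log N) with hl2
  have hl20 : 0 < l2 := by linarith
  have h15 : l2 ^ 2 ≤ κ * c * Real.sqrt (Real.log N) := by
    rw [div_pow, h14, div_lt_iff₀ h12] at h5
    exact h5.le
  have h16 : c / l2 ≤ cW (Wp (wN N)) := by
    refine le_trans ?_ h6
    exact div_le_div_of_nonneg_left hc.le hlw hlw2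
  calc KV (Wp (wN N)) * Real.sqrt (Real.log N) ≤ l2 * Real.sqrt (Real.log N) := by gcongr
    _ = l2 ^ 2 / l2 * Real.sqrt (Real.log N) := by
        rw [sq, mul_div_assoc, div_self hl20.ne', mul_one]
    _ ≤ κ * c * Real.sqrt (Real.log N) / l2 * Real.sqrt (Real.log N) := by gcongr
    _ = κ * (c / l2 * (Real.sqrt (Real.log N) * Real.sqrt (Real.log N))) := by ring
    _ = κ * (c / l2 * Real.log N) := by rw [← h13]
    _ ≤ κ * (cW (Wp (wN N)) * Real.log N) := by gcongr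

/-- (h) -/
lemma ev_rough (u : ℕ) (hu : 1 ≤ u) (κ : ℝ) (hκ : 0 < κ) : ∀ᶠ N : ℕ in atTop,
    ∑ p ∈ PwR (wN N) (zz N u), (cW (Wp (wN N)) * Real.log p + KV (Wp (wN N))) / p ≤
      (2 / u + κ) * (cW (Wp (wN N)) * Real.log N) := by
  have hlog4 : 0 < Real.log 4 := Real.log_pos (by norm_num)
  filter_upwards [ev_KV2 (κ / 12) (by positivity), eventually_ge_atTop 1,
    tendsto_logN.eventually_ge_atTop (2 * Real.log 4 / κ), tendsto_logN.eventually_ge_atTop 1,
    tendsto_logN.eventually_ge_atTop (Real.log 4)] with N h1 hN h2 h3 h2'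
  set w := wN N with hw
  set L := Real.log N with hL
  have hN1 : (1:ℝ) ≤ N := by exact_mod_cast hN
  have hu0 : (0:ℝ) < u := by exact_mod_cast hu
  have hu1 : (1:ℝ) ≤ u := by exact_mod_cast hu
  have hx : (1:ℝ) ≤ (N:ℝ) ^ (1 / (u:ℝ)) := Real.one_le_rpow hN1 (by positivity)
  have hz1 : 1 ≤ zz N u := Nat.le_floor (by exact_mod_cast hx)
  have hz1' : (1:ℝ) ≤ zz N u := by exact_mod_cast hz1
  have hlz : Real.log (zz N u) ≤ L / u := by
    have h4 : ((zz N u : ℕ) : ℝ) ≤ (N:ℝ) ^ (1 / (u:ℝ)) := Nat.floor_le (by positivity)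
    have h5 := Real.log_le_log (by linarith) h4
    rw [Real.log_rpow (by linarith)] at h5
    calc _ ≤ 1 / (u:ℝ) * Real.log N := h5
      _ = L / u := by rw [hL]; ring
  have hlz' : L / u ≤ L := div_le_self (by linarith) hu1
  have hcW := cW_nonneg (Wp w)
  have hKV := (KV_pos (SelDAux.Wp_pos w)).le
  have hsq : 1 ≤ Real.sqrt L := by
    rw [Real.one_le_sqrt]
    exact h3
  have hsq0 : 0 < Real.sqrt L := by linarith
  have hsqL : L / Real.sqrt L = Real.sqrt L := Real.div_sqrt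
  have h4 := sum_inv_le (w := w) hz1 hsq
  have h5 : ∑ p ∈ PwR w (zz N u), (1:ℝ) / p ≤ 4 * Real.sqrt L := by
    refine h4.trans ?_
    have h6 : (Real.log (zz N u) + Real.log 4) / Real.sqrt L ≤ (2 * L) / Real.sqrt L := by
      apply div_le_div_of_nonneg_right _ hsq0.le
      linarith
    have h7 : (2 * L) / Real.sqrt L = 2 * Real.sqrt L := by
      rw [mul_div_assoc, hsqL]
    linarith
  have h6 : ∑ p ∈ PwR w (zz N u), Real.log p / p ≤ Real.log (zz N u) + Real.log 4 := by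
    refine le_trans ?_ (sum_log_div_le (zz N u) hz1)
    refine Finset.sum_le_sum_of_subset_of_nonneg (Finset.filter_subset _ _) fun p hp _ => ?_
    have hp1 : (1:ℝ) ≤ p := by exact_mod_cast (PPy_prime _ p hp).one_lt.le
    have hlp : 0 ≤ Real.log p := Real.log_nonneg hp1
    positivity
  have h7 : ∑ p ∈ PwR w (zz N u), (cW (Wp w) * Real.log p + KV (Wp w)) / p =
      cW (Wp w) * ∑ p ∈ PwR w (zz N u), Real.log p / p + KV (Wp w) * ∑ p ∈ PwR w (zz N u), (1:ℝ) / p := by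
    rw [mul_sum, mul_sum, ← sum_add_distrib]
    apply sum_congr rfl
    intro p _
    ring
  have h8 : 2 * Real.log 4 ≤ κ * L := by
    rw [div_le_iff₀ hκ] at h2
    linarith
  rw [h7]
  have h9 := mul_le_mul_of_nonneg_left h6 hcW
  have h10 := mul_le_mul_of_nonneg_left h5 hKV
  have h11 := mul_le_mul_of_nonneg_left hlz hcW
  have h12 := mul_le_mul_of_nonneg_left h8 hcW
  have h13 : 0 ≤ cW (Wp w) * L / u := by positivity
  have e1 : (2 / (u:ℝ) + κ) * (cW (Wp w) * L) = 2 * (cW (Wp w) * L / u) + κ * (cW (Wp w) * L) := by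
    ring
  have e2 : cW (Wp w) * (L / u) = cW (Wp w) * L / u := by ring
  rw [e1]
  rw [e2] at h11
  nlinarith

/-! ### primes in the classes -/

lemma thAP_bound3 : ∃ C : ℝ, 0 < C ∧ ∀ q a y : ℕ, 0 < q → a.Coprime q → 3 ≤ y →
    |thAP y q a - (y:ℝ) / q.totient| ≤ C * q * y / Real.log y ^ 3 := by
  obtain ⟨C, hC, h⟩ := Pool.Agent.ANT.theta_ap 3 (ε := 1) one_pos
  refine ⟨C, hC, fun q a y hq ha hy => ?_⟩
  have : NeZero q := ⟨hq.ne'⟩
  have h1 := h q (a : ZMod q) ((ZMod.isUnit_iff_coprime a q).2 ha) y (by exact_mod_cast hy)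
  rw [Nat.floor_natCast, Real.rpow_one] at h1
  have e : thAP y q a = ∑ p ∈ (Finset.Icc 1 y).filter (fun p : ℕ => p.Prime ∧ (p : ZMod q) = a),
      Real.log p := by
    unfold thAP
    refine Finset.sum_congr ?_ fun _ _ => rfl
    refine Finset.filter_congr fun p _ => ?_
    rw [ZMod.natCast_eq_natCast_iff]
  rw [e]
  exact h1

/-- (i) -/
lemma ev_primes (κ : ℝ) (hκ : 0 < κ) : ∀ᶠ N : ℕ in atTop, ∀ a : ℕ, a.Coprime (Wp (wN N)) →
    (((XS N (wN N) a).filter (fun n => n.Prime)).card : ℝ) ≤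
      (1 + κ) * (((N:ℝ) / Wp (wN N)) / (cW (Wp (wN N)) * Real.log N)) := by
  obtain ⟨C, hC, hth⟩ := thAP_bound3
  filter_upwards [eventually_ge_atTop 3, tendsto_logN.eventually_ge_atTop 1, ev_Wp_le,
    tendsto_logN.eventually_ge_atTop (3 * C / κ)] with N hN3 hL1 hWle hLC a hcop
  set W := Wp (wN N) with hWdef
  have hW : 0 < W := SelDAux.Wp_pos (wN N)
  have hφ : 0 < W.totient := Nat.totient_pos.2 hW
  have hφ' : (0:ℝ) < (W.totient : ℝ) := by exact_mod_cast hφ
  have hW' : (0:ℝ) < (W:ℝ) := by exact_mod_cast hW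
  set L := Real.log (N:ℝ) with hL
  have hN0 : (0:ℝ) < (N:ℝ) := by
    have : 0 < N := by omega
    exact_mod_cast this
  have hL0 : 0 < L := by linarith
  have hS := sum_tht_eq N 0 W a
  simp only [add_zero] at hS
  have h1 := hth W a (2 * N) hW hcop (by omega)
  have h2 := hth W a N hW hcop hN3
  have hbd : ∀ y : ℕ, N ≤ y → C * W * y / Real.log y ^ 3 ≤ C * W * y / L ^ 3 := by
    intro y hy
    have hlog : L ≤ Real.log y := Real.log_le_log hN0 (by exact_mod_cast hy)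
    gcongr
  have h1' := h1.trans (hbd (2 * N) (by omega))
  have h2' := h2.trans (hbd N le_rfl)
  set S := ∑ n ∈ (Finset.Ioc N (2 * N)).filter (fun n => n ≡ a [MOD W]), tht n with hSdef
  set T := ((N:ℝ) / W) / (cW W * L) with hT
  have hT' : T = (N:ℝ) / W.totient / L := by
    rw [hT]; unfold cW; field_simp
  have hT0 : 0 < T := by rw [hT']; positivity
  have hSb : S ≤ (N:ℝ) / W.totient + 3 * C * W * N / L ^ 3 := by
    have a1 := (abs_le.1 h1').2
    have a2 := (abs_le.1 h2').1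
    have e : S = thAP (2 * N) W a - thAP N W a := hS
    rw [e]
    push_cast at a1
    have e2 : (2 * (N:ℝ)) / W.totient = (N:ℝ) / W.totient + (N:ℝ) / W.totient := by ring
    have e3 : C * W * (2 * (N:ℝ)) / L ^ 3 + C * W * N / L ^ 3 = 3 * C * W * N / L ^ 3 := by ring
    linarith
  set P : ℝ := (((XS N (wN N) a).filter (fun n => n.Prime)).card : ℝ) with hP
  have hSP : S = ∑ n ∈ (XS N (wN N) a).filter (fun n => n.Prime), Real.log ((n : ℕ) : ℝ) := by
    rw [hSdef, Finset.sum_filter (s := XS N (wN N) a)]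
    rfl
  have hlo : P * L ≤ S := by
    rw [hSP, hP, ← nsmul_eq_mul, ← Finset.sum_const]
    refine Finset.sum_le_sum fun n hn => ?_
    have hn2 := (Finset.mem_Ioc.1 (Finset.mem_filter.1 (Finset.mem_filter.1 hn).1).1)
    apply Real.log_le_log hN0
    have : N ≤ n := by omega
    exact_mod_cast this
  have hδ : 3 * C * W * N / L ^ 3 ≤ κ * (N / W.totient) := by
    have h3 : 3 * C ≤ κ * L := by
      rw [div_le_iff₀ hκ] at hLC
      linarith
    have h4 : (W:ℝ) * W.totient ≤ L := by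
      have h5 : (W.totient : ℝ) ≤ W := by exact_mod_cast Nat.totient_le W
      have h6 : (W:ℝ) * W ≤ L := by
        have h7 := mul_self_le_mul_self hW'.le hWle
        rwa [Real.mul_self_sqrt hL0.le] at h7
      nlinarith
    rw [mul_div_assoc', div_le_div_iff₀ (by positivity) (by positivity)]
    have h5 : 3 * C * ((W:ℝ) * W.totient) ≤ κ * L * L :=
      mul_le_mul h3 h4 (by positivity) (by positivity)
    have h6 : κ * L * L ≤ κ * L ^ 3 := by
      have : L ^ 2 ≤ L ^ 3 := pow_le_pow_right₀ hL1 (by norm_num)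
      nlinarith
    have h7 := mul_le_mul_of_nonneg_right (h5.trans h6) hN0.le
    nlinarith [h7]
  have hTL : T * L = N / W.totient := by rw [hT']; field_simp
  by_contra hcon
  push Not at hcon
  have h7 : (1 + κ) * T * L < P * L := mul_lt_mul_of_pos_right hcon hL0
  have h8 : S ≤ (1 + κ) * (T * L) := by rw [hTL]; linarith
  nlinarith

end H34P
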