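import Mathlib
import Pool.Agent.H34P.PSc
import Pool.Agent.HLT.SelC


/-!
Multi-fold correlations with one factor restricted to the multiples of a prime.
-/

set_option autoImplicit false

namespace H34P

open Finset Pool.Agent.HLT Pool.Agent.HL26 Pool.Agent.Maynard

/-! ### the short sum -/

lemma sum_divisors_mul_prime {s p : ℕ} (hp : p.Prime) (hps : Nat.Coprime s p) (f : ℕ → ℝ) :
    ∑ u ∈ (s * p).divisors, f u = ∑ u ∈ s.divisors, f u + ∑ u ∈ s.divisors, f (u * p) := by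
  have hp0 : 0 < p := hp.pos
  by_cases hs : s = 0
  · subst hs
    simp
  have h1 : (s * p).divisors = s.divisors ∪ s.divisors.image (fun u => u * p) := by
    ext u
    rw [mem_union, mem_image, Nat.mem_divisors, Nat.mem_divisors]
    constructor
    · rintro ⟨hu, -⟩
      by_cases hpu : p ∣ u
      · obtain ⟨v, rfl⟩ := hpu
        refine Or.inr ⟨v, ?_, by ring⟩
        rw [Nat.mem_divisors]
        refine ⟨?_, hs⟩
        rw [mul_comm s p] at hu
        exact Nat.dvd_of_mul_dvd_mul_left hp0 hu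
      · refine Or.inl ⟨?_, hs⟩
        have hc : Nat.Coprime u p := ((Nat.Prime.coprime_iff_not_dvd hp).2 hpu).symm
        exact hc.dvd_of_dvd_mul_right hu
    · rintro (⟨hu, -⟩ | ⟨v, hv, rfl⟩)
      · exact ⟨hu.mul_right p, by positivity⟩
      · rw [Nat.mem_divisors] at hv
        exact ⟨Nat.mul_dvd_mul_right hv.1 p, by positivity⟩
  have hdis : Disjoint s.divisors (s.divisors.image (fun u => u * p)) := by
    rw [disjoint_left]
    intro u hu hu'
    obtain ⟨v, -, rfl⟩ := mem_image.1 hu'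
    rw [Nat.mem_divisors] at hu
    have h2 : p ∣ s := (Dvd.intro_left v rfl).trans hu.1
    exact hp.one_lt.ne' (Nat.dvd_one.1 (hps ▸ Nat.dvd_gcd h2 dvd_rfl))
  rw [h1, sum_union hdis, sum_image]
  intro a _ b _ hab
  exact Nat.eq_of_mul_eq_mul_right hp0 hab

/-- the sum of the Moebius function over the divisors of `s p` -/
lemma mu_short {s p : ℕ} (hs : Squarefree (s * p)) (hp : p.Prime) (r R : ℕ) :
    ∑ u ∈ (s * p).divisors.filter (fun u => u * r ≤ R), ((ArithmeticFunction.moebius u : ℤ) : ℝ) =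
      ∑ u ∈ s.divisors, if u * r ≤ R ∧ R < p * (u * r) then
        ((ArithmeticFunction.moebius u : ℤ) : ℝ) else 0 := by
  have hco : Nat.Coprime s p := Nat.coprime_of_squarefree_mul hs
  rw [sum_filter, sum_divisors_mul_prime hp hco, ← sum_add_distrib]
  apply sum_congr rfl
  intro u hu
  have hcu : Nat.Coprime u p := Nat.Coprime.coprime_dvd_left (Nat.dvd_of_mem_divisors hu) hco
  have h1 : ArithmeticFunction.moebius (u * p) = - ArithmeticFunction.moebius u := by
    rw [ArithmeticFunction.isMultiplicative_moebius.map_mul_of_coprime hcu,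
      ArithmeticFunction.moebius_apply_prime hp]
    ring
  rw [h1]
  have e1 : u * p * r = p * (u * r) := by ring
  rw [e1]
  by_cases h2 : u * r ≤ R
  · by_cases h3 : R < p * (u * r)
    · rw [if_pos h2, if_neg (by omega), if_pos ⟨h2, h3⟩, add_zero]
    · rw [if_pos h2, if_pos (by omega), if_neg (fun h => h3 h.2)]
      push_cast
      ring
  · have h4 : ¬ p * (u * r) ≤ R := by
      intro h
      apply h2
      calc u * r = 1 * (u * r) := (one_mul _).symm
        _ ≤ p * (u * r) := Nat.mul_le_mul_right _ hp.one_lt.le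
        _ ≤ R := h
    rw [if_neg h2, if_neg h4, if_neg (fun h => h2 h.1), add_zero]

lemma card_div_two {s : ℕ} (hs : Squarefree s) : s.divisors.card = 2 ^ s.primeFactors.card := by
  have h := SelCAux.sum_div_prod (fun _ => (1:ℝ)) hs
  simp only [prod_const_one, sum_const, nsmul_eq_mul, mul_one, prod_const] at h
  have h2 : ((s.divisors.card : ℕ) : ℝ) = ((2 ^ s.primeFactors.card : ℕ) : ℝ) := by
    rw [h]
    push_cast
    norm_num
  exact_mod_cast h2

/-- the mean of `LamS ^ 2` over the multiples of `s * p` (as a multiple of the density) is small -/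
theorem VV_short : ∃ C : ℝ, 0 < C ∧ ∀ w R s p : ℕ, 1 ≤ R → p.Prime → s * p ∣ ∏ q ∈ PwR w R, q →
    VV w R (s * p) ≤ (1 / SG w R ^ 2) * 4 ^ s.primeFactors.card *
      (C * (cW (Wp w) * Real.log p + KV (Wp w))) := by
  obtain ⟨C, hC, hshort⟩ := short_sum
  refine ⟨C, hC, fun w R s p hR hp hdvd => ?_⟩
  have hsq : Squarefree (s * p) := (SelCAux.sqf_P w R).squarefree_of_dvd hdvd
  have hss : Squarefree s := hsq.squarefree_of_dvd (Dvd.intro p rfl)
  have hG := SG_pos w R hR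
  set D := C * (cW (Wp w) * Real.log p + KV (Wp w)) with hD
  have hD0 : 0 ≤ D := by
    have h := hshort w 1 p le_rfl hp.one_lt.le
    refine le_trans (sum_nonneg fun r _ => by positivity) h
  rw [VV_eq w R (s * p) hR hdvd, mul_assoc]
  apply mul_le_mul_of_nonneg_left _ (by positivity)
  -- the inner sum
  have h1 : ∀ r ∈ (Dv w R).filter (fun r => Nat.Coprime r (s * p)), (1 / (Nat.totient r : ℝ)) *
      (∑ u ∈ (s * p).divisors.filter (fun u => u * r ≤ R),
        ((ArithmeticFunction.moebius u : ℤ) : ℝ)) ^ 2 ≤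
      ∑ u ∈ s.divisors, 2 ^ s.primeFactors.card * (if u * r ≤ R ∧ R < p * (u * r) then
        1 / (Nat.totient r : ℝ) else 0) := by
    intro r _
    rw [mu_short hsq hp]
    have h2 : (∑ u ∈ s.divisors, if u * r ≤ R ∧ R < p * (u * r) then
        ((ArithmeticFunction.moebius u : ℤ) : ℝ) else 0) ^ 2 ≤
        2 ^ s.primeFactors.card * ∑ u ∈ s.divisors, (if u * r ≤ R ∧ R < p * (u * r) then (1:ℝ) else 0) := by
      refine sq_sum_le_card_mul_sum_sq.trans ?_
      rw [card_div_two hss]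
      push_cast
      apply mul_le_mul_of_nonneg_left _ (by positivity)
      apply sum_le_sum
      intro u _
      split_ifs
      · have h3 : |ArithmeticFunction.moebius u| ≤ 1 := ArithmeticFunction.abs_moebius_le_one
        have h4 : |((ArithmeticFunction.moebius u : ℤ) : ℝ)| ≤ 1 := by exact_mod_cast h3
        rw [← sq_abs]
        exact pow_le_one₀ (abs_nonneg _) h4
      · norm_num
    calc _ ≤ (1 / (Nat.totient r : ℝ)) * (2 ^ s.primeFactors.card *
          ∑ u ∈ s.divisors, (if u * r ≤ R ∧ R < p * (u * r) then (1:ℝ) else 0)) :=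
          mul_le_mul_of_nonneg_left h2 (by positivity)
      _ = _ := by
          rw [← mul_assoc, mul_sum]
          apply sum_congr rfl
          intro u _
          split_ifs
          · ring
          · ring
  refine (sum_le_sum h1).trans ?_
  rw [sum_comm]
  have h2 : ∀ u ∈ s.divisors, ∑ r ∈ (Dv w R).filter (fun r => Nat.Coprime r (s * p)),
      (2:ℝ) ^ s.primeFactors.card * (if u * r ≤ R ∧ R < p * (u * r) then
        1 / (Nat.totient r : ℝ) else 0) ≤ 2 ^ s.primeFactors.card * D := by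
    intro u hu
    rw [← mul_sum]
    apply mul_le_mul_of_nonneg_left _ (by positivity)
    have hu0 : 0 < u := Nat.pos_of_mem_divisors hu
    rw [← sum_filter]
    by_cases hR' : 1 ≤ R / u
    · refine le_trans (sum_le_sum_of_subset_of_nonneg ?_ fun _ _ _ => by positivity)
        (hshort w (R / u) p hR' hp.one_lt.le)
      intro r hr
      rw [mem_filter, mem_filter] at hr
      obtain ⟨⟨hr1, -⟩, hr2, hr3⟩ := hr
      obtain ⟨a1, a2, a3⟩ := SelAAux.mem_Dv.1 hr1
      rw [mem_filter, SelAAux.mem_Dv]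
      refine ⟨⟨a1, ?_, a3⟩, ?_⟩
      · rw [Nat.le_div_iff_mul_le hu0, mul_comm]
        exact hr2
      · rw [Nat.div_lt_iff_lt_mul hu0]
        calc R < p * (u * r) := hr3
          _ = p * r * u := by ring
    · rw [sum_eq_zero]
      · exact hD0
      · intro r hr
        exfalso
        rw [mem_filter, mem_filter] at hr
        have hr0 := SelCAux.Dv_pos hr.1.1
        apply hR'
        rw [Nat.le_div_iff_mul_le hu0, one_mul]
        calc u = u * 1 := (mul_one u).symm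
          _ ≤ u * r := Nat.mul_le_mul_left u hr0
          _ ≤ R := hr.2.1
  refine (sum_le_sum h2).trans ?_
  rw [sum_const, card_div_two hss, nsmul_eq_mul]
  push_cast
  rw [← mul_assoc, ← mul_pow]
  norm_num

/-! ### one factor on the multiples of `p` -/

/-- coefficients of `LamS ^ 2` on the multiples of `p` -/
noncomputable def Lp (w R p Q : ℕ) : ℝ := ∑ q1 ∈ Dv w R, ∑ q2 ∈ Dv w R,
  if Nat.lcm (Nat.lcm q1 q2) p = Q then lamS w R q1 * lamS w R q2 else 0

lemma lcm_mem_p {w R p q1 q2 : ℕ} (hp : p ∈ PwR w R) (h1 : q1 ∈ Dv w R) (h2 : q2 ∈ Dv w R) :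
    Nat.lcm (Nat.lcm q1 q2) p ∈ (∏ p ∈ PwR w R, p).divisors := by
  rw [Nat.mem_divisors]
  exact ⟨Nat.lcm_dvd (lcm_dvd_P le_rfl h1 h2) (dvd_prod_of_mem _ hp), SelCAux.P_ne w R⟩

lemma sum_Lp {w R p : ℕ} (hp : p ∈ PwR w R) (f : ℕ → ℝ) :
    ∑ Q ∈ (∏ p ∈ PwR w R, p).divisors, Lp w R p Q * f Q =
      ∑ q1 ∈ Dv w R, ∑ q2 ∈ Dv w R, lamS w R q1 * lamS w R q2 * f (Nat.lcm (Nat.lcm q1 q2) p) := by
  unfold Lp
  simp_rw [sum_mul]
  rw [sum_comm]
  apply sum_congr rfl
  intro q1 h1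
  rw [sum_comm]
  apply sum_congr rfl
  intro q2 h2
  rw [sum_eq_single_of_mem (Nat.lcm (Nat.lcm q1 q2) p) (lcm_mem_p hp h1 h2)]
  · rw [if_pos rfl]
  · intro Q _ hQ
    rw [if_neg (Ne.symm hQ), zero_mul]

lemma LamS_sq_p {w R p : ℕ} (hp : p ∈ PwR w R) (m : ℕ) :
    (if p ∣ m then LamS w R m ^ 2 else 0) =
      ∑ Q ∈ (∏ p ∈ PwR w R, p).divisors, Lp w R p Q * (if Q ∣ m then 1 else 0) := by
  rw [sum_Lp hp, SelDAux.LamS_sq]
  by_cases hpm : p ∣ m
  · rw [if_pos hpm]
    apply sum_congr rfl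
    intro q1 _
    apply sum_congr rfl
    intro q2 _
    have h1 : Nat.lcm (Nat.lcm q1 q2) p ∣ m ↔ Nat.lcm q1 q2 ∣ m :=
      ⟨fun h => (Nat.dvd_lcm_left _ _).trans h, fun h => Nat.lcm_dvd h hpm⟩
    simp only [h1]
  · rw [if_neg hpm]
    symm
    apply sum_eq_zero
    intro q1 _
    apply sum_eq_zero
    intro q2 _
    rw [if_neg, mul_zero]
    intro h
    exact hpm ((Nat.dvd_lcm_right _ _).trans h)

lemma sum_abs_Lp {w R p : ℕ} (hp : p ∈ PwR w R) (hR : 1 ≤ R) :
    ∑ Q ∈ (∏ p ∈ PwR w R, p).divisors, |Lp w R p Q| ≤ (R:ℝ) ^ 2 := by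
  have h1 : ∀ Q, |Lp w R p Q| ≤ ∑ q1 ∈ Dv w R, ∑ q2 ∈ Dv w R,
      if Nat.lcm (Nat.lcm q1 q2) p = Q then (1:ℝ) else 0 := by
    intro Q
    unfold Lp
    refine (abs_sum_le_sum_abs _ _).trans ?_
    apply sum_le_sum
    intro q1 h1
    refine (abs_sum_le_sum_abs _ _).trans ?_
    apply sum_le_sum
    intro q2 h2
    split_ifs
    · exact SelDAux.abs_ll w R hR h1 h2
    · rw [abs_zero]
  refine (sum_le_sum fun Q _ => h1 Q).trans ?_
  rw [sum_comm]
  have h2 : ∀ q1 ∈ Dv w R, ∑ Q ∈ (∏ p ∈ PwR w R, p).divisors, ∑ q2 ∈ Dv w R,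
      (if Nat.lcm (Nat.lcm q1 q2) p = Q then (1:ℝ) else 0) ≤ R := by
    intro q1 h1
    rw [sum_comm]
    have h3 : ∀ q2 ∈ Dv w R, ∑ Q ∈ (∏ p ∈ PwR w R, p).divisors,
        (if Nat.lcm (Nat.lcm q1 q2) p = Q then (1:ℝ) else 0) ≤ 1 := by
      intro q2 _
      rw [sum_ite_eq]
      split_ifs
      · exact le_refl _
      · exact zero_le_one
    refine (sum_le_sum h3).trans ?_
    rw [sum_const, nsmul_eq_mul, mul_one]
    exact_mod_cast SelDAux.card_Dv w R
  refine (sum_le_sum h2).trans ?_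
  rw [sum_const, nsmul_eq_mul, pow_two]
  exact mul_le_mul_of_nonneg_right (by exact_mod_cast SelDAux.card_Dv w R) (by positivity)

/-- the sum `T_e` on the multiples of `p` -/
noncomputable def TP (w R p e : ℕ) : ℝ := ∑ q1 ∈ Dv w R, ∑ q2 ∈ Dv w R,
  if e ∣ Nat.lcm q1 q2 then lamS w R q1 * lamS w R q2 *
    ((Nat.gcd (Nat.lcm q1 q2) p : ℕ) : ℝ) / (Nat.lcm q1 q2 : ℝ) else 0

lemma TP_eq (w R p e : ℕ) (he : 0 < e) (hep : Nat.Coprime e p) :
    ((Nat.totient e : ℕ) : ℝ) * TP w R p e =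
      ∑ x ∈ e.divisorsAntidiagonal, (((ArithmeticFunction.moebius x.1 : ℤ) : ℝ)) * VV w R (x.2 * p) := by
  unfold TP VV
  simp only [Finset.mul_sum]
  rw [Finset.sum_comm (s := e.divisorsAntidiagonal)]
  apply Finset.sum_congr rfl
  intro q1 hq1
  rw [Finset.sum_comm (s := e.divisorsAntidiagonal)]
  apply Finset.sum_congr rfl
  intro q2 hq2
  have hQ : 0 < Nat.lcm q1 q2 := Nat.lcm_pos (SelCAux.Dv_pos hq1) (SelCAux.Dv_pos hq2)
  have h := SelCAux.gauss_inv (Nat.lcm q1 q2) hQ e he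
  have e1 : ∑ x ∈ e.divisorsAntidiagonal, (((ArithmeticFunction.moebius x.1 : ℤ) : ℝ)) *
      (lamS w R q1 * lamS w R q2 * ((Nat.gcd (Nat.lcm q1 q2) (x.2 * p) : ℕ) : ℝ) /
        (Nat.lcm q1 q2 : ℝ))
      = (lamS w R q1 * lamS w R q2 * ((Nat.gcd (Nat.lcm q1 q2) p : ℕ) : ℝ) / (Nat.lcm q1 q2 : ℝ)) *
        ∑ x ∈ e.divisorsAntidiagonal, (((ArithmeticFunction.moebius x.1 : ℤ) : ℝ)) *
          ((Nat.gcd (Nat.lcm q1 q2) x.2 : ℕ) : ℝ) := by
    rw [Finset.mul_sum]
    apply Finset.sum_congr rfl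
    intro x hx
    have hx2 : Nat.Coprime x.2 p := Nat.Coprime.coprime_dvd_left
      (Dvd.intro_left x.1 (Nat.mem_divisorsAntidiagonal.mp hx).1) hep
    rw [Nat.Coprime.gcd_mul _ hx2]
    push_cast
    ring
  rw [e1, h]
  split_ifs
  · ring
  · ring

lemma TP_bound : ∃ C : ℝ, 0 < C ∧ ∀ w R p e : ℕ, 1 ≤ R → p.Prime → e * p ∣ ∏ q ∈ PwR w R, q →
    |SG w R * TP w R p e| ≤ (C * (cW (Wp w) * Real.log p + KV (Wp w))) / SG w R *
      ∏ q ∈ e.primeFactors, (5 / ((q:ℝ) - 1)) := by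
  obtain ⟨C, hC, hV⟩ := VV_short
  refine ⟨C, hC, fun w R p e hR hp he => ?_⟩
  have hG := SG_pos w R hR
  have hsq : Squarefree (e * p) := (SelCAux.sqf_P w R).squarefree_of_dvd he
  have hes : Squarefree e := hsq.squarefree_of_dvd (Dvd.intro p rfl)
  have hep : Nat.Coprime e p := Nat.coprime_of_squarefree_mul hsq
  have he0 : 0 < e := Nat.pos_of_ne_zero hes.ne_zero
  have hphi : (0:ℝ) < ((Nat.totient e : ℕ) : ℝ) := by exact_mod_cast Nat.totient_pos.mpr he0
  set D := C * (cW (Wp w) * Real.log p + KV (Wp w)) with hD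
  have h1 := TP_eq w R p e he0 hep
  have h2 : |((Nat.totient e : ℕ) : ℝ) * TP w R p e| ≤ 5 ^ e.primeFactors.card * (D / SG w R ^ 2) := by
    rw [h1]
    refine (Finset.abs_sum_le_sum_abs _ _).trans ?_
    have h3 : ∀ x ∈ e.divisorsAntidiagonal,
        |(((ArithmeticFunction.moebius x.1 : ℤ) : ℝ)) * VV w R (x.2 * p)|
          ≤ 4 ^ x.2.primeFactors.card * (D / SG w R ^ 2) := by
      intro x hx
      have hx2 : x.2 * p ∣ ∏ p ∈ PwR w R, p :=
        (Nat.mul_dvd_mul_right (Dvd.intro_left x.1 (Nat.mem_divisorsAntidiagonal.mp hx).1) p).trans he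
      rw [abs_mul]
      have h4 : |(((ArithmeticFunction.moebius x.1 : ℤ) : ℝ))| ≤ 1 := by
        have := ArithmeticFunction.abs_moebius_le_one (n := x.1)
        exact_mod_cast this
      have h5 : |VV w R (x.2 * p)| ≤ 4 ^ x.2.primeFactors.card * (D / SG w R ^ 2) := by
        rw [abs_of_nonneg (VV_nonneg w R (x.2 * p) hR hx2)]
        refine (hV w R x.2 p hR hp hx2).trans (le_of_eq ?_)
        ring
      calc _ ≤ 1 * |VV w R (x.2 * p)| := mul_le_mul_of_nonneg_right h4 (abs_nonneg _)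
        _ ≤ _ := by rw [one_mul]; exact h5
    refine (Finset.sum_le_sum h3).trans ?_
    rw [← Finset.sum_mul, Nat.sum_divisorsAntidiagonal' (fun _ b => (4:ℝ) ^ b.primeFactors.card),
      SelCAux.sum_four hes]
  rw [abs_mul, abs_of_pos hphi] at h2
  rw [abs_mul, abs_of_pos hG, prod_div_distrib, prod_const, ← SelCAux.totient_sqf hes]
  have h6 : |TP w R p e| ≤ 5 ^ e.primeFactors.card * (D / SG w R ^ 2) / ((Nat.totient e : ℕ) : ℝ) := by
    rw [le_div_iff₀ hphi, mul_comm]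
    exact h2
  calc SG w R * |TP w R p e| ≤
        SG w R * (5 ^ e.primeFactors.card * (D / SG w R ^ 2) / ((Nat.totient e : ℕ) : ℝ)) :=
        mul_le_mul_of_nonneg_left h6 hG.le
    _ = _ := by
        field_simp

lemma TU_Lp {w R p : ℕ} (hp : p ∈ PwR w R) {U : Finset ℕ} (hU : U ⊆ PwR w R) (G : ℝ) :
    TU (∏ p ∈ PwR w R, p).divisors (fun Q => G * (Lp w R p Q / (Q:ℝ))) U
      = (1 / (p:ℝ)) * (G * TP w R p (∏ q ∈ U.erase p, q)) := by
  have hpp : p.Prime := (mem_PwR.1 hp).2.1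
  have hUp : ∀ q ∈ U, q.Prime := fun q hq => (mem_PwR.1 (hU hq)).2.1
  unfold TU
  rw [sum_filter]
  have h1 : ∀ Q ∈ (∏ p ∈ PwR w R, p).divisors,
      (if ∀ q ∈ U, q ∣ Q then G * (Lp w R p Q / (Q:ℝ)) else 0)
      = Lp w R p Q * (if ∀ q ∈ U, q ∣ Q then G / (Q:ℝ) else 0) := by
    intro Q _
    split_ifs
    · ring
    · ring
  rw [sum_congr rfl h1, sum_Lp hp]
  unfold TP
  rw [mul_sum, mul_sum]
  apply sum_congr rfl
  intro q1 hq1
  rw [mul_sum, mul_sum]
  apply sum_congr rfl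
  intro q2 hq2
  set l := Nat.lcm q1 q2 with hl
  have hl0 : 0 < l := Nat.lcm_pos (SelCAux.Dv_pos hq1) (SelCAux.Dv_pos hq2)
  have h2 : (∀ q ∈ U, q ∣ Nat.lcm l p) ↔ (∏ q ∈ U.erase p, q) ∣ l := by
    rw [← all_dvd_iff (fun q hq => hUp q (mem_of_mem_erase hq))]
    constructor
    · intro h q hq
      have hq' := mem_erase.1 hq
      have h3 : q ∣ l * p := (h q hq'.2).trans (Nat.lcm_dvd_mul l p)
      rcases (hUp q hq'.2).dvd_mul.1 h3 with h4 | h4
      · exact h4
      · exact absurd ((Nat.prime_dvd_prime_iff_eq (hUp q hq'.2) hpp).1 h4) hq'.1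
    · intro h q hq
      by_cases hqp : q = p
      · rw [hqp]
        exact Nat.dvd_lcm_right _ _
      · exact (h q (mem_erase.2 ⟨hqp, hq⟩)).trans (Nat.dvd_lcm_left _ _)
  have h3 : ((Nat.lcm l p : ℕ) : ℝ) * ((Nat.gcd l p : ℕ) : ℝ) = l * p := by
    have := Nat.gcd_mul_lcm l p
    rw [mul_comm]
    exact_mod_cast this
  have hlcm : (0:ℝ) < ((Nat.lcm l p : ℕ) : ℝ) := by
    exact_mod_cast Nat.lcm_pos hl0 hpp.pos
  have hgcd : (0:ℝ) < ((Nat.gcd l p : ℕ) : ℝ) := by
    exact_mod_cast Nat.gcd_pos_of_pos_left _ hl0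
  have hl0' : (0:ℝ) < (l:ℝ) := by exact_mod_cast hl0
  have hp0' : (0:ℝ) < (p:ℝ) := by exact_mod_cast hpp.pos
  by_cases h4 : (∏ q ∈ U.erase p, q) ∣ l
  · rw [if_pos (h2.2 h4), if_pos h4]
    have h5 : (1:ℝ) / ((Nat.lcm l p : ℕ) : ℝ) = ((Nat.gcd l p : ℕ) : ℝ) / (l * p) := by
      rw [div_eq_div_iff hlcm.ne' (by positivity), one_mul, ← h3]
      ring
    calc lamS w R q1 * lamS w R q2 * (G / ((Nat.lcm l p : ℕ) : ℝ)) =
          lamS w R q1 * lamS w R q2 * G * (1 / ((Nat.lcm l p : ℕ) : ℝ)) := by ring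
      _ = _ := by
          rw [h5]
          field_simp
  · rw [if_neg (fun h => h4 (h2.1 h)), if_neg h4]
    ring

/-- the multi-fold sum over the `n` with `p ∣ n + e j0` -/
theorem rough_fold : ∃ C : ℝ, 0 < C ∧ ∀ (ι : Type) [Fintype ι] [DecidableEq ι] (Rj e : ι → ℕ)
    (j0 : ι) (w N a p : ℕ), 2 ≤ w → (∀ j, 1 ≤ Rj j) → (∀ j, Rj j ≤ Rj j0) → Function.Injective e →
    p ∈ PwR w (Rj j0) →
    ∑ n ∈ (XS N w a).filter (fun n => p ∣ n + e j0), ∏ j, (SG w (Rj j) * LamS w (Rj j) (n + e j) ^ 2)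
      ≤ ((N:ℝ) / Wp w) * (C * (cW (Wp w) * Real.log p + KV (Wp w)) / ((p:ℝ) * SG w (Rj j0))) *
        ∏ q ∈ PwR w (Rj j0), (1 + sE (gg e q) (fun j => if q = p ∧ j = j0 then 1 else 5 / ((q:ℝ) - 1)))
        + ∏ j, (SG w (Rj j) * (Rj j : ℝ) ^ 2) := by
  classical
  obtain ⟨C, hC, hT⟩ := TP_bound
  refine ⟨C, hC, fun ι _ _ Rj e j0 w N a p hw hR1 hRR hinj hp => ?_⟩
  set R := Rj j0 with hRd
  have hpp : p.Prime := (mem_PwR.1 hp).2.1
  have hG0 := SG_pos w R (hR1 j0)
  have hW := SelDAux.Wp_pos w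
  have hWR : (0:ℝ) < Wp w := by exact_mod_cast hW
  have hp0 : (0:ℝ) < (p:ℝ) := by exact_mod_cast hpp.pos
  set PR := PwR w R with hPRd
  have hPR : ∀ p ∈ PR, p.Prime := fun p hp => (mem_PwR.1 hp).2.1
  set S := (∏ p ∈ PR, p).divisors with hS
  let L : ι → ℕ → ℝ := fun j Q => if j = j0 then SG w R * Lp w R p Q else SG w (Rj j) * Lc w (Rj j) Q
  let F : ι → ℕ → ℝ := fun j m => if j = j0 then (if p ∣ m then SG w R * LamS w R m ^ 2 else 0)
    else SG w (Rj j) * LamS w (Rj j) m ^ 2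
  have hLF : ∀ j m, F j m = ∑ Q ∈ S, L j Q * (if Q ∣ m then 1 else 0) := by
    intro j m
    by_cases hj : j = j0
    · have e1 : F j m = SG w R * (if p ∣ m then LamS w R m ^ 2 else 0) := by
        change (if j = j0 then _ else _) = _
        rw [if_pos hj]
        split_ifs
        · rfl
        · ring
      rw [e1, LamS_sq_p hp, mul_sum]
      apply sum_congr rfl
      intro Q _
      change _ = (if j = j0 then SG w R * Lp w R p Q else _) * _
      rw [if_pos hj, mul_assoc]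
    · have e1 : F j m = SG w (Rj j) * LamS w (Rj j) m ^ 2 := by
        change (if j = j0 then _ else _) = _
        rw [if_neg hj]
      rw [e1, LamS_sq_eq (hRR j), mul_sum]
      apply sum_congr rfl
      intro Q _
      change _ = (if j = j0 then _ else SG w (Rj j) * Lc w (Rj j) Q) * _
      rw [if_neg hj, mul_assoc]
  have hE : ∀ j, ∑ Q ∈ S, |L j Q| ≤ SG w (Rj j) * (Rj j : ℝ) ^ 2 := by
    intro j
    by_cases hj : j = j0
    · have h1 : ∀ Q ∈ S, |L j Q| = SG w R * |Lp w R p Q| := by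
        intro Q _
        change |if j = j0 then SG w R * Lp w R p Q else _| = _
        rw [if_pos hj, abs_mul, abs_of_pos hG0]
      rw [sum_congr rfl h1, ← mul_sum, hj]
      exact mul_le_mul_of_nonneg_left (sum_abs_Lp hp (hR1 j0)) hG0.le
    · have hG := SG_pos w (Rj j) (hR1 j)
      have h1 : ∀ Q ∈ S, |L j Q| = SG w (Rj j) * |Lc w (Rj j) Q| := by
        intro Q _
        change |if j = j0 then _ else SG w (Rj j) * Lc w (Rj j) Q| = _
        rw [if_neg hj, abs_mul, abs_of_pos hG]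
      rw [sum_congr rfl h1, ← mul_sum]
      exact mul_le_mul_of_nonneg_left (sum_abs_Lc (hRR j) (hR1 j)) hG.le
  have hsum : ∑ n ∈ (XS N w a).filter (fun n => p ∣ n + e j0),
      ∏ j, (SG w (Rj j) * LamS w (Rj j) (n + e j) ^ 2) = ∑ n ∈ XS N w a, ∏ j, F j (n + e j) := by
    rw [sum_filter]
    apply sum_congr rfl
    intro n _
    by_cases hd : p ∣ n + e j0
    · rw [if_pos hd]
      apply prod_congr rfl
      intro j _
      change _ = if j = j0 then (if p ∣ n + e j then _ else _) else _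
      by_cases hj : j = j0
      · rw [if_pos hj, hj, if_pos hd]
      · rw [if_neg hj]
    · rw [if_neg hd]
      symm
      apply prod_eq_zero (mem_univ j0)
      change (if j0 = j0 then (if p ∣ n + e j0 then _ else _) else _) = (0:ℝ)
      rw [if_pos rfl, if_neg hd]
  have h1 := fold_general hPR N w a coprime_Wp e L F hLF (fun j => SG w (Rj j) * (Rj j : ℝ) ^ 2) hE
  set B0 : ℝ := (C * (cW (Wp w) * Real.log p + KV (Wp w))) / ((p:ℝ) * SG w R) with hB0
  let b : ι → ℕ → ℝ := fun j q => if q = p ∧ j = j0 then 1 else 5 / |(q:ℝ) - 1|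
  let B : ι → ℝ := fun j => if j = j0 then B0 else 1
  have hTU : ∀ j, ∀ U ⊆ PR, |TU S (fun Q => L j Q / (Q:ℝ)) U| ≤ B j * ∏ q ∈ U, b j q := by
    intro j U hU
    by_cases hj : j = j0
    · have h3 : TU S (fun Q => L j Q / (Q:ℝ)) U =
          (1 / (p:ℝ)) * (SG w R * TP w R p (∏ q ∈ U.erase p, q)) := by
        rw [← TU_Lp hp hU (SG w R)]
        unfold TU
        apply sum_congr rfl
        intro Q _
        change (if j = j0 then SG w R * Lp w R p Q else _) / (Q:ℝ) = _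
        rw [if_pos hj]
        ring
      have hUe : ∀ q ∈ U.erase p, q.Prime := fun q hq => hPR q (hU (mem_of_mem_erase hq))
      have hdv : (∏ q ∈ U.erase p, q) * p ∣ ∏ q ∈ PwR w R, q := by
        have h4 : (∏ q ∈ U.erase p, q) * p = ∏ q ∈ insert p (U.erase p), q := by
          rw [prod_insert (notMem_erase p U), mul_comm]
        rw [h4]
        apply prod_dvd_prod_of_subset
        intro q hq
        rcases mem_insert.1 hq with rfl | hq
        · exact hp
        · exact hU (mem_of_mem_erase hq)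
      have h4 := hT w R p (∏ q ∈ U.erase p, q) (hR1 j0) hpp hdv
      rw [Nat.primeFactors_prod hUe] at h4
      have h5 : ∏ q ∈ U, b j q = ∏ q ∈ U.erase p, (5 / ((q:ℝ) - 1)) := by
        have h6 : ∏ q ∈ U, b j q = ∏ q ∈ U.erase p, b j q := by
          symm
          apply prod_subset (erase_subset p U)
          intro q hq hq'
          have hqp : q = p := by
            by_contra hne
            exact hq' (mem_erase.2 ⟨hne, hq⟩)
          change (if q = p ∧ j = j0 then (1:ℝ) else _) = 1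
          rw [if_pos ⟨hqp, hj⟩]
        rw [h6]
        apply prod_congr rfl
        intro q hq
        have hq2 : (2:ℝ) ≤ q := by exact_mod_cast (hUe q hq).two_le
        change (if q = p ∧ j = j0 then (1:ℝ) else 5 / |(q:ℝ) - 1|) = _
        rw [if_neg (fun h => (mem_erase.1 hq).1 h.1), abs_of_pos (by linarith)]
      have h6 : B j = B0 := by
        change (if j = j0 then B0 else 1) = _
        rw [if_pos hj]
      rw [h3, h5, h6, abs_mul, abs_of_pos (by positivity : (0:ℝ) < 1 / (p:ℝ))]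
      calc 1 / (p:ℝ) * |SG w R * TP w R p (∏ q ∈ U.erase p, q)| ≤
            1 / (p:ℝ) * ((C * (cW (Wp w) * Real.log p + KV (Wp w))) / SG w R *
              ∏ q ∈ U.erase p, (5 / ((q:ℝ) - 1))) := mul_le_mul_of_nonneg_left h4 (by positivity)
        _ = _ := by
            rw [hB0]
            field_simp
    · have h3 : TU S (fun Q => L j Q / (Q:ℝ)) U = SG w (Rj j) * SelCAux.TT w (Rj j) (∏ p ∈ U, p) := by
        rw [← TU_Lc (hRR j) (fun p hp => hPR p (hU hp)) (SG w (Rj j))]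
        unfold TU
        apply sum_congr rfl
        intro Q _
        change (if j = j0 then _ else SG w (Rj j) * Lc w (Rj j) Q) / (Q:ℝ) = _
        rw [if_neg hj]
        ring
      have h6 : B j = 1 := by
        change (if j = j0 then B0 else 1) = _
        rw [if_neg hj]
      rw [h3, h6, one_mul]
      refine (TT_abs_le (hR1 j) hU).trans (le_of_eq ?_)
      apply prod_congr rfl
      intro q hq
      have hq2 : (2:ℝ) ≤ q := by exact_mod_cast (hPR q (hU hq)).two_le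
      change _ = if q = p ∧ j = j0 then (1:ℝ) else 5 / |(q:ℝ) - 1|
      rw [if_neg (fun h => hj h.2), abs_of_pos (by linarith)]
  have hb : ∀ j q, 0 ≤ b j q := by
    intro j q
    change 0 ≤ if q = p ∧ j = j0 then (1:ℝ) else 5 / |(q:ℝ) - 1|
    split_ifs
    · exact zero_le_one
    · positivity
  have h2 := multi S (gg e) b hb PR (fun p _ => gg_empty e p) (fun p hp i => gg_single e p (hPR p hp).pos i)
    (fun j Q => L j Q / (Q:ℝ)) B hTU
  have hBp : ∏ j, B j = B0 := by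
    change ∏ j, (if j = j0 then B0 else 1) = B0
    rw [prod_ite_eq' univ j0 (fun _ => B0), if_pos (mem_univ j0)]
  have h3 : ∏ j, TU S (fun Q => L j Q / (Q:ℝ)) ∅ ≤ B0 := by
    rw [← hBp]
    refine (le_abs_self _).trans ?_
    rw [abs_prod]
    apply prod_le_prod
    · intro j _
      exact abs_nonneg _
    · intro j _
      have := hTU j ∅ (empty_subset _)
      rwa [prod_empty, mul_one] at this
  have h4 : ∏ q ∈ PR, (1 + sE (gg e q) (fun j => b j q)) =
      ∏ q ∈ PR, (1 + sE (gg e q) (fun j => if q = p ∧ j = j0 then 1 else 5 / ((q:ℝ) - 1))) := by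
    apply prod_congr rfl
    intro q hq
    have hq2 : (2:ℝ) ≤ q := by exact_mod_cast (hPR q hq).two_le
    congr 2
    funext j
    change (if q = p ∧ j = j0 then (1:ℝ) else 5 / |(q:ℝ) - 1|) = _
    rw [abs_of_pos (by linarith)]
  rw [hBp, h4] at h2
  set MM := ∑ Q ∈ Fintype.piFinset (fun _ : ι => S), (∏ j, (L j (Q j) / (Q j : ℝ))) *
        ∏ p ∈ PR, gg e p (Jp Q p) with hMM
  set Pi := ∏ q ∈ PR, (1 + sE (gg e q) (fun j => if q = p ∧ j = j0 then 1 else 5 / ((q:ℝ) - 1))) with hPi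
  have h5 : MM ≤ B0 * Pi := by
    have h6 := (abs_le.1 h2).2
    linarith
  have hNW : (0:ℝ) ≤ (N:ℝ) / Wp w := by positivity
  rw [hsum]
  have h7 := (abs_le.1 h1).2
  have h8 := mul_le_mul_of_nonneg_left h5 hNW
  calc _ ≤ (N:ℝ) / Wp w * MM + ∏ j, (SG w (Rj j) * (Rj j : ℝ) ^ 2) := by linarith
    _ ≤ (N:ℝ) / Wp w * (B0 * Pi) + ∏ j, (SG w (Rj j) * (Rj j : ℝ) ^ 2) := by linarith
    _ = _ := by rw [← mul_assoc]

end H34P
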