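import Mathlib
import Pool.Agent.H34P.PSas2
import Pool.Agent.H34P.PSr

/-!
The weighted second moment of the majorant.
-/

set_option autoImplicit false

namespace H34P

open Finset Filter Pool.Agent.HLT Pool.Agent.HL26 Pool.Agent.Maynard

/-- abstract second moment -/
lemma second_moment (X S : Finset ℕ) (μ : ℕ → ℝ) (ν : ℕ → ℕ → ℝ) (t κ D : ℝ) (ht : 0 ≤ t)
    (hκ1 : κ ≤ 1) (hμ : ∀ n, 0 ≤ μ n) (hν : ∀ n d, 0 ≤ ν n d) (hD : 0 ≤ D)
    (h3 : ∀ n ∈ X, ∀ d ∈ S, ν n d ≤ D)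
    (h0 : ∑ n ∈ X, μ n ≤ t * (1 + κ))
    (h1 : ∀ d ∈ S, t * (1 - κ) ≤ ∑ n ∈ X, μ n * ν n d)
    (h1' : ∀ d ∈ S, ∑ n ∈ X, μ n * ν n d ≤ t * (1 + κ))
    (h2 : ∀ d ∈ S, ∀ d' ∈ S, d ≠ d' → ∑ n ∈ X, μ n * (ν n d * ν n d') ≤ t * (1 + κ)) :
    ∑ n ∈ X, μ n * (∑ d ∈ S, ν n d - S.card) ^ 2 ≤
      t * (4 * κ * (S.card : ℝ) ^ 2 + 2 * D * S.card) := by
  have e1 : ∑ n ∈ X, μ n * (∑ d ∈ S, ν n d - S.card) ^ 2 =
      ∑ d ∈ S, ∑ d' ∈ S, ∑ n ∈ X, μ n * (ν n d * ν n d')
        - 2 * S.card * ∑ d ∈ S, ∑ n ∈ X, μ n * ν n d + (S.card : ℝ) ^ 2 * ∑ n ∈ X, μ n := by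
    have e2 : ∑ d ∈ S, ∑ d' ∈ S, ∑ n ∈ X, μ n * (ν n d * ν n d') =
        ∑ n ∈ X, μ n * (∑ d ∈ S, ν n d) ^ 2 := by
      have e3 : ∀ d ∈ S, ∑ d' ∈ S, ∑ n ∈ X, μ n * (ν n d * ν n d') =
          ∑ n ∈ X, ∑ d' ∈ S, μ n * (ν n d * ν n d') := fun d _ => sum_comm
      rw [sum_congr rfl e3, sum_comm]
      refine sum_congr rfl fun n _ => ?_
      rw [sq, sum_mul_sum, mul_sum]
      refine sum_congr rfl fun d _ => ?_
      rw [mul_sum]
    have e4 : ∑ d ∈ S, ∑ n ∈ X, μ n * ν n d = ∑ n ∈ X, μ n * ∑ d ∈ S, ν n d := by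
      rw [sum_comm]
      refine sum_congr rfl fun n _ => ?_
      rw [mul_sum]
    rw [e2, e4, mul_sum, mul_sum, ← sum_sub_distrib, ← sum_add_distrib]
    refine sum_congr rfl fun n _ => ?_
    ring
  rw [e1]
  have h5 : ∀ d ∈ S, ∑ d' ∈ S, ∑ n ∈ X, μ n * (ν n d * ν n d') ≤
      ∑ d' ∈ S, (t * (1 + κ) + if d' = d then D * (t * (1 + κ)) else 0) := by
    intro d hd
    refine sum_le_sum fun d' hd' => ?_
    have ht1 : 0 ≤ t * (1 + κ) := le_trans (sum_nonneg fun n _ => hμ n) h0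
    split_ifs with h
    · subst h
      have h6 : ∑ n ∈ X, μ n * (ν n d' * ν n d') ≤ D * ∑ n ∈ X, μ n * ν n d' := by
        rw [mul_sum]
        refine sum_le_sum fun n hn => ?_
        have h7 := mul_le_mul_of_nonneg_right (h3 n hn d' hd') (mul_nonneg (hμ n) (hν n d'))
        calc μ n * (ν n d' * ν n d') = ν n d' * (μ n * ν n d') := by ring
          _ ≤ D * (μ n * ν n d') := h7
      have h8 := mul_le_mul_of_nonneg_left (h1' d' hd') hD
      linarith
    · rw [add_zero]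
      exact h2 d hd d' hd' (fun hh => h hh.symm)
  have h6 := sum_le_sum h5
  have h7 : ∑ d ∈ S, ∑ d' ∈ S, (t * (1 + κ) + if d' = d then D * (t * (1 + κ)) else 0) =
      (S.card : ℝ) ^ 2 * (t * (1 + κ)) + S.card * (D * (t * (1 + κ))) := by
    have h8 : ∀ d ∈ S, ∑ d' ∈ S, (t * (1 + κ) + if d' = d then D * (t * (1 + κ)) else 0) =
        S.card * (t * (1 + κ)) + D * (t * (1 + κ)) := by
      intro d hd
      rw [sum_add_distrib, sum_const, nsmul_eq_mul, sum_ite_eq' S d, if_pos hd]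
    rw [sum_congr rfl h8, sum_const, nsmul_eq_mul]
    ring
  rw [h7] at h6
  have h9 : (S.card : ℝ) * (t * (1 - κ)) ≤ ∑ d ∈ S, ∑ n ∈ X, μ n * ν n d := by
    rw [← nsmul_eq_mul, ← sum_const]
    exact sum_le_sum h1
  have hS : (0:ℝ) ≤ S.card := Nat.cast_nonneg _
  have h10 := mul_le_mul_of_nonneg_left h9 (by positivity : (0:ℝ) ≤ 2 * S.card)
  have h11 := mul_le_mul_of_nonneg_left h0 (by positivity : (0:ℝ) ≤ (S.card : ℝ) ^ 2)
  have h12 : (S.card : ℝ) * (D * (t * (1 + κ))) ≤ 2 * D * S.card * t := by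
    have : 0 ≤ S.card * D * t * (1 - κ) := by
      have : 0 ≤ 1 - κ := by linarith
      positivity
    linarith
  linarith

/-- the majorant of the primes at the points of `E` -/
noncomputable def mu (w R0 : ℕ) (E : Finset ℕ) (n : ℕ) : ℝ :=
  ∏ e ∈ E, (SG w R0 * LamS w R0 (n + e) ^ 2)

lemma mu_nonneg {w R0 : ℕ} (hR : 1 ≤ R0) (E : Finset ℕ) (n : ℕ) : 0 ≤ mu w R0 E n :=
  prod_nonneg fun _ _ => mul_nonneg (SG_pos w R0 hR).le (sq_nonneg _)

/-- the local factors are under control -/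
structure LocOK (r w H : ℕ) (κ C : ℝ) : Prop where
  main : ∀ (ι : Type) [Fintype ι] [DecidableEq ι] (e : ι → ℕ) (R : ℕ), Fintype.card ι ≤ r →
    Function.Injective e → (∀ j, e j ≤ H) →
    ∏ q ∈ PwR w R, (1 + sE (gg e q) (fun _ => 5 / ((q:ℝ) - 1))) ≤ 1 + κ
  one : ∀ (ι : Type) [Fintype ι] [DecidableEq ι] (e : ι → ℕ) (j0 : ι) (R p : ℕ),
    Fintype.card ι ≤ r → Function.Injective e → (∀ j, e j ≤ H) →
    ∏ q ∈ PwR w R, (1 + sE (gg e q) (fun j => if q = p ∧ j = j0 then 1 else 5 / ((q:ℝ) - 1))) ≤ C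

lemma ev_locOK (r : ℕ) : ∃ C : ℝ, 0 < C ∧ ∀ (κ : ℝ), 0 < κ → ∀ A : ℕ,
    ∀ᶠ N : ℕ in atTop, ∀ H : ℕ, 1 ≤ H → (H:ℝ) ≤ (Real.log N) ^ A → LocOK r (wN N) H κ C := by
  obtain ⟨C1, hC1, h1⟩ := local_le r
  obtain ⟨C2, hC2, h2⟩ := local_le' r
  refine ⟨2 * C2, by positivity, fun κ hκ A => ?_⟩
  filter_upwards [ev_local A C1 κ hC1 hκ, ev_local A C2 1 hC2 one_pos, ev_w_ge 20] with N h3 h4 h5 H hH hHA
  refine ⟨?_, ?_⟩
  · intro ι _ _ e R hr he heH
    exact (h1 ι e (wN N) R H hr h5 he heH hH).trans (h3 H hH hHA)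
  · intro ι _ _ e j0 R p hr he heH
    refine (h2 ι e j0 (wN N) R H p hr h5 he heH hH).trans ?_
    have := mul_le_mul_of_nonneg_left (h4 H hH hHA) hC2.le
    linarith

section det

variable {k w R0 R z N a H u : ℕ} {κ C : ℝ}

lemma mu_eq (E : Finset ℕ) (n : ℕ) :
    mu w R0 E n = ∏ x : E, (SG w R0 * LamS w R0 (n + (x:ℕ)) ^ 2) := by
  unfold mu
  rw [← prod_coe_sort E (fun e => SG w R0 * LamS w R0 (n + e) ^ 2)]

/-- mean of the weight -/
lemma mu_mean (hloc : LocOK (k + 2) w H κ C) (hR0 : 1 ≤ R0) (E : Finset ℕ) (hE : E.card ≤ k + 2)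
    (hEH : ∀ e ∈ E, e ≤ H) :
    ∑ n ∈ XS N w a, mu w R0 E n ≤
      (N:ℝ) / Wp w * (1 + κ) + (SG w R0 * (R0:ℝ) ^ 2) ^ E.card := by
  have h1 := fold (fun _ : E => R0) (fun x : E => (x:ℕ)) w R0 N a (fun _ => hR0) (fun _ => le_rfl)
  have h2 := hloc.main E (fun x : E => (x:ℕ)) R0 (by rw [Fintype.card_coe]; exact hE)
    Subtype.val_injective (fun x => hEH x x.2)
  have h3 := (abs_le.1 h1).2
  have h4 : (0:ℝ) ≤ (N:ℝ) / Wp w := by positivity
  have h5 := mul_le_mul_of_nonneg_left h2 h4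
  rw [prod_const, card_univ, Fintype.card_coe] at h3
  rw [sum_congr rfl fun n _ => mu_eq (w := w) (R0 := R0) E n]
  linarith

/-- mean with one further factor -/
lemma mu_nu_abs (hloc : LocOK (k + 2) w H κ C) (hR0 : 1 ≤ R0) (hR0R : R0 ≤ R) (E : Finset ℕ)
    (hE : E.card ≤ k) (hEH : ∀ e ∈ E, e ≤ H) (d : ℕ) (hd : d ∉ E) (hdH : d ≤ H) :
    |∑ n ∈ XS N w a, mu w R0 E n * (SG w R * LamS w R (n + d) ^ 2) - (N:ℝ) / Wp w| ≤
      (N:ℝ) / Wp w * κ + (SG w R * (R:ℝ) ^ 2) * (SG w R0 * (R0:ℝ) ^ 2) ^ E.card := by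
  have hR : 1 ≤ R := hR0.trans hR0R
  set e : Option E → ℕ := fun j => j.elim d (fun x => (x:ℕ)) with he
  set Rj : Option E → ℕ := fun j => j.elim R (fun _ => R0) with hRj
  have hinj : Function.Injective e := by
    intro x y hxy
    cases x with
    | none =>
      cases y with
      | none => rfl
      | some y => exact absurd (show (y:ℕ) ∈ E from y.2) (by
          have : d = (y:ℕ) := hxy
          rwa [← this])
    | some x =>
      cases y with
      | none => exact absurd (show (x:ℕ) ∈ E from x.2) (by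
          have : (x:ℕ) = d := hxy
          rwa [this])
      | some y => exact congrArg some (Subtype.ext hxy)
  have heH : ∀ j, e j ≤ H := by
    intro j
    cases j with
    | none => exact hdH
    | some x => exact hEH x x.2
  have h1 := fold Rj e w R N a (by
    intro j
    cases j with
    | none => exact hR
    | some x => exact hR0) (by
    intro j
    cases j with
    | none => exact le_rfl
    | some x => exact hR0R)
  have h2 := hloc.main (Option E) e R (by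
    rw [Fintype.card_option, Fintype.card_coe]
    omega) hinj heH
  have h4 : (0:ℝ) ≤ (N:ℝ) / Wp w := by positivity
  have h5 := mul_le_mul_of_nonneg_left h2 h4
  have h6 : ∀ n ∈ XS N w a, mu w R0 E n * (SG w R * LamS w R (n + d) ^ 2) =
      ∏ j, (SG w (Rj j) * LamS w (Rj j) (n + e j) ^ 2) := by
    intro n _
    rw [Fintype.prod_option, mu_eq, mul_comm]
    rfl
  have h7 : ∏ j, (SG w (Rj j) * (Rj j : ℝ) ^ 2) =
      (SG w R * (R:ℝ) ^ 2) * (SG w R0 * (R0:ℝ) ^ 2) ^ E.card := by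
    rw [Fintype.prod_option]
    have : ∏ i : E, (SG w (Rj (some i)) * ((Rj (some i) : ℕ) : ℝ) ^ 2) =
        ∏ i : E, (SG w R0 * (R0:ℝ) ^ 2) := rfl
    rw [this, prod_const, card_univ, Fintype.card_coe]
    rfl
  rw [sum_congr rfl h6]
  rw [h7] at h1
  refine h1.trans ?_
  linarith

/-- mean with two further factors -/
lemma mu_nu_nu (hloc : LocOK (k + 2) w H κ C) (hR0 : 1 ≤ R0) (hR0R : R0 ≤ R) (E : Finset ℕ)
    (hE : E.card ≤ k) (hEH : ∀ e ∈ E, e ≤ H) (d d' : ℕ) (hd : d ∉ E) (hdH : d ≤ H) (hd' : d' ∉ E)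
    (hdH' : d' ≤ H) (hdd : d ≠ d') :
    ∑ n ∈ XS N w a, mu w R0 E n * ((SG w R * LamS w R (n + d) ^ 2) * (SG w R * LamS w R (n + d') ^ 2))
      ≤ (N:ℝ) / Wp w * (1 + κ) + (SG w R * (R:ℝ) ^ 2) ^ 2 * (SG w R0 * (R0:ℝ) ^ 2) ^ E.card := by
  have hR : 1 ≤ R := hR0.trans hR0R
  set e : Option (Option E) → ℕ := fun j => j.elim d (fun i => i.elim d' (fun x => (x:ℕ))) with he
  set Rj : Option (Option E) → ℕ := fun j => j.elim R (fun i => i.elim R (fun _ => R0)) with hRj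
  have hnE : ∀ (y : E) (b : ℕ), b ∉ E → (y:ℕ) ≠ b := fun y b hb hh => hb (hh ▸ y.2)
  have hinj : Function.Injective e := by
    intro x y hxy
    cases x with
    | none =>
      cases y with
      | none => rfl
      | some y =>
        cases y with
        | none => exact absurd hxy hdd
        | some y => exact absurd hxy.symm (hnE y d hd)
    | some x =>
      cases x with
      | none =>
        cases y with
        | none => exact absurd hxy.symm hdd
        | some y =>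
          cases y with
          | none => rfl
          | some y => exact absurd hxy.symm (hnE y d' hd')
      | some x =>
        cases y with
        | none => exact absurd hxy (hnE x d hd)
        | some y =>
          cases y with
          | none => exact absurd hxy (hnE x d' hd')
          | some y => exact congrArg some (congrArg some (Subtype.ext hxy))
  have heH : ∀ j, e j ≤ H := by
    intro j
    cases j with
    | none => exact hdH
    | some x =>
      cases x with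
      | none => exact hdH'
      | some x => exact hEH x x.2
  have h1 := fold Rj e w R N a (by
    intro j
    cases j with
    | none => exact hR
    | some x =>
      cases x with
      | none => exact hR
      | some x => exact hR0) (by
    intro j
    cases j with
    | none => exact le_rfl
    | some x =>
      cases x with
      | none => exact le_rfl
      | some x => exact hR0R)
  have h2 := hloc.main (Option (Option E)) e R (by
    rw [Fintype.card_option, Fintype.card_option, Fintype.card_coe]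
    omega) hinj heH
  have h4 : (0:ℝ) ≤ (N:ℝ) / Wp w := by positivity
  have h5 := mul_le_mul_of_nonneg_left h2 h4
  have h6 : ∀ n ∈ XS N w a, mu w R0 E n *
      ((SG w R * LamS w R (n + d) ^ 2) * (SG w R * LamS w R (n + d') ^ 2)) =
      ∏ j, (SG w (Rj j) * LamS w (Rj j) (n + e j) ^ 2) := by
    intro n _
    rw [Fintype.prod_option, Fintype.prod_option, mu_eq, mul_comm, mul_assoc]
    rfl
  have h7 : ∏ j, (SG w (Rj j) * (Rj j : ℝ) ^ 2) =
      (SG w R * (R:ℝ) ^ 2) ^ 2 * (SG w R0 * (R0:ℝ) ^ 2) ^ E.card := by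
    rw [Fintype.prod_option, Fintype.prod_option]
    have : ∏ i : E, (SG w (Rj (some (some i))) * ((Rj (some (some i)) : ℕ) : ℝ) ^ 2) =
        ∏ i : E, (SG w R0 * (R0:ℝ) ^ 2) := rfl
    rw [this, prod_const, card_univ, Fintype.card_coe]
    show (SG w R * (R:ℝ) ^ 2) * ((SG w R * (R:ℝ) ^ 2) * (SG w R0 * (R0:ℝ) ^ 2) ^ E.card) = _
    ring
  rw [sum_congr rfl h6]
  have h3 := (abs_le.1 h1).2
  rw [h7] at h3
  linarith

/-- the loss at one prime -/
lemma mu_rough {Cr : ℝ} (hCr : ∀ (ι : Type) [Fintype ι] [DecidableEq ι] (Rj e : ι → ℕ)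
    (j0 : ι) (w N a p : ℕ), 2 ≤ w → (∀ j, 1 ≤ Rj j) → (∀ j, Rj j ≤ Rj j0) → Function.Injective e →
    p ∈ PwR w (Rj j0) →
    ∑ n ∈ (XS N w a).filter (fun n => p ∣ n + e j0), ∏ j, (SG w (Rj j) * LamS w (Rj j) (n + e j) ^ 2)
      ≤ ((N:ℝ) / Wp w) * (Cr * (cW (Wp w) * Real.log p + KV (Wp w)) / ((p:ℝ) * SG w (Rj j0))) *
        ∏ q ∈ PwR w (Rj j0), (1 + sE (gg e q) (fun j => if q = p ∧ j = j0 then 1 else 5 / ((q:ℝ) - 1)))
        + ∏ j, (SG w (Rj j) * (Rj j : ℝ) ^ 2)) (hCr0 : 0 < Cr)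
    (hloc : LocOK (k + 2) w H κ C) (hw : 2 ≤ w) (hR0 : 1 ≤ R0) (hR0R : R0 ≤ R) (E : Finset ℕ)
    (hE : E.card ≤ k) (hEH : ∀ e ∈ E, e ≤ H) (d : ℕ) (hd : d ∉ E) (hdH : d ≤ H) (p : ℕ)
    (hp : p ∈ PwR w R) :
    ∑ n ∈ (XS N w a).filter (fun n => p ∣ n + d),
        mu w R0 E n * (SG w R * LamS w R (n + d) ^ 2) ≤
      (N:ℝ) / Wp w * (Cr * C / SG w R * ((cW (Wp w) * Real.log p + KV (Wp w)) / p)) +
        (SG w R * (R:ℝ) ^ 2) * (SG w R0 * (R0:ℝ) ^ 2) ^ E.card := by
  have hR : 1 ≤ R := hR0.trans hR0R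
  set e : Option E → ℕ := fun j => j.elim d (fun x => (x:ℕ)) with he
  set Rj : Option E → ℕ := fun j => j.elim R (fun _ => R0) with hRj
  have hinj : Function.Injective e := by
    intro x y hxy
    cases x with
    | none =>
      cases y with
      | none => rfl
      | some y => exact absurd (show (y:ℕ) ∈ E from y.2) (by
          have : d = (y:ℕ) := hxy
          rwa [← this])
    | some x =>
      cases y with
      | none => exact absurd (show (x:ℕ) ∈ E from x.2) (by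
          have : (x:ℕ) = d := hxy
          rwa [this])
      | some y => exact congrArg some (Subtype.ext hxy)
  have heH : ∀ j, e j ≤ H := by
    intro j
    cases j with
    | none => exact hdH
    | some x => exact hEH x x.2
  have h1 := hCr (Option E) Rj e none w N a p hw (by
    intro j
    cases j with
    | none => exact hR
    | some x => exact hR0) (by
    intro j
    cases j with
    | none => exact le_rfl
    | some x => exact hR0R) hinj hp
  have h2 := hloc.one (Option E) e none R p (by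
    rw [Fintype.card_option, Fintype.card_coe]
    omega) hinj heH
  have hp2 := (mem_PwR.1 hp).2.1
  have hp0 : (0:ℝ) < p := by exact_mod_cast hp2.pos
  have hlp : 0 ≤ Real.log p := Real.log_natCast_nonneg p
  have hG := SG_pos w R hR
  have hcW : 0 ≤ cW (Wp w) := cW_nonneg _
  have hKV : 0 < KV (Wp w) := KV_pos (SelDAux.Wp_pos w)
  have h4 : (0:ℝ) ≤ (N:ℝ) / Wp w * (Cr * (cW (Wp w) * Real.log p + KV (Wp w)) / ((p:ℝ) * SG w R)) := by
    positivity
  have h5 := mul_le_mul_of_nonneg_left h2 h4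
  have h6 : ∀ n ∈ (XS N w a).filter (fun n => p ∣ n + d),
      mu w R0 E n * (SG w R * LamS w R (n + d) ^ 2) =
      ∏ j, (SG w (Rj j) * LamS w (Rj j) (n + e j) ^ 2) := by
    intro n _
    rw [Fintype.prod_option, mu_eq, mul_comm]
    rfl
  have h7 : ∏ j, (SG w (Rj j) * (Rj j : ℝ) ^ 2) =
      (SG w R * (R:ℝ) ^ 2) * (SG w R0 * (R0:ℝ) ^ 2) ^ E.card := by
    rw [Fintype.prod_option]
    have : ∏ i : E, (SG w (Rj (some i)) * ((Rj (some i) : ℕ) : ℝ) ^ 2) =
        ∏ i : E, (SG w R0 * (R0:ℝ) ^ 2) := rfl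
    rw [this, prod_const, card_univ, Fintype.card_coe]
    rfl
  rw [sum_congr rfl h6]
  rw [h7] at h1
  refine h1.trans ?_
  refine add_le_add (h5.trans (le_of_eq ?_)) le_rfl
  field_simp

/-- the number of prime factors above `w` of integers without prime factors in `(w, z]` -/
lemma omega_le' {m : ℕ} (hu : 1 ≤ u) (hN : 2 ≤ N) (hz : (N:ℝ) ^ (1 / (u:ℝ)) ≤ (z:ℝ) + 1)
    (hm0 : m ≠ 0) (hmN : m ≤ N ^ 2) (hm : ¬ ∃ p ∈ PwR w z, p ∣ m) :
    (m.primeFactors.filter (fun p => w < p)).card ≤ 2 * u := by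
  have h1 : ((z + 1 : ℕ) : ℝ) ^ (m.primeFactors.filter (fun p => w < p)).card ≤ (N:ℝ) ^ 2 := by
    have h2 : (z + 1) ^ (m.primeFactors.filter (fun p => w < p)).card ≤
        ∏ p ∈ m.primeFactors.filter (fun p => w < p), p := by
      refine Finset.pow_card_le_prod _ _ _ fun p hp => ?_
      rw [mem_filter] at hp
      by_contra hlt
      exact hm ⟨p, mem_PwR.2 ⟨by omega, Nat.prime_of_mem_primeFactors hp.1, hp.2⟩,
        Nat.dvd_of_mem_primeFactors hp.1⟩
    have h3 : ∏ p ∈ m.primeFactors.filter (fun p => w < p), p ≤ m := by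
      refine Nat.le_of_dvd (Nat.pos_of_ne_zero hm0) ?_
      exact (prod_dvd_prod_of_subset _ _ _ (filter_subset _ _)).trans (Nat.prod_primeFactors_dvd m)
    exact_mod_cast (h2.trans h3).trans hmN
  have hN1 : (1:ℝ) < N := by exact_mod_cast (by omega : 1 < N)
  have hN0 : (0:ℝ) < N := by linarith
  have hu0 : (0:ℝ) < u := by exact_mod_cast (by omega : 0 < u)
  set c := (m.primeFactors.filter (fun p => w < p)).card with hc
  have h4 : (N:ℝ) ^ ((c : ℝ) / u) ≤ (N:ℝ) ^ (2:ℝ) := by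
    have h5 : (N:ℝ) ^ ((c : ℝ) / u) = ((N:ℝ) ^ (1 / (u:ℝ))) ^ c := by
      rw [← Real.rpow_natCast, ← Real.rpow_mul hN0.le]
      congr 1
      ring
    rw [h5]
    refine (pow_le_pow_left₀ (by positivity) hz _).trans ?_
    rw [show ((2:ℝ)) = ((2:ℕ):ℝ) by norm_num, Real.rpow_natCast]
    push_cast at h1
    exact h1
  have h5 := (Real.rpow_le_rpow_left_iff hN1).mp h4
  rw [div_le_iff₀ hu0] at h5
  exact_mod_cast h5

lemma LamS_abs_le' {m : ℕ} (hR : 1 ≤ R) (hm : m ≠ 0) :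
    |LamS w R m| ≤ (2:ℝ) ^ (m.primeFactors.filter (fun p => w < p)).card := by
  unfold LamS
  refine (Finset.abs_sum_le_sum_abs _ _).trans ?_
  have h1 : ∑ q ∈ (Dv w R).filter (fun q => q ∣ m), |lamS w R q| ≤
      (((Dv w R).filter (fun q => q ∣ m)).card : ℝ) := by
    rw [← nsmul_one]
    exact Finset.sum_le_card_nsmul _ _ _ fun q hq => abs_lamS_le w R q hR (Finset.mem_filter.mp hq).1
  refine h1.trans ?_
  have h2 : ((Dv w R).filter (fun q => q ∣ m)).card ≤
      (m.primeFactors.filter (fun p => w < p)).powerset.card := by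
    refine Finset.card_le_card_of_injOn Nat.primeFactors ?_ ?_
    · intro q hq
      have hq' := Finset.mem_filter.mp (Finset.mem_coe.mp hq)
      refine Finset.mem_coe.mpr (Finset.mem_powerset.mpr fun p hp => ?_)
      rw [mem_filter]
      refine ⟨Nat.primeFactors_mono hq'.2 hm hp, ?_⟩
      have h3 := (Nat.dvd_of_mem_primeFactors hp).trans (U3aux.mem_Dv.mp hq'.1).1
      have hp' := Nat.prime_of_mem_primeFactors hp
      obtain ⟨r, hr, hpr⟩ := (hp'.prime.dvd_finsetProd_iff _).mp h3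
      rw [(Nat.prime_dvd_prime_iff_eq hp' (U3aux.PwR_prime r hr)).mp hpr]
      exact (mem_PwR.1 hr).2.2
    · intro q hq r hr hqr
      have hq' := (Finset.mem_filter.mp (Finset.mem_coe.mp hq)).1
      have hr' := (Finset.mem_filter.mp (Finset.mem_coe.mp hr)).1
      rw [← Nat.prod_primeFactors_of_squarefree (U3aux.Dv_sq hq'),
        ← Nat.prod_primeFactors_of_squarefree (U3aux.Dv_sq hr'), hqr]
  rw [Finset.card_powerset] at h2
  exact_mod_cast h2

lemma nuf_bound' {m : ℕ} (hR : 1 ≤ R) (hN : 2 ≤ N) (hu : 1 ≤ u)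
    (hz : (N:ℝ) ^ (1 / (u:ℝ)) ≤ (z:ℝ) + 1) (hm0 : m ≠ 0) (hmN : m ≤ N ^ 2) :
    U3aux.nuf w z R m ≤ 16 ^ u * SG w R := by
  have hG := SG_pos w R hR
  unfold U3aux.nuf
  split_ifs with h
  · positivity
  · have hom := omega_le' hu hN hz hm0 hmN h
    have h3 := LamS_abs_le' (w := w) hR hm0
    have h4 : |LamS w R m| ≤ (2:ℝ) ^ (2 * u) := h3.trans (pow_le_pow_right₀ (by norm_num) hom)
    have h5 : LamS w R m ^ 2 ≤ ((2:ℝ) ^ (2 * u)) ^ 2 := by
      rw [← sq_abs]
      exact pow_le_pow_left₀ (abs_nonneg _) h4 2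
    have h6 : ((2:ℝ) ^ (2 * u)) ^ 2 = 16 ^ u := by
      rw [pow_mul, ← pow_mul, mul_comm u 2, pow_mul]
      norm_num
    rw [h6] at h5
    rw [mul_comm ((16:ℝ) ^ u)]
    exact mul_le_mul_of_nonneg_left h5 hG.le

end det

end H34P
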