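import Mathlib
import Pool.Agent.H34P.PSe

/-!
The weighted second moment: deterministic form.
-/

set_option autoImplicit false

namespace H34P

open Finset Filter Pool.Agent.HLT Pool.Agent.HL26 Pool.Agent.Maynard

/-- the property of `rough_fold` -/
def RF (Cr : ℝ) : Prop := ∀ (ι : Type) [Fintype ι] [DecidableEq ι] (Rj e : ι → ℕ)
    (j0 : ι) (w N a p : ℕ), 2 ≤ w → (∀ j, 1 ≤ Rj j) → (∀ j, Rj j ≤ Rj j0) → Function.Injective e →
    p ∈ PwR w (Rj j0) →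
    ∑ n ∈ (XS N w a).filter (fun n => p ∣ n + e j0), ∏ j, (SG w (Rj j) * LamS w (Rj j) (n + e j) ^ 2)
      ≤ ((N:ℝ) / Wp w) * (Cr * (cW (Wp w) * Real.log p + KV (Wp w)) / ((p:ℝ) * SG w (Rj j0))) *
        ∏ q ∈ PwR w (Rj j0), (1 + sE (gg e q) (fun j => if q = p ∧ j = j0 then 1 else 5 / ((q:ℝ) - 1)))
        + ∏ j, (SG w (Rj j) * (Rj j : ℝ) ^ 2)

/-- lower bound for the mean with the rough majorant -/
lemma mu_nuf_ge {k w R0 R z N a H : ℕ} {κ C Cr : ℝ} (hCr : RF Cr) (hCr0 : 0 < Cr)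
    (hloc : LocOK (k + 2) w H κ C) (hw : 2 ≤ w) (hR0 : 1 ≤ R0) (hR0R : R0 ≤ R) (hzR : z ≤ R)
    (E : Finset ℕ) (hE : E.card ≤ k) (hEH : ∀ e ∈ E, e ≤ H) (d : ℕ) (hd : d ∉ E) (hdH : d ≤ H)
    (hloss : Cr * C / SG w R * ∑ p ∈ PwR w z, (cW (Wp w) * Real.log p + KV (Wp w)) / p ≤ κ)
    (herr : (1 + z) * ((SG w R * (R:ℝ) ^ 2) * (SG w R0 * (R0:ℝ) ^ 2) ^ E.card) ≤
      κ * ((N:ℝ) / Wp w)) :
    (N:ℝ) / Wp w * (1 - 3 * κ) ≤
      ∑ n ∈ XS N w a, mu w R0 E n * U3aux.nuf w z R (n + d) := by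
  have hR : 1 ≤ R := hR0.trans hR0R
  have hG := SG_pos w R hR
  have ht : (0:ℝ) ≤ (N:ℝ) / Wp w := by positivity
  have h1 : ∑ n ∈ XS N w a, (mu w R0 E n * (SG w R * LamS w R (n + d) ^ 2) -
      ∑ p ∈ PwR w z, (if p ∣ n + d then mu w R0 E n * (SG w R * LamS w R (n + d) ^ 2) else 0)) ≤
      ∑ n ∈ XS N w a, mu w R0 E n * U3aux.nuf w z R (n + d) := by
    refine sum_le_sum fun n _ => ?_
    have h2 := mul_le_mul_of_nonneg_left (U3aux.nuf_ge (w := w) (z := z) hR (n + d))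
      (mu_nonneg (w := w) hR0 E n)
    refine le_trans (le_of_eq ?_) h2
    rw [mul_sub, mul_sum, mul_sum]
    congr 1
    refine sum_congr rfl fun p _ => ?_
    split_ifs <;> ring
  refine le_trans ?_ h1
  rw [sum_sub_distrib, sum_comm]
  have h2 := (abs_le.1 (mu_nu_abs (N := N) (a := a) hloc hR0 hR0R E hE hEH d hd hdH)).1
  set err := (SG w R * (R:ℝ) ^ 2) * (SG w R0 * (R0:ℝ) ^ 2) ^ E.card with herrd
  have herr0 : 0 ≤ err := by
    have := SG_pos w R0 hR0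
    positivity
  have h3 : ∀ p ∈ PwR w z, ∑ n ∈ XS N w a,
      (if p ∣ n + d then mu w R0 E n * (SG w R * LamS w R (n + d) ^ 2) else 0) ≤
      (N:ℝ) / Wp w * (Cr * C / SG w R * ((cW (Wp w) * Real.log p + KV (Wp w)) / p)) + err := by
    intro p hp
    rw [← sum_filter]
    exact mu_rough (fun ι _ _ => hCr ι) hCr0 hloc hw hR0 hR0R E hE hEH d hd hdH p
      (PwR_mono hzR hp)
  have h4 := sum_le_sum h3
  rw [sum_add_distrib, ← mul_sum, ← mul_sum, sum_const, nsmul_eq_mul] at h4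
  have h5 : ((PwR w z).card : ℝ) ≤ z := by
    have : (PwR w z).card ≤ (Ioc 0 z).card := by
      refine card_le_card fun p hp => ?_
      rw [mem_Ioc]
      exact ⟨(mem_PwR.1 hp).2.1.pos, (mem_PwR.1 hp).1⟩
    rw [Nat.card_Ioc] at this
    exact_mod_cast this
  have h6 := mul_le_mul_of_nonneg_right h5 herr0
  have h7 := mul_le_mul_of_nonneg_left hloss ht
  linarith

/-- the deterministic second moment -/
theorem moment_det {k w R0 R z N a H u : ℕ} {κ C Cr : ℝ} (hCr : RF Cr) (hCr0 : 0 < Cr)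
    (hκ : 0 < κ) (hκ1 : 4 * κ ≤ 1)
    (hloc : LocOK (k + 2) w H κ C) (hw : 2 ≤ w) (hR0 : 1 ≤ R0) (hR0R : R0 ≤ R) (hzR : z ≤ R)
    (hN : 3 ≤ N) (hHN : H ≤ N) (hu : 1 ≤ u) (hz : (N:ℝ) ^ (1 / (u:ℝ)) ≤ (z:ℝ) + 1)
    (E S : Finset ℕ) (hE : E.card ≤ k) (hEH : ∀ e ∈ E, e ≤ H) (hSH : ∀ d ∈ S, d ≤ H)
    (hdis : ∀ d ∈ S, d ∉ E)
    (hloss : Cr * C / SG w R * ∑ p ∈ PwR w z, (cW (Wp w) * Real.log p + KV (Wp w)) / p ≤ κ)
    (herr : (1 + z) * ((SG w R * (R:ℝ) ^ 2) * (SG w R0 * (R0:ℝ) ^ 2) ^ E.card) ≤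
      κ * ((N:ℝ) / Wp w))
    (herr2 : (SG w R * (R:ℝ) ^ 2) ^ 2 * (SG w R0 * (R0:ℝ) ^ 2) ^ E.card ≤ κ * ((N:ℝ) / Wp w)) :
    ∑ n ∈ XS N w a, mu w R0 E n * (∑ d ∈ S, U3aux.nuf w z R (n + d) - S.card) ^ 2 ≤
      (N:ℝ) / Wp w * (4 * (4 * κ) * (S.card : ℝ) ^ 2 + 2 * (16 ^ u * SG w R) * S.card) := by
  have hR : 1 ≤ R := hR0.trans hR0R
  have hG := SG_pos w R hR
  have hG1 := U3aux.one_le_SG (w := w) hR
  have hG0 := SG_pos w R0 hR0
  have ht : (0:ℝ) ≤ (N:ℝ) / Wp w := by positivity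
  have hRR : (1:ℝ) ≤ R := by exact_mod_cast hR
  have hX1 : 1 ≤ SG w R * (R:ℝ) ^ 2 := by
    have : (1:ℝ) ≤ (R:ℝ) ^ 2 := one_le_pow₀ hRR
    nlinarith
  have hz0 : (0:ℝ) ≤ z := Nat.cast_nonneg _
  set P0 := (SG w R0 * (R0:ℝ) ^ 2) ^ E.card with hP0
  have hP00 : 0 ≤ P0 := by positivity
  have herr1 : (SG w R * (R:ℝ) ^ 2) * P0 ≤ κ * ((N:ℝ) / Wp w) := by
    refine le_trans ?_ herr
    have : 0 ≤ (z:ℝ) * ((SG w R * (R:ℝ) ^ 2) * P0) := by positivity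
    linarith
  have herr0 : P0 ≤ κ * ((N:ℝ) / Wp w) := by
    refine le_trans ?_ herr1
    exact le_mul_of_one_le_left hP00 hX1
  have htκ : 0 ≤ (N:ℝ) / Wp w * κ := mul_nonneg ht hκ.le
  refine second_moment (XS N w a) S (mu w R0 E) (fun n d => U3aux.nuf w z R (n + d))
    ((N:ℝ) / Wp w) (4 * κ) (16 ^ u * SG w R) ht hκ1 (mu_nonneg hR0 E)
    (fun n d => U3aux.nuf_nonneg hR _) (by positivity) ?_ ?_ ?_ ?_ ?_
  · intro n hn d hd
    have h1 := mem_Ioc.1 (mem_filter.1 hn).1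
    have h2 := hSH d hd
    exact nuf_bound' hR (by omega) hu hz (by omega) (by nlinarith)
  · have := mu_mean (N := N) (a := a) hloc hR0 E (by omega) hEH
    linarith
  · intro d hd
    have := mu_nuf_ge (N := N) (a := a) hCr hCr0 hloc hw hR0 hR0R hzR E hE hEH d (hdis d hd)
      (hSH d hd) hloss herr
    linarith
  · intro d hd
    have h1 := (abs_le.1 (mu_nu_abs (N := N) (a := a) hloc hR0 hR0R E hE hEH d (hdis d hd)
      (hSH d hd))).2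
    have h2 : ∑ n ∈ XS N w a, mu w R0 E n * U3aux.nuf w z R (n + d) ≤
        ∑ n ∈ XS N w a, mu w R0 E n * (SG w R * LamS w R (n + d) ^ 2) :=
      sum_le_sum fun n _ => mul_le_mul_of_nonneg_left (U3aux.nuf_le hR _) (mu_nonneg hR0 E n)
    show ∑ n ∈ XS N w a, mu w R0 E n * U3aux.nuf w z R (n + d) ≤ _
    linarith
  · intro d hd d' hd' hdd
    have h1 := mu_nu_nu (N := N) (a := a) hloc hR0 hR0R E hE hEH d d' (hdis d hd)
      (hSH d hd) (hdis d' hd') (hSH d' hd') hdd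
    have h2 : ∑ n ∈ XS N w a, mu w R0 E n *
        (U3aux.nuf w z R (n + d) * U3aux.nuf w z R (n + d')) ≤
        ∑ n ∈ XS N w a, mu w R0 E n *
          ((SG w R * LamS w R (n + d) ^ 2) * (SG w R * LamS w R (n + d') ^ 2)) := by
      refine sum_le_sum fun n _ => mul_le_mul_of_nonneg_left ?_ (mu_nonneg hR0 E n)
      exact mul_le_mul (U3aux.nuf_le hR _) (U3aux.nuf_le hR _) (U3aux.nuf_nonneg hR _)
        (mul_nonneg hG.le (sq_nonneg _))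
    show ∑ n ∈ XS N w a, mu w R0 E n *
        (U3aux.nuf w z R (n + d) * U3aux.nuf w z R (n + d')) ≤ _
    linarith

end H34P
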