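import Mathlib
import Pool.Agent.H34P.PSe2

/-!
The weighted second moment: asymptotic form.
-/

set_option autoImplicit false

namespace H34P

open Finset Filter Pool.Agent.HLT Pool.Agent.HL26 Pool.Agent.Maynard

lemma ev_w_le_pow (η : ℝ) (hη : 0 < η) : ∀ᶠ N : ℕ in atTop, wN N ≤ ⌊(N:ℝ) ^ η⌋₊ := by
  have h := (isLittleO_log_rpow_atTop hη).bound (c := 1) one_pos
  have h2 := tendsto_natCast_atTop_atTop.eventually h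
  filter_upwards [h2, tendsto_loglogN.eventually_ge_atTop 0, tendsto_logN.eventually_gt_atTop 1,
    eventually_ge_atTop 1] with N h3 h4 h5 h6
  apply Nat.le_floor
  have h7 := w_le N h4
  have h8 : Real.log (Real.log N) ≤ Real.log N := (Real.log_le_sub_one_of_pos (by linarith)).trans
    (by linarith)
  have h9 : (0:ℝ) ≤ (N:ℝ) ^ η := by positivity
  rw [Real.norm_of_nonneg (by linarith), Real.norm_of_nonneg h9, one_mul] at h3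
  linarith

lemma cW_le_one (w : ℕ) : cW (Wp w) ≤ 1 := by
  unfold cW
  have h : (0:ℝ) < Wp w := by exact_mod_cast SelDAux.Wp_pos w
  rw [div_le_one h]
  exact_mod_cast Nat.totient_le _

lemma cW_pos' (w : ℕ) : 0 < cW (Wp w) := cW_pos (SelDAux.Wp_pos w)

lemma ev_pow_le_self (A : ℕ) : ∀ᶠ N : ℕ in atTop, (Real.log N) ^ A ≤ N := by
  have h := (Real.isLittleO_pow_log_id_atTop (n := A)).bound (c := 1) one_pos
  have h2 := tendsto_natCast_atTop_atTop.eventually h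
  filter_upwards [h2, eventually_ge_atTop 1] with N hN hN1
  have h3 : 0 ≤ Real.log N := Real.log_natCast_nonneg N
  simpa [abs_of_nonneg h3] using hN

lemma loss_arith {CC ρ κ G T0 u Λ : ℝ} (hCC : 0 < CC) (hρ : 0 < ρ) (hκ : 0 < κ) (hΛ : 0 < Λ)
    (hG : ρ / 2 * Λ ≤ G) (hu : 0 < u) (huC : 8 * CC ≤ u * (ρ * κ))
    (hS : T0 ≤ (2 / u + κ * ρ / (4 * CC)) * Λ) : CC / G * T0 ≤ κ := by
  have hG0 : 0 < G := lt_of_lt_of_le (by positivity) hG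
  have h1 : CC / G * T0 ≤ CC / G * ((2 / u + κ * ρ / (4 * CC)) * Λ) :=
    mul_le_mul_of_nonneg_left hS (by positivity)
  refine h1.trans ?_
  have h2 : CC / G ≤ CC / (ρ / 2 * Λ) :=
    div_le_div_of_nonneg_left (by positivity) (by positivity) hG
  have h3 := mul_le_mul_of_nonneg_right h2 (by positivity : 0 ≤ (2 / u + κ * ρ / (4 * CC)) * Λ)
  refine h3.trans ?_
  have h4 : CC / (ρ / 2 * Λ) * ((2 / u + κ * ρ / (4 * CC)) * Λ) = 4 * CC / (ρ * u) + κ / 2 := by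
    field_simp
    ring
  rw [h4]
  have h5 : 4 * CC / (ρ * u) ≤ κ / 2 := by
    rw [div_le_iff₀ (by positivity)]
    linarith
  linarith

lemma err_arith {x y X Y z r c : ℝ} (hx : 0 ≤ x) (hy : 0 ≤ y) (hxX : x ≤ X) (hyY : y ≤ Y)
    (hz : 1 + z ≤ 2 * X) (hfin : 2 * (X ^ 2 * Y) ≤ r) (hc : c = x) :
    (1 + z) * (c * y) ≤ r ∧ c ^ 2 * y ≤ r := by
  subst hc
  have hX : 0 ≤ X := hx.trans hxX
  have hY : 0 ≤ Y := hy.trans hyY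
  have h1 : c * y ≤ X * Y := mul_le_mul hxX hyY hy hX
  have h2 : c ^ 2 * y ≤ X ^ 2 * Y := mul_le_mul (pow_le_pow_left₀ hx hxX 2) hyY hy (by positivity)
  have h3 : 0 ≤ X ^ 2 * Y := by positivity
  refine ⟨?_, by linarith⟩
  calc (1 + z) * (c * y) ≤ (2 * X) * (X * Y) := mul_le_mul hz h1 (by positivity) (by positivity)
    _ = 2 * (X ^ 2 * Y) := by ring
    _ ≤ r := hfin

lemma rpow_arith1 {N ρ G R B : ℝ} (hN : 0 < N) (hG : G ≤ B) (hB : 0 ≤ B) (hR0 : 0 ≤ R)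
    (hR : R ≤ N ^ ρ) : G * R ^ 2 ≤ B * N ^ (2 * ρ) := by
  have e : N ^ (2 * ρ) = (N ^ ρ) ^ 2 := by
    rw [← Real.rpow_natCast, ← Real.rpow_mul hN.le]
    congr 1
    push_cast
    ring
  rw [e]
  exact mul_le_mul hG (pow_le_pow_left₀ hR0 hR 2) (by positivity) hB

lemma rpow_arith2 {N η G R B : ℝ} {k m : ℕ} (hN : 1 ≤ N) (hη : 0 ≤ η) (hG : G ≤ B) (hG0 : 0 ≤ G)
    (hB : 1 ≤ B) (hR0 : 0 ≤ R) (hR : R ≤ N ^ η) (hm : m ≤ k) :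
    (G * R ^ 2) ^ m ≤ B ^ k * N ^ (2 * η * k) := by
  have h1 := rpow_arith1 (by linarith) hG (by linarith) hR0 hR
  have h2 : 1 ≤ B * N ^ (2 * η) := by
    have := Real.one_le_rpow hN (by linarith : 0 ≤ 2 * η)
    nlinarith
  calc (G * R ^ 2) ^ m ≤ (B * N ^ (2 * η)) ^ m := pow_le_pow_left₀ (by positivity) h1 _
    _ ≤ (B * N ^ (2 * η)) ^ k := pow_le_pow_right₀ h2 hm
    _ = B ^ k * N ^ (2 * η * k) := by
      rw [mul_pow, ← Real.rpow_natCast (N ^ (2 * η)), ← Real.rpow_mul (by linarith)]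

lemma rpow_arith3 {N ρ η B : ℝ} {k : ℕ} (hN : 0 < N) :
    (B * N ^ (2 * ρ)) ^ 2 * (B ^ k * N ^ (2 * η * k)) =
      B ^ (k + 2) * N ^ (4 * ρ + 2 * η * k) := by
  have e1 : N ^ (4 * ρ + 2 * η * k) = (N ^ (2 * ρ)) ^ 2 * N ^ (2 * η * k) := by
    rw [← Real.rpow_natCast, ← Real.rpow_mul hN.le, ← Real.rpow_add hN]
    congr 1
    push_cast
    ring
  rw [e1]
  ring

lemma diag_arith {κ2 c G C1 Λ S q : ℝ} (hκ2 : 0 < κ2) (hq : 0 ≤ q) (hS0 : 0 ≤ S)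
    (hG : G ≤ C1 * Λ) (hS : 4 * q * C1 / κ2 * Λ ≤ S) (hc : 16 * c ≤ κ2 / 2) :
    4 * (4 * c) * S ^ 2 + 2 * (q * G) * S ≤ κ2 * S ^ 2 := by
  have h12 : 4 * q * C1 * Λ ≤ κ2 * S := by
    have : 4 * q * C1 / κ2 * Λ = 4 * q * C1 * Λ / κ2 := by ring
    rw [this, div_le_iff₀ hκ2] at hS
    linarith
  have h13 : q * G ≤ q * (C1 * Λ) := mul_le_mul_of_nonneg_left hG hq
  have h14 : 4 * (q * G) ≤ κ2 * S := by linarith
  have h15 := mul_le_mul_of_nonneg_right h14 hS0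
  have h16 : 4 * (4 * c) * S ^ 2 ≤ κ2 / 2 * S ^ 2 :=
    mul_le_mul_of_nonneg_right (by linarith) (by positivity)
  have h17 : 2 * (q * G) * S ≤ κ2 / 2 * S ^ 2 := by
    have e : κ2 / 2 * S ^ 2 = (κ2 * S * S) / 2 := by ring
    rw [e]
    linarith
  linarith

theorem moment (k : ℕ) (ρ η : ℝ) (hρ : 0 < ρ) (hη : 0 < η) (hηρ : η ≤ ρ)
    (hs : 4 * ρ + 2 * η * k < 1) (κ2 : ℝ) (hκ2 : 0 < κ2) : ∃ u : ℕ, 1 ≤ u ∧ ∃ K' : ℝ, 0 < K' ∧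
    ∀ A : ℕ, ∀ᶠ N : ℕ in atTop, ∀ (a : ℕ) (E S : Finset ℕ), E.card ≤ k →
      (∀ e ∈ E, (e:ℝ) ≤ (Real.log N) ^ A) → (∀ d ∈ S, (d:ℝ) ≤ (Real.log N) ^ A) →
      (∀ d ∈ S, d ∉ E) → K' * (cW (Wp (wN N)) * Real.log N) ≤ S.card →
      ∑ n ∈ XS N (wN N) a, mu (wN N) ⌊(N:ℝ) ^ η⌋₊ E n *
        (∑ d ∈ S, U3aux.nuf (wN N) (zz N u) ⌊(N:ℝ) ^ ρ⌋₊ (n + d) - S.card) ^ 2 ≤
        κ2 * (S.card : ℝ) ^ 2 * ((N:ℝ) / Wp (wN N)) := by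
  obtain ⟨Cr, hCr0, hCr⟩ := rough_fold
  obtain ⟨C, hC, hloc⟩ := ev_locOK (k + 2)
  obtain ⟨C0, hC0, hSG⟩ := ev_SG_le
  obtain ⟨C1, hC11, hC01⟩ : ∃ C1 : ℝ, 1 ≤ C1 ∧ C0 ≤ C1 := ⟨max C0 1, le_max_right _ _, le_max_left _ _⟩
  have hC10 : 0 < C1 := by linarith
  obtain ⟨κ, hκ, hκa, hκb⟩ : ∃ κ : ℝ, 0 < κ ∧ 16 * κ ≤ κ2 / 2 ∧ 4 * κ ≤ 1 := by
    refine ⟨min (κ2 / 32) (1 / 4), by positivity, ?_, ?_⟩
    · have := min_le_left (κ2 / 32) (1 / 4)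
      linarith
    · have := min_le_right (κ2 / 32) (1 / 4)
      linarith
  obtain ⟨u, hu⟩ := exists_nat_ge (max (max 1 (1 / ρ)) (8 * (Cr * C) / (ρ * κ)))
  have hu1 : (1:ℝ) ≤ u := (le_max_left _ _).trans ((le_max_left _ _).trans hu)
  have hu1' : 1 ≤ u := by exact_mod_cast hu1
  have hu0 : (0:ℝ) < u := by linarith
  have huρ : 1 / (u:ℝ) ≤ ρ := by
    have h1 : 1 / ρ ≤ u := (le_max_right _ _).trans ((le_max_left _ _).trans hu)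
    rw [div_le_iff₀ hρ] at h1
    rw [div_le_iff₀ hu0]
    linarith
  have huC : 8 * (Cr * C) ≤ u * (ρ * κ) := by
    have h1 : 8 * (Cr * C) / (ρ * κ) ≤ u := (le_max_right _ _).trans hu
    rwa [div_le_iff₀ (by positivity)] at h1
  have hκ'0 : 0 < κ * ρ / (4 * (Cr * C)) := by positivity
  refine ⟨u, hu1', 4 * 16 ^ u * C1 / κ2, by positivity, fun A => ?_⟩
  filter_upwards [hloc κ hκ A, hSG, ev_rough u hu1' (κ * ρ / (4 * (Cr * C))) hκ'0,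
    ev_SG_ge ρ (ρ / 2) hρ (by positivity),
    ev_w_le_pow η hη, ev_err C1 (k + 2) (4 * ρ + 2 * η * k) (κ / 2) hC10.le hs (by positivity),
    ev_w_ge 2, ev_pow_le_self A, tendsto_logN.eventually_ge_atTop 1, eventually_ge_atTop 3] with
    N h1 h2 h3 h4 h5 h6 h7 h8 h9 h10 a E S hE hEH hSH hdis hS
  have hc1 := cW_le_one (wN N)
  have hc0 := cW_pos' (wN N)
  have hL0 : 0 < Real.log N := by linarith
  have hΛ0 : 0 < cW (Wp (wN N)) * Real.log N := mul_pos hc0 hL0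
  have hΛL : cW (Wp (wN N)) * Real.log N ≤ Real.log N := mul_le_of_le_one_left hL0.le hc1
  have hN1 : (1:ℝ) ≤ N := by exact_mod_cast (by omega : 1 ≤ N)
  have hN0 : (0:ℝ) < N := by linarith
  have hR01 : 1 ≤ ⌊(N:ℝ) ^ η⌋₊ := by omega
  have hR0R : ⌊(N:ℝ) ^ η⌋₊ ≤ ⌊(N:ℝ) ^ ρ⌋₊ :=
    Nat.floor_mono (Real.rpow_le_rpow_of_exponent_le hN1 hηρ)
  have hzR : zz N u ≤ ⌊(N:ℝ) ^ ρ⌋₊ := Nat.floor_mono (Real.rpow_le_rpow_of_exponent_le hN1 huρ)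
  have hzlt : (N:ℝ) ^ (1 / (u:ℝ)) ≤ (zz N u : ℝ) + 1 := (Nat.lt_floor_add_one _).le
  have hρ1 : ρ ≤ 1 := by
    have : 0 ≤ 2 * η * k := by positivity
    linarith
  have hRle : ((⌊(N:ℝ) ^ ρ⌋₊ : ℕ) : ℝ) ≤ (N:ℝ) ^ ρ := Nat.floor_le (by positivity)
  have hR0le : ((⌊(N:ℝ) ^ η⌋₊ : ℕ) : ℝ) ≤ (N:ℝ) ^ η := Nat.floor_le (by positivity)
  have hzle : (zz N u : ℝ) ≤ (N:ℝ) ^ ρ :=
    (by exact_mod_cast hzR : (zz N u : ℝ) ≤ ((⌊(N:ℝ) ^ ρ⌋₊ : ℕ) : ℝ)).trans hRle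
  have hRN : ⌊(N:ℝ) ^ ρ⌋₊ ≤ N := by
    have : ((⌊(N:ℝ) ^ ρ⌋₊ : ℕ) : ℝ) ≤ N := hRle.trans (by
      calc (N:ℝ) ^ ρ ≤ (N:ℝ) ^ (1:ℝ) := Real.rpow_le_rpow_of_exponent_le hN1 hρ1
        _ = N := Real.rpow_one _)
    exact_mod_cast this
  have hSGR : SG (wN N) ⌊(N:ℝ) ^ ρ⌋₊ ≤ C1 * (cW (Wp (wN N)) * Real.log N) :=
    (h2 _ (h5.trans hR0R) hRN).trans (mul_le_mul_of_nonneg_right hC01 hΛ0.le)
  have hSGR0 : SG (wN N) ⌊(N:ℝ) ^ η⌋₊ ≤ C1 * (cW (Wp (wN N)) * Real.log N) :=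
    (h2 _ h5 (hR0R.trans hRN)).trans (mul_le_mul_of_nonneg_right hC01 hΛ0.le)
  have hSGlow : ρ / 2 * (cW (Wp (wN N)) * Real.log N) ≤ SG (wN N) ⌊(N:ℝ) ^ ρ⌋₊ := by
    have : ρ - ρ / 2 = ρ / 2 := by ring
    rw [this] at h4
    exact h4
  have hG := SG_pos (wN N) _ (hR01.trans hR0R)
  have hG0 := SG_pos (wN N) _ hR01
  -- the window
  have hLA : 1 ≤ Real.log N ^ A := one_le_pow₀ h9
  have hH1 : 1 ≤ ⌊Real.log N ^ A⌋₊ := Nat.le_floor (by simpa using hLA)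
  have hHle : ((⌊Real.log N ^ A⌋₊ : ℕ) : ℝ) ≤ Real.log N ^ A := Nat.floor_le (by positivity)
  have hHN : ⌊Real.log N ^ A⌋₊ ≤ N := by
    have : ((⌊Real.log N ^ A⌋₊ : ℕ) : ℝ) ≤ N := hHle.trans h8
    exact_mod_cast this
  have hEH' : ∀ e ∈ E, e ≤ ⌊Real.log N ^ A⌋₊ := fun e he => Nat.le_floor (hEH e he)
  have hSH' : ∀ d ∈ S, d ≤ ⌊Real.log N ^ A⌋₊ := fun d hd => Nat.le_floor (hSH d hd)
  -- the loss
  have hloss := loss_arith (by positivity : 0 < Cr * C) hρ hκ hΛ0 hSGlow hu0 huC h3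
  -- the errors
  have hCL : 1 ≤ C1 * Real.log N := one_le_mul_of_one_le_of_one_le hC11 h9
  have hx1 := rpow_arith1 (ρ := ρ) hN0 (hSGR.trans (mul_le_mul_of_nonneg_left hΛL hC10.le))
    (by linarith) (Nat.cast_nonneg _) hRle
  have hx2 := rpow_arith2 (η := η) (k := k) (m := E.card) hN1 hη.le
    (hSGR0.trans (mul_le_mul_of_nonneg_left hΛL hC10.le)) hG0.le hCL (Nat.cast_nonneg _) hR0le hE
  have hz1 : (1:ℝ) + zz N u ≤ 2 * ((C1 * Real.log N) * (N:ℝ) ^ (2 * ρ)) := by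
    have hNρ : 1 ≤ (N:ℝ) ^ ρ := Real.one_le_rpow hN1 hρ.le
    have h13 : (N:ℝ) ^ ρ ≤ (N:ℝ) ^ (2 * ρ) :=
      Real.rpow_le_rpow_of_exponent_le hN1 (by linarith)
    have h14 : (N:ℝ) ^ (2 * ρ) ≤ (C1 * Real.log N) * (N:ℝ) ^ (2 * ρ) :=
      le_mul_of_one_le_left (by positivity) hCL
    linarith
  have hfin : 2 * (((C1 * Real.log N) * (N:ℝ) ^ (2 * ρ)) ^ 2 *
      ((C1 * Real.log N) ^ k * (N:ℝ) ^ (2 * η * k))) ≤ κ * ((N:ℝ) / Wp (wN N)) := by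
    rw [rpow_arith3 hN0]
    linarith
  have hx0 : 0 ≤ SG (wN N) ⌊(N:ℝ) ^ ρ⌋₊ * ((⌊(N:ℝ) ^ ρ⌋₊ : ℕ) : ℝ) ^ 2 :=
    mul_nonneg hG.le (sq_nonneg _)
  have hy0 : 0 ≤ (SG (wN N) ⌊(N:ℝ) ^ η⌋₊ * ((⌊(N:ℝ) ^ η⌋₊ : ℕ) : ℝ) ^ 2) ^ E.card :=
    pow_nonneg (mul_nonneg hG0.le (sq_nonneg _)) _
  obtain ⟨herr, herr2⟩ := err_arith hx0 hy0 hx1 hx2 hz1 hfin rfl
  have hmain := moment_det (a := a) hCr hCr0 hκ hκb (h1 _ hH1 hHle) h7 hR01 hR0R hzR h10 hHN hu1'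
    hzlt E S hE hEH' hSH' hdis hloss herr herr2
  refine hmain.trans ?_
  rw [mul_comm ((N:ℝ) / Wp (wN N))]
  apply mul_le_mul_of_nonneg_right _ (by positivity)
  exact diag_arith hκ2 (by positivity) (Nat.cast_nonneg _) hSGR hS hκa

end H34P
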