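import Mathlib
import Pool.Agent.H34P.PSe3

/-!
One class: the number of `n` with one more prime, on average over the additional shift.
-/

set_option autoImplicit false

namespace H34P

open Finset Filter Pool.Agent.HLT Pool.Agent.HL26 Pool.Agent.Maynard

/-- the `n` of the class with all `n + e` prime -/
def AE (N w a : ℕ) (E : Finset ℕ) : Finset ℕ := (XS N w a).filter (fun n => ∀ e ∈ E, (n + e).Prime)

/-- their number -/
def Aa (N w a : ℕ) (E : Finset ℕ) : ℕ := (AE N w a E).card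

lemma AE_insert (N w a d : ℕ) (E : Finset ℕ) :
    AE N w a (insert d E) = (AE N w a E).filter (fun n => (n + d).Prime) := by
  unfold AE
  ext n
  simp only [mem_filter, mem_insert, forall_eq_or_imp]
  tauto

lemma mu_of_prime {N w a R0 n : ℕ} {E : Finset ℕ} (hR0 : 1 ≤ R0) (hRN : R0 ≤ N)
    (hn : n ∈ AE N w a E) : mu w R0 E n = SG w R0 ^ E.card := by
  unfold AE at hn
  rw [mem_filter] at hn
  have h1 := mem_Ioc.1 (mem_filter.1 hn.1).1
  unfold mu
  rw [← prod_const]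
  refine prod_congr rfl fun e he => ?_
  rw [U3aux.LamS_prime hR0 (hn.2 e he) (by omega)]
  ring

lemma nuf_of_prime {N w z R n d : ℕ} (hR : 1 ≤ R) (hRN : R ≤ N) (hzN : z ≤ N) (hn : N < n)
    (hp : (n + d).Prime) : U3aux.nuf w z R (n + d) = SG w R := by
  unfold U3aux.nuf
  rw [if_neg, U3aux.LamS_prime hR hp (by omega)]
  · ring
  · rintro ⟨p, hpm, hpd⟩
    have h3 := mem_PwR.mp hpm
    have h4 := (Nat.prime_dvd_prime_iff_eq h3.2.1 hp).mp hpd
    omega

/-- passing from the primes to the weight -/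
lemma sum_AE_le {N w a R0 : ℕ} {E : Finset ℕ} {g : ℝ} (hR0 : 1 ≤ R0) (hRN : R0 ≤ N) (hg : 0 < g)
    (hG : g ≤ SG w R0) (f : ℕ → ℝ) (hf : ∀ n, 0 ≤ f n) :
    ∑ n ∈ AE N w a E, f n ≤ (1 / g) ^ E.card * ∑ n ∈ XS N w a, mu w R0 E n * f n := by
  have h1 : ∑ n ∈ AE N w a E, f n ≤ ∑ n ∈ AE N w a E, (1 / g) ^ E.card * (mu w R0 E n * f n) := by
    refine sum_le_sum fun n hn => ?_
    rw [mu_of_prime hR0 hRN hn, ← mul_assoc, ← mul_pow]
    refine le_mul_of_one_le_left (hf n) (one_le_pow₀ ?_)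
    rw [one_div, inv_mul_eq_div, one_le_div hg]
    exact hG
  refine h1.trans ?_
  rw [← mul_sum]
  refine mul_le_mul_of_nonneg_left ?_ (by positivity)
  refine sum_le_sum_of_subset_of_nonneg (filter_subset _ _) fun n _ _ => ?_
  exact mul_nonneg (mu_nonneg hR0 E n) (hf n)

lemma trunc_ineq {y S h : ℝ} (hS : 0 < S) (hh : 0 < h) :
    y ≤ (1 + h) * S + (1 / S) * (1 / h ^ 2 + 1 / h) * (y - S) ^ 2 := by
  by_cases hy : y ≤ (1 + h) * S
  · have : 0 ≤ (1 / S) * (1 / h ^ 2 + 1 / h) * (y - S) ^ 2 := by positivity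
    linarith
  · push Not at hy
    obtain ⟨D, hD⟩ : ∃ D, D = y - S := ⟨_, rfl⟩
    rw [← hD]
    have hDS : h * S < D := by rw [hD]; linarith
    have hD0 : 0 < D := lt_trans (by positivity) hDS
    have h1 : S ≤ D / h := by
      rw [le_div_iff₀ hh]
      linarith
    have h2 : y = S + D := by rw [hD]; ring
    have h3 : D ≤ (1 / S) * (1 / h) * D ^ 2 := by
      have : (1 / S) * (1 / h) * D ^ 2 = D * (D / (h * S)) := by
        field_simp
      rw [this]
      refine le_mul_of_one_le_right hD0.le ?_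
      rw [one_le_div (by positivity)]
      exact hDS.le
    have h4 : D / h ≤ (1 / S) * (1 / h ^ 2) * D ^ 2 := by
      have h5 := div_le_div_of_nonneg_right h3 hh.le
      refine h5.trans (le_of_eq ?_)
      field_simp
    have h6 : 0 < (1 + h) * S := by positivity
    rw [h2]
    have h7 : (1 / S) * (1 / h ^ 2 + 1 / h) * D ^ 2 =
        (1 / S) * (1 / h ^ 2) * D ^ 2 + (1 / S) * (1 / h) * D ^ 2 := by ring
    rw [h7]
    linarith

/-- deterministic form: one class, large `S` -/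
lemma star_det {N w a R0 R z : ℕ} {E S : Finset ℕ} {g h t κ2 : ℝ} (hR0 : 1 ≤ R0) (hR0R : R0 ≤ R)
    (hRN : R ≤ N) (hzN : z ≤ N) (hg : 0 < g) (hG : g ≤ SG w R0) (hh : 0 < h)
    (hS : 0 < S.card)
    (hmom : ∑ n ∈ XS N w a, mu w R0 E n *
        (∑ d ∈ S, U3aux.nuf w z R (n + d) - S.card) ^ 2 ≤ κ2 * (S.card : ℝ) ^ 2 * t) :
    ∑ d ∈ S, (Aa N w a (insert d E) : ℝ) ≤
      (1 / SG w R) * ((1 + h) * S.card * Aa N w a E +
        (1 / h ^ 2 + 1 / h) * (1 / g) ^ E.card * (κ2 * S.card * t)) := by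
  have hR : 1 ≤ R := hR0.trans hR0R
  have hGR := SG_pos w R hR
  have hS0 : (0:ℝ) < S.card := by exact_mod_cast hS
  have h1 : ∑ d ∈ S, (Aa N w a (insert d E) : ℝ) ≤
      (1 / SG w R) * ∑ n ∈ AE N w a E, ∑ d ∈ S, U3aux.nuf w z R (n + d) := by
    have h2 : ∀ d ∈ S, (Aa N w a (insert d E) : ℝ) ≤
        ∑ n ∈ AE N w a E, (1 / SG w R) * U3aux.nuf w z R (n + d) := by
      intro d _
      unfold Aa
      rw [AE_insert, ← nsmul_one, ← sum_const, sum_filter]
      refine sum_le_sum fun n hn => ?_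
      have hn1 := mem_Ioc.1 (mem_filter.1 (mem_filter.1 hn).1).1
      split_ifs with hp
      · rw [nuf_of_prime hR hRN hzN hn1.1 hp]
        exact le_of_eq (by field_simp)
      · exact mul_nonneg (by positivity) (U3aux.nuf_nonneg hR _)
    refine (sum_le_sum h2).trans (le_of_eq ?_)
    rw [sum_comm, mul_sum]
    refine sum_congr rfl fun n _ => ?_
    rw [mul_sum]
  refine h1.trans (mul_le_mul_of_nonneg_left ?_ (by positivity))
  have h3 : ∑ n ∈ AE N w a E, ∑ d ∈ S, U3aux.nuf w z R (n + d) ≤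
      ∑ n ∈ AE N w a E, ((1 + h) * S.card + (1 / (S.card:ℝ)) * (1 / h ^ 2 + 1 / h) *
        (∑ d ∈ S, U3aux.nuf w z R (n + d) - S.card) ^ 2) :=
    sum_le_sum fun n _ => trunc_ineq hS0 hh
  refine h3.trans ?_
  rw [sum_add_distrib, sum_const, nsmul_eq_mul, ← mul_sum]
  have h4 := sum_AE_le (N := N) (w := w) (a := a) (E := E) hR0 (hR0R.trans hRN) hg hG
    (fun n => (∑ d ∈ S, U3aux.nuf w z R (n + d) - S.card) ^ 2) (fun n => sq_nonneg _)
  have h5 : ∑ n ∈ AE N w a E, (∑ d ∈ S, U3aux.nuf w z R (n + d) - (S.card:ℝ)) ^ 2 ≤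
      (1 / g) ^ E.card * (κ2 * (S.card : ℝ) ^ 2 * t) :=
    h4.trans (mul_le_mul_of_nonneg_left hmom (by positivity))
  have h6 := mul_le_mul_of_nonneg_left h5
    (by positivity : 0 ≤ (1 / (S.card:ℝ)) * (1 / h ^ 2 + 1 / h))
  refine add_le_add (le_of_eq ?_) (h6.trans (le_of_eq ?_))
  · unfold Aa
    ring
  · field_simp

end H34P
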