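import Mathlib
import Pool.Agent.H34P.PSf

/-!
One class, asymptotic form.
-/

set_option autoImplicit false

namespace H34P

open Finset Filter Pool.Agent.HLT Pool.Agent.HL26 Pool.Agent.Maynard

/-- arithmetic of the large case -/
lemma star_arith {κ κ0 κ2 η G Λ S X t q c : ℝ} (hκ : 0 < κ) (hκ1 : κ ≤ 1) (hΛ : 0 < Λ)
    (hX : 0 ≤ X) (hS : 0 ≤ S) (ht : 0 ≤ t) (hq : 0 < q) (hc : 0 ≤ c)
    (hκ0 : (4 + κ) * κ0 = 1 + κ / 16) (hG : κ0 * Λ ≤ G)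
    (hκ2 : 5 * (c * (q * κ2)) ≤ κ) (hη : 0 ≤ η) (hηq : η ≤ q) (hκ20 : 0 ≤ κ2) (m : ℕ) :
    (1 / G) * ((1 + κ / 16) * S * X + c * (η * (1 / Λ) ^ m) * (κ2 * S * t)) ≤
      (4 + κ) / Λ * (S * X) + κ * (S * (t / Λ ^ (m + 1))) := by
  have hκ00 : 0 < κ0 := by
    by_contra h
    push Not at h
    nlinarith
  have hG0 : 0 < G := lt_of_lt_of_le (by positivity) hG
  have h1 : 1 / G ≤ 1 / (κ0 * Λ) := one_div_le_one_div_of_le (by positivity) hG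
  have h2 : 1 / κ0 = (4 + κ) / (1 + κ / 16) := by
    rw [← hκ0]
    field_simp
  have h3 : (1:ℝ) / (κ0 * Λ) * (1 + κ / 16) = (4 + κ) / Λ := by
    rw [one_div, mul_inv, ← one_div κ0, h2]
    field_simp
  have h4 : (1:ℝ) / (κ0 * Λ) ≤ 5 / Λ := by
    rw [one_div, mul_inv, ← one_div κ0, h2, ← div_eq_mul_inv]
    apply div_le_div_of_nonneg_right _ hΛ.le
    rw [div_le_iff₀ (by positivity)]
    linarith
  have hA : 0 ≤ (1 + κ / 16) * S * X := by positivity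
  have hB : 0 ≤ c * (η * (1 / Λ) ^ m) * (κ2 * S * t) := by positivity
  have h5 : (1 / G) * ((1 + κ / 16) * S * X) ≤ (4 + κ) / Λ * (S * X) := by
    calc (1 / G) * ((1 + κ / 16) * S * X) ≤ (1 / (κ0 * Λ)) * ((1 + κ / 16) * S * X) :=
          mul_le_mul_of_nonneg_right h1 hA
      _ = (1 / (κ0 * Λ) * (1 + κ / 16)) * (S * X) := by ring
      _ = (4 + κ) / Λ * (S * X) := by rw [h3]
  have h6 : (1 / G) * (c * (η * (1 / Λ) ^ m) * (κ2 * S * t)) ≤ κ * (S * (t / Λ ^ (m + 1))) := by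
    calc (1 / G) * (c * (η * (1 / Λ) ^ m) * (κ2 * S * t))
        ≤ (5 / Λ) * (c * (η * (1 / Λ) ^ m) * (κ2 * S * t)) :=
          mul_le_mul_of_nonneg_right (h1.trans h4) hB
      _ ≤ (5 / Λ) * (c * (q * (1 / Λ) ^ m) * (κ2 * S * t)) := by
          gcongr
      _ = (5 * (c * (q * κ2))) * (S * (t / Λ ^ (m + 1))) := by
          rw [one_div, inv_pow, pow_succ]
          field_simp
      _ ≤ κ * (S * (t / Λ ^ (m + 1))) := mul_le_mul_of_nonneg_right hκ2 (by positivity)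
  rw [mul_add]
  exact add_le_add h5 h6

theorem star (k : ℕ) (κ : ℝ) (hκ : 0 < κ) (hκ1 : κ ≤ 1) : ∃ K' : ℝ, 0 < K' ∧ ∃ C : ℝ, 0 < C ∧
    ∀ A : ℕ, ∀ᶠ N : ℕ in atTop, ∀ (a : ℕ) (E : Finset ℕ), E.card ≤ k →
      (∀ e ∈ E, (e:ℝ) ≤ (Real.log N) ^ A) →
      (∀ S : Finset ℕ, (∀ d ∈ S, (d:ℝ) ≤ (Real.log N) ^ A) → (∀ d ∈ S, d ∉ E) →
        K' * (cW (Wp (wN N)) * Real.log N) ≤ S.card →
        ∑ d ∈ S, (Aa N (wN N) a (insert d E) : ℝ) ≤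
          (4 + κ) / (cW (Wp (wN N)) * Real.log N) * (S.card * Aa N (wN N) a E) +
          κ * (S.card * (((N:ℝ) / Wp (wN N)) / (cW (Wp (wN N)) * Real.log N) ^ (E.card + 1)))) ∧
      (∀ d : ℕ, (d:ℝ) ≤ (Real.log N) ^ A → d ∉ E →
        (Aa N (wN N) a (insert d E) : ℝ) ≤
          C * (((N:ℝ) / Wp (wN N)) / (cW (Wp (wN N)) * Real.log N) ^ (E.card + 1))) := by
  -- the exponents
  obtain ⟨ρ, hρd⟩ : ∃ ρ : ℝ, ρ = (1 + κ / 8) / (4 + κ) := ⟨_, rfl⟩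
  obtain ⟨η, hηd⟩ : ∃ η : ℝ, η = κ / (40 * (k + 1)) := ⟨_, rfl⟩
  have h4κ : 0 < 4 + κ := by linarith
  have hρ : 0 < ρ := by rw [hρd]; positivity
  have hρe : (4 + κ) * ρ = 1 + κ / 8 := by rw [hρd]; field_simp
  have hη : 0 < η := by rw [hηd]; positivity
  have hk0 : (0:ℝ) ≤ k := Nat.cast_nonneg k
  have hηk : 2 * η * (k + 1) = κ / 20 := by
    rw [hηd]
    field_simp
    ring
  have hρ4 : 4 * ρ ≤ 1 - κ / 10 := by
    have h1 : κ * ρ ≥ κ * (1 / 5) := by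
      apply mul_le_mul_of_nonneg_left _ hκ.le
      rw [hρd, le_div_iff₀ h4κ]
      linarith
    -- 4ρ = 1 + κ/8 - κ ρ ; ρ ≥ (1+κ/8)/(4+κ) ≥ 9/40
    have h2 : ρ ≥ 9 / 40 := by
      rw [ge_iff_le, hρd, le_div_iff₀ h4κ]
      linarith
    nlinarith
  have hηρ : η ≤ ρ := by
    have h1 : η ≤ 1 / 40 := by
      have : 2 * η * 1 ≤ 2 * η * (k + 1) := mul_le_mul_of_nonneg_left (by linarith) (by positivity)
      linarith
    have h2 : 1 / 5 ≤ ρ := by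
      rw [hρd, le_div_iff₀ h4κ]
      linarith
    linarith
  have hs : 4 * ρ + 2 * η * k < 1 := by
    have : 2 * η * k ≤ 2 * η * (k + 1) := mul_le_mul_of_nonneg_left (by linarith) (by positivity)
    linarith
  obtain ⟨κ0, hκ0⟩ : ∃ κ0 : ℝ, κ0 = (1 + κ / 16) / (4 + κ) := ⟨_, rfl⟩
  have hκ0e : (4 + κ) * κ0 = 1 + κ / 16 := by rw [hκ0]; field_simp
  have hκ0lt : κ0 < ρ := by
    rw [hκ0, hρd]
    exact div_lt_div_of_pos_right (by linarith) h4κ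
  obtain ⟨q, hq⟩ : ∃ q : ℝ, q = (2 / η) ^ (k + 1) := ⟨_, rfl⟩
  have hη2 : 1 ≤ 2 / η := by
    rw [one_le_div hη]
    have : 2 * η * 1 ≤ 2 * η * (k + 1) := mul_le_mul_of_nonneg_left (by linarith) (by positivity)
    linarith
  have hq1 : 1 ≤ q := by rw [hq]; exact one_le_pow₀ hη2
  have hq0 : 0 < q := by linarith
  obtain ⟨c, hc⟩ : ∃ c : ℝ, c = 1 / (κ / 16) ^ 2 + 1 / (κ / 16) := ⟨_, rfl⟩
  have hc0 : 0 < c := by rw [hc]; positivity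
  obtain ⟨κ2, hκ2d⟩ : ∃ κ2 : ℝ, κ2 = κ / (5 * (c * q)) := ⟨_, rfl⟩
  have hκ2 : 0 < κ2 := by rw [hκ2d]; positivity
  have hκ2e : 5 * (c * (q * κ2)) ≤ κ := by
    rw [hκ2d]
    apply le_of_eq
    field_simp
  obtain ⟨u, hu1, K', hK', hmom⟩ := moment k ρ η hρ hη hηρ hs κ2 hκ2
  obtain ⟨C, hC, hloc⟩ := ev_locOK (k + 2)
  obtain ⟨C0, hC0, hSG⟩ := ev_SG_le
  obtain ⟨C1, hC11, hC01⟩ : ∃ C1 : ℝ, 1 ≤ C1 ∧ C0 ≤ C1 := ⟨max C0 1, le_max_right _ _, le_max_left _ _⟩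
  have hC10 : 0 < C1 := by linarith
  refine ⟨K', hK', 3 * q, by positivity, fun A => ?_⟩
  have hθ : 2 * η * ((k + 1 : ℕ) : ℝ) < 1 := by
    push_cast
    rw [hηk]
    linarith
  filter_upwards [hmom A, ev_SG_ge ρ (ρ - κ0) hρ (by linarith), ev_SG_ge η (η / 2) hη (by positivity),
    hloc 1 one_pos A, hSG, ev_w_le_pow η hη, ev_err C1 (k + 1) (2 * η * ((k + 1 : ℕ) : ℝ)) 1 hC10.le
    hθ one_pos, ev_w_ge 2, tendsto_logN.eventually_ge_atTop 1, eventually_ge_atTop 3] with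
    N h1 h2 h3 h4 h5 h6 h7 h8 h9 h10 a E hE hEH
  have hc1 := cW_le_one (wN N)
  have hcc0 := cW_pos' (wN N)
  have hL0 : 0 < Real.log N := by linarith
  have hΛ0 : 0 < cW (Wp (wN N)) * Real.log N := mul_pos hcc0 hL0
  have hΛL : cW (Wp (wN N)) * Real.log N ≤ Real.log N := mul_le_of_le_one_left hL0.le hc1
  have hN1 : (1:ℝ) ≤ N := by exact_mod_cast (by omega : 1 ≤ N)
  have hN0 : (0:ℝ) < N := by linarith
  have hR01 : 1 ≤ ⌊(N:ℝ) ^ η⌋₊ := by omega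
  have hR0R : ⌊(N:ℝ) ^ η⌋₊ ≤ ⌊(N:ℝ) ^ ρ⌋₊ :=
    Nat.floor_mono (Real.rpow_le_rpow_of_exponent_le hN1 hηρ)
  have hρ1 : ρ ≤ 1 := by linarith
  have hpow1 : ∀ x : ℝ, x ≤ 1 → ⌊(N:ℝ) ^ x⌋₊ ≤ N := by
    intro x hx
    have h11 : ((⌊(N:ℝ) ^ x⌋₊ : ℕ) : ℝ) ≤ (N:ℝ) ^ x := Nat.floor_le (by positivity)
    have h12 : (N:ℝ) ^ x ≤ N := by
      calc (N:ℝ) ^ x ≤ (N:ℝ) ^ (1:ℝ) := Real.rpow_le_rpow_of_exponent_le hN1 hx
        _ = N := Real.rpow_one _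
    exact_mod_cast h11.trans h12
  have hRN : ⌊(N:ℝ) ^ ρ⌋₊ ≤ N := hpow1 ρ hρ1
  have hzN : zz N u ≤ N := by
    apply hpow1
    rw [div_le_one (by exact_mod_cast (by omega : 0 < u))]
    exact_mod_cast hu1
  have hR0le : ((⌊(N:ℝ) ^ η⌋₊ : ℕ) : ℝ) ≤ (N:ℝ) ^ η := Nat.floor_le (by positivity)
  have hG0 := SG_pos (wN N) _ hR01
  have e3 : η - η / 2 = η / 2 := by ring
  rw [e3] at h3
  have hg0 : 0 < η / 2 * (cW (Wp (wN N)) * Real.log N) := by positivity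
  have ht0 : (0:ℝ) ≤ (N:ℝ) / Wp (wN N) := by positivity
  have hpowq : ∀ m : ℕ, m ≤ k + 1 →
      (1 / (η / 2 * (cW (Wp (wN N)) * Real.log N))) ^ m =
        (2 / η) ^ m * (1 / (cW (Wp (wN N)) * Real.log N)) ^ m ∧ (2 / η) ^ m ≤ q := by
    intro m hm
    refine ⟨?_, ?_⟩
    · rw [← mul_pow]
      congr 1
      field_simp
    · rw [hq]
      exact pow_le_pow_right₀ hη2 hm
  refine ⟨fun S hSH hdis hS => ?_, fun d hd hdE => ?_⟩
  · have hScard : 0 < S.card := by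
      have : (0:ℝ) < S.card := lt_of_lt_of_le (by positivity) hS
      exact_mod_cast this
    have h11 := star_det (a := a) (E := E) (S := S) hR01 hR0R hRN hzN hg0 h3
      (by positivity : 0 < κ / 16) hScard (h1 a E S hE hEH hSH hdis hS)
    refine h11.trans ?_
    obtain ⟨e4, e5⟩ := hpowq E.card (by omega)
    rw [e4, ← hc]
    have h2' : κ0 * (cW (Wp (wN N)) * Real.log N) ≤ SG (wN N) ⌊(N:ℝ) ^ ρ⌋₊ := by
      have : ρ - (ρ - κ0) = κ0 := by ring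
      rw [this] at h2
      exact h2
    exact star_arith hκ hκ1 hΛ0 (Nat.cast_nonneg _) (Nat.cast_nonneg _) ht0 hq0 hc0.le hκ0e h2' hκ2e
      (by positivity) e5 hκ2.le E.card
  · have hLA : 1 ≤ Real.log N ^ A := one_le_pow₀ h9
    have hH1 : 1 ≤ ⌊Real.log N ^ A⌋₊ := Nat.le_floor (by simpa using hLA)
    have hHle : ((⌊Real.log N ^ A⌋₊ : ℕ) : ℝ) ≤ Real.log N ^ A := Nat.floor_le (by positivity)
    have hEH' : ∀ e ∈ insert d E, e ≤ ⌊Real.log N ^ A⌋₊ := by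
      intro e he
      rw [mem_insert] at he
      rcases he with rfl | he
      · exact Nat.le_floor hd
      · exact Nat.le_floor (hEH e he)
    have hcard : (insert d E).card = E.card + 1 := card_insert_of_notMem hdE
    have h11 := sum_AE_le (N := N) (w := wN N) (a := a) (E := insert d E) hR01 (hR0R.trans hRN) hg0 h3
      (fun _ => 1) (fun _ => zero_le_one)
    rw [sum_const, nsmul_eq_mul, mul_one] at h11
    simp only [mul_one] at h11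
    have h12 := mu_mean (N := N) (a := a) (h4 _ hH1 hHle) hR01 (insert d E) (by omega) hEH'
    rw [hcard] at h11 h12
    have hSGR0 : SG (wN N) ⌊(N:ℝ) ^ η⌋₊ ≤ C1 * (cW (Wp (wN N)) * Real.log N) :=
      (h5 _ h6 (hR0R.trans hRN)).trans (mul_le_mul_of_nonneg_right hC01 hΛ0.le)
    have hCL : 1 ≤ C1 * Real.log N := one_le_mul_of_one_le_of_one_le hC11 h9
    have hx2 := rpow_arith2 (η := η) (k := k + 1) (m := E.card + 1) hN1 hη.le
      (hSGR0.trans (mul_le_mul_of_nonneg_left hΛL hC10.le)) hG0.le hCL (Nat.cast_nonneg _) hR0le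
      (by omega)
    have h13 : ∑ n ∈ XS N (wN N) a, mu (wN N) ⌊(N:ℝ) ^ η⌋₊ (insert d E) n ≤
        3 * ((N:ℝ) / Wp (wN N)) := by linarith
    obtain ⟨e4, e5⟩ := hpowq (E.card + 1) (by omega)
    rw [e4] at h11
    have h14 : 0 ≤ ∑ n ∈ XS N (wN N) a, mu (wN N) ⌊(N:ℝ) ^ η⌋₊ (insert d E) n :=
      sum_nonneg fun n _ => mu_nonneg hR01 _ n
    have h15 : 0 ≤ (1 / (cW (Wp (wN N)) * Real.log N)) ^ (E.card + 1) := by positivity
    have h16 : ((2 / η) ^ (E.card + 1) * (1 / (cW (Wp (wN N)) * Real.log N)) ^ (E.card + 1)) *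
        ∑ n ∈ XS N (wN N) a, mu (wN N) ⌊(N:ℝ) ^ η⌋₊ (insert d E) n ≤
        (q * (1 / (cW (Wp (wN N)) * Real.log N)) ^ (E.card + 1)) * (3 * ((N:ℝ) / Wp (wN N))) :=
      mul_le_mul (mul_le_mul_of_nonneg_right e5 h15) h13 h14 (by positivity)
    refine (h11.trans h16).trans (le_of_eq ?_)
    rw [one_div, inv_pow]
    ring

end H34P
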