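import Mathlib
import Pool.Agent.H34P.PSf
import Pool.Agent.HL26.Sing
import Pool.Agent.HL26.Engine

/-!
Residue classes compatible with a finite set, and the exceptional shifts.
-/

set_option autoImplicit false

namespace H34P

open Finset Filter Pool.Agent.HLT Pool.Agent.HL26 Pool.Agent.Maynard

/-- the classes `a` mod `Wp w` with all `a + t` coprime to `Wp w` -/
def AC (w : ℕ) (T : Finset ℕ) : Finset ℕ :=
  (range (Wp w)).filter (fun a => ∀ t ∈ T, (a + t).Coprime (Wp w))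

lemma AC_insert (w d : ℕ) (T : Finset ℕ) :
    AC w (insert d T) = (AC w T).filter (fun a => (a + d).Coprime (Wp w)) := by
  unfold AC
  ext a
  simp only [mem_filter, mem_insert, forall_eq_or_imp]
  tauto

lemma card_units_eq2 (PP : Finset ℕ) (hPP : ∀ p ∈ PP, p.Prime) (P : ℕ) (hP : P = ∏ p ∈ PP, p) [NeZero P]
    (E : Finset ℕ) [DecidablePred fun c : ZMod P => ∀ e ∈ E, IsUnit (c + (e : ZMod P))] :
    (Finset.univ.filter (fun c : ZMod P => ∀ e ∈ E, IsUnit (c + (e : ZMod P)))).card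
      = ∏ p ∈ PP, (p - nu E p) := by
  subst hP
  exact card_units_eq PP hPP E

open Classical in
lemma AC_card (w : ℕ) (T : Finset ℕ) : (AC w T).card = ∏ p ∈ PPy w, (p - nu T p) := by
  have : NeZero (Wp w) := ⟨(SelDAux.Wp_pos w).ne'⟩
  rw [← card_units_eq2 (PPy w) (PPy_prime w) (Wp w) rfl T]
  unfold AC
  refine Finset.card_bij (fun a _ => ((a:ℕ) : ZMod (Wp w))) ?_ ?_ ?_
  · intro a ha
    rw [Finset.mem_filter] at ha ⊢
    refine ⟨mem_univ _, ?_⟩
    intro x hx
    have h3 := ha.2 x hx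
    rw [← ZMod.isUnit_iff_coprime] at h3
    push_cast at h3
    exact h3
  · intro a ha b hb hab
    rw [ZMod.natCast_eq_natCast_iff] at hab
    exact Nat.ModEq.eq_of_lt_of_lt hab (mem_range.1 (mem_filter.1 ha).1)
      (mem_range.1 (mem_filter.1 hb).1)
  · intro c hc
    rw [Finset.mem_filter] at hc
    refine ⟨c.val, ?_, by simp⟩
    rw [Finset.mem_filter, mem_range]
    refine ⟨ZMod.val_lt c, fun i hi => ?_⟩
    rw [← ZMod.isUnit_iff_coprime]
    push_cast
    rw [ZMod.natCast_zmod_val]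
    exact hc.2 _ hi

lemma AC_card_SP (w : ℕ) (T : Finset ℕ) :
    ((AC w T).card : ℝ) = (Wp w : ℝ) * cW (Wp w) ^ T.card * SP (PPy w) T := by
  have hW : (0:ℝ) < Wp w := by exact_mod_cast SelDAux.Wp_pos w
  have hφ : (0:ℝ) < ((Wp w).totient : ℝ) := by
    exact_mod_cast Nat.totient_pos.2 (SelDAux.Wp_pos w)
  have h1 := SP_eq (PPy w) (PPy_prime w) T
  rw [AC_card, h1]
  unfold cW Wp
  unfold Wp at hW hφ
  rw [div_pow, div_pow]
  field_simp

/-- the number of `n` in the block is at most the sum over the compatible classes -/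
lemma block_le_classes {N w : ℕ} (hN : Wp w ≤ N) (T : Finset ℕ) :
    (((Ioc N (2 * N)).filter (fun n => ∀ e ∈ T, (n + e).Prime)).card : ℝ) ≤
      ∑ a ∈ AC w T, (Aa N w a T : ℝ) := by
  have h1 : (Ioc N (2 * N)).filter (fun n => ∀ e ∈ T, (n + e).Prime) ⊆
      (AC w T).biUnion (fun a => AE N w a T) := by
    intro n hn
    rw [mem_filter, mem_Ioc] at hn
    rw [mem_biUnion]
    refine ⟨n % Wp w, ?_, ?_⟩
    · unfold AC
      rw [mem_filter, mem_range]
      refine ⟨Nat.mod_lt _ (SelDAux.Wp_pos w), fun t ht => ?_⟩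
      have hp := hn.2 t ht
      have h2 : (n + t).Coprime (Wp w) := by
        rw [Nat.Prime.coprime_iff_not_dvd hp]
        intro h
        have := Nat.le_of_dvd (SelDAux.Wp_pos w) h
        omega
      unfold Nat.Coprime at h2 ⊢
      rw [← h2]
      have h3 : n % Wp w + t ≡ n + t [MOD Wp w] := (Nat.mod_modEq _ _).add_right t
      exact h3.gcd_eq
    · unfold AE XS
      rw [mem_filter, mem_filter, mem_Ioc]
      exact ⟨⟨hn.1, (Nat.mod_modEq _ _).symm⟩, hn.2⟩
  have h2 := (card_le_card h1).trans card_biUnion_le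
  unfold Aa
  exact_mod_cast h2

/-- size of the local factor of an additional shift -/
lemma nu_insert_le (T : Finset ℕ) (d p : ℕ) : nu (insert d T) p ≤ nu T p + 1 := by
  unfold nu
  rw [image_insert]
  exact card_insert_le _ _

lemma nu_le_card (T : Finset ℕ) (p : ℕ) : nu T p ≤ T.card := card_image_le

/-- one more shift keeps a proportion `≫ φ(W)/W` of the classes -/
lemma AC_ratio (k : ℕ) : ∃ c : ℝ, 0 < c ∧ ∀ (w : ℕ) (T : Finset ℕ) (d : ℕ), T.card ≤ k →
    (∀ p : ℕ, p.Prime → nu (insert d T) p < p) →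
    c * cW (Wp w) * ((AC w T).card : ℝ) ≤ ((AC w (insert d T)).card : ℝ) := by
  obtain ⟨m, hm⟩ : ∃ m : ℕ, m = 4 * (k + 1) := ⟨_, rfl⟩
  have hmR : (m:ℝ) = 4 * (k + 1) := by rw [hm]; push_cast; ring
  have hk0 : (0:ℝ) ≤ k := Nat.cast_nonneg k
  have hm0 : (0:ℝ) < m := by rw [hmR]; positivity
  refine ⟨(1 / (m:ℝ)) ^ (m + 1) * (1 / 2), by positivity, fun w T d hT hadm => ?_⟩
  set δ : ℕ → ℝ := fun p => if p ≤ m then 1 / (m:ℝ) else 1 - 2 * k / (p:ℝ) ^ 2 with hδ
  have hterm : ∀ p ∈ PPy w, δ p * (1 - 1 / (p:ℝ)) * ((p - nu T p : ℕ) : ℝ) ≤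
      ((p - nu (insert d T) p : ℕ) : ℝ) := by
    intro p hp
    have hpp := PPy_prime w p hp
    have hp2 : (2:ℝ) ≤ p := by exact_mod_cast hpp.two_le
    have h1 := hadm p hpp
    have h2 := nu_insert_le T d p
    have h3 := nu_le_card T p
    have h4 : (1:ℝ) ≤ ((p - nu (insert d T) p : ℕ) : ℝ) := by
      exact_mod_cast (by omega : 1 ≤ p - nu (insert d T) p)
    have h5 : ((p - nu T p : ℕ) : ℝ) ≤ p := by exact_mod_cast (by omega : p - nu T p ≤ p)
    have h50 : (0:ℝ) ≤ ((p - nu T p : ℕ) : ℝ) := Nat.cast_nonneg _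
    have h6 : (0:ℝ) ≤ 1 - 1 / (p:ℝ) := by
      have : 1 / (p:ℝ) ≤ 1 := by rw [div_le_one (by linarith)]; linarith
      linarith
    have h6' : 1 - 1 / (p:ℝ) ≤ 1 := by
      have : 0 ≤ 1 / (p:ℝ) := by positivity
      linarith
    simp only [hδ]
    split_ifs with hpm
    · have hpmR : (p:ℝ) ≤ m := by exact_mod_cast hpm
      calc 1 / (m:ℝ) * (1 - 1 / (p:ℝ)) * ((p - nu T p : ℕ) : ℝ)
          ≤ 1 / (m:ℝ) * 1 * (m:ℝ) := by
            apply mul_le_mul _ (h5.trans hpmR) h50 (by positivity)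
            exact mul_le_mul_of_nonneg_left h6' (by positivity)
        _ = 1 := by field_simp
        _ ≤ _ := h4
    · push Not at hpm
      have hpmR : (m:ℝ) < p := by exact_mod_cast hpm
      have h7 : ((p - nu T p : ℕ) : ℝ) = (p:ℝ) - nu T p := by
        rw [Nat.cast_sub (by omega)]
      have h8 : (p:ℝ) - nu T p - 1 ≤ ((p - nu (insert d T) p : ℕ) : ℝ) := by
        rw [Nat.cast_sub (by omega)]
        have : ((nu (insert d T) p : ℕ) : ℝ) ≤ nu T p + 1 := by exact_mod_cast h2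
        linarith
      refine le_trans ?_ h8
      rw [h7]
      have h9 : ((nu T p : ℕ) : ℝ) ≤ k := by exact_mod_cast h3.trans hT
      have h10 : (0:ℝ) ≤ nu T p := Nat.cast_nonneg _
      set ν : ℝ := (nu T p : ℝ) with hν
      have hp0 : (0:ℝ) < p := by linarith
      rw [hmR] at hpmR
      have h11 : (1 - 2 * k / (p:ℝ) ^ 2) * (1 - 1 / (p:ℝ)) * ((p:ℝ) - ν) =
          (((p:ℝ) ^ 2 - 2 * k) * (p - 1) * (p - ν)) / (p:ℝ) ^ 3 := by
        field_simp
      rw [h11, div_le_iff₀ (by positivity)]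
      -- (p^2-2k)(p-1)(p-ν) ≤ (p-ν-1) p^3
      have h12 : (p - 1) * (p - ν) = (p - ν - 1) * (p:ℝ) + ν := by ring
      have h13 : ((p:ℝ) ^ 2 - 2 * k) * (p - 1) * (p - ν) =
          (p - ν - 1) * (p:ℝ) ^ 3 + ν * (p:ℝ) ^ 2 - 2 * k * ((p - 1) * (p - ν)) := by
        rw [mul_assoc, h12]; ring
      rw [h13]
      have h14 : (p:ℝ) ^ 2 / 2 ≤ (p - 1) * (p - ν) := by
        nlinarith
      have h15 : ν * (p:ℝ) ^ 2 ≤ k * (p:ℝ) ^ 2 := mul_le_mul_of_nonneg_right h9 (by positivity)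
      have h16 := mul_le_mul_of_nonneg_left h14 (by positivity : (0:ℝ) ≤ 2 * k)
      linarith
  have hprod : ∏ p ∈ PPy w, (δ p * (1 - 1 / (p:ℝ)) * ((p - nu T p : ℕ) : ℝ)) ≤
      ∏ p ∈ PPy w, ((p - nu (insert d T) p : ℕ) : ℝ) := by
    refine prod_le_prod (fun p hp => ?_) hterm
    have hpp := PPy_prime w p hp
    have hp2 : (2:ℝ) ≤ p := by exact_mod_cast hpp.two_le
    have h6 : (0:ℝ) ≤ 1 - 1 / (p:ℝ) := by
      have : 1 / (p:ℝ) ≤ 1 := by rw [div_le_one (by linarith)]; linarith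
      linarith
    have hδ0 : 0 ≤ δ p := by
      simp only [hδ]
      split_ifs with hpm
      · positivity
      · push Not at hpm
        have hpmR : (m:ℝ) < p := by exact_mod_cast hpm
        rw [hmR] at hpmR
        have : 2 * (k:ℝ) / (p:ℝ) ^ 2 ≤ 1 := by
          rw [div_le_one (by positivity)]
          nlinarith
        linarith
    positivity
  rw [prod_mul_distrib, prod_mul_distrib, ← B1aux.cW_Wp] at hprod
  have hδprod : (1 / (m:ℝ)) ^ (m + 1) * (1 / 2) ≤ ∏ p ∈ PPy w, δ p := by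
    rw [← prod_filter_mul_prod_filter_not (PPy w) (fun p => p ≤ m)]
    have h1 : ∏ p ∈ (PPy w).filter (fun p => p ≤ m), δ p =
        (1 / (m:ℝ)) ^ ((PPy w).filter (fun p => p ≤ m)).card := by
      rw [← prod_const]
      refine prod_congr rfl fun p hp => ?_
      simp only [hδ]
      rw [if_pos (mem_filter.1 hp).2]
    have h2 : ((PPy w).filter (fun p => p ≤ m)).card ≤ m + 1 := by
      rw [← card_range (m + 1)]
      refine card_le_card fun p hp => ?_
      rw [mem_range]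
      have := (mem_filter.1 hp).2
      omega
    have h3 : ∏ p ∈ (PPy w).filter (fun p => ¬ p ≤ m), δ p =
        ∏ p ∈ (PPy w).filter (fun p => ¬ p ≤ m), (1 - 2 * k / (p:ℝ) ^ 2) := by
      refine prod_congr rfl fun p hp => ?_
      simp only [hδ]
      rw [if_neg (mem_filter.1 hp).2]
    have h4 : (1:ℝ) / 2 ≤ ∏ p ∈ (PPy w).filter (fun p => ¬ p ≤ m), (1 - 2 * k / (p:ℝ) ^ 2) := by
      refine le_trans ?_ (Pool.Agent.HL26.one_sub_sum_le_prod _ (fun p : ℕ => 2 * (k:ℝ) / (p:ℝ) ^ 2)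
        (fun p _ => by positivity) (fun p hp => ?_))
      · have h5 := sum_inv_sq_gt m (by omega) ((PPy w).filter (fun p => ¬ p ≤ m))
          (fun p hp => by have := (mem_filter.1 hp).2; omega)
        have h6 : ∑ p ∈ (PPy w).filter (fun p => ¬ p ≤ m), (2 * (k:ℝ) / (p:ℝ) ^ 2) =
            2 * (k:ℝ) * ∑ p ∈ (PPy w).filter (fun p => ¬ p ≤ m), (1 / (p:ℝ) ^ 2) := by
          rw [mul_sum]
          refine sum_congr rfl fun p _ => ?_
          ring
        rw [h6]
        have h7 := mul_le_mul_of_nonneg_left h5 (by positivity : (0:ℝ) ≤ 2 * k)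
        have h8 : 2 * (k:ℝ) * (1 / m) ≤ 1 / 2 := by
          rw [hmR, mul_one_div, div_le_iff₀ (by positivity)]
          linarith
        linarith
      · have hpmR : (m:ℝ) < p := by
          have := (mem_filter.1 hp).2
          exact_mod_cast (by omega : m < p)
        rw [hmR] at hpmR
        have hp0 : (0:ℝ) < p := by linarith
        show 2 * (k:ℝ) / (p:ℝ) ^ 2 ≤ 1
        rw [div_le_one (by positivity)]
        nlinarith
    rw [h1, h3]
    have h5 : (1 / (m:ℝ)) ^ (m + 1) ≤ (1 / (m:ℝ)) ^ ((PPy w).filter (fun p => p ≤ m)).card := by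
      apply pow_le_pow_of_le_one (by positivity) _ h2
      rw [div_le_one hm0]
      exact_mod_cast (by omega : 1 ≤ m)
    exact mul_le_mul h5 h4 (by norm_num) (by positivity)
  rw [AC_card, AC_card]
  push_cast
  refine le_trans ?_ hprod
  have h1 : (0:ℝ) ≤ cW (Wp w) := cW_nonneg _
  have h2 : (0:ℝ) ≤ ∏ p ∈ PPy w, ((p - nu T p : ℕ) : ℝ) := prod_nonneg fun _ _ => Nat.cast_nonneg _
  exact mul_le_mul_of_nonneg_right (mul_le_mul_of_nonneg_right hδprod h1) h2

end H34P
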