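import Mathlib
import Pool.Agent.H34P.PSg

/-!
The exceptional shifts are few.
-/

set_option autoImplicit false

namespace H34P

open Finset Filter Pool.Agent.HLT Pool.Agent.HL26 Pool.Agent.Maynard

/-- `d` is a bad additional shift for the set `E`, in the classes compatible with `T` and `d` -/
def Bad (N w : ℕ) (κ Λ τ : ℝ) (E T : Finset ℕ) (d : ℕ) : Prop :=
  (4 + κ) / Λ * ∑ a ∈ AC w (insert d T), (Aa N w a E : ℝ) +
      κ * (((AC w (insert d T)).card : ℝ) * τ) <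
    ∑ a ∈ AC w (insert d T), (Aa N w a (insert d E) : ℝ)

/-- few shifts are bad -/
lemma bad_det {N w : ℕ} {κ Λ τ K' C ck c L : ℝ} {E T X : Finset ℕ} (hκ : 0 < κ) (hΛ : 0 < Λ)
    (hΛL : Λ = c * L) (hc : 0 < c) (hck : 0 < ck) (hτ : 0 < τ) (hC : 0 < C) (hK' : 0 < K')
    (hstar : ∀ a, ∀ S ⊆ X, K' * Λ ≤ S.card → ∑ d ∈ S, (Aa N w a (insert d E) : ℝ) ≤
      (4 + κ) / Λ * (S.card * Aa N w a E) + κ / 2 * (S.card * τ))
    (htriv : ∀ a, ∀ d ∈ X, (Aa N w a (insert d E) : ℝ) ≤ C * τ)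
    (hratio : ∀ d ∈ X, ck * c * ((AC w T).card : ℝ) ≤ ((AC w (insert d T)).card : ℝ))
    (hbad : ∀ d ∈ X, Bad N w κ Λ τ E T d) :
    (X.card : ℝ) ≤ 2 * C * K' / (κ * ck) * L := by
  classical
  by_cases hX : X.Nonempty
  swap
  · rw [not_nonempty_iff_eq_empty] at hX
    rw [hX, card_empty, Nat.cast_zero]
    have hL : 0 < L := by
      rw [hΛL] at hΛ
      exact (pos_iff_pos_of_mul_pos hΛ).1 hc
    positivity
  -- the part of `X` compatible with `a`
  set Xa : ℕ → Finset ℕ := fun a => X.filter (fun d => (a + d).Coprime (Wp w)) with hXa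
  have hsw : ∀ f : ℕ → ℕ → ℝ, ∑ d ∈ X, ∑ a ∈ AC w (insert d T), f a d =
      ∑ a ∈ AC w T, ∑ d ∈ Xa a, f a d := by
    intro f
    have h1 : ∀ d ∈ X, ∑ a ∈ AC w (insert d T), f a d =
        ∑ a ∈ AC w T, (if (a + d).Coprime (Wp w) then f a d else 0) := by
      intro d _
      rw [AC_insert, sum_filter]
    rw [sum_congr rfl h1, sum_comm]
    refine sum_congr rfl fun a _ => ?_
    rw [hXa, sum_filter]
  have h1 : ∑ d ∈ X, ((4 + κ) / Λ * ∑ a ∈ AC w (insert d T), (Aa N w a E : ℝ) +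
      κ * (((AC w (insert d T)).card : ℝ) * τ)) <
      ∑ d ∈ X, ∑ a ∈ AC w (insert d T), (Aa N w a (insert d E) : ℝ) :=
    sum_lt_sum_of_nonempty hX hbad
  have h2 : ∑ d ∈ X, ((4 + κ) / Λ * ∑ a ∈ AC w (insert d T), (Aa N w a E : ℝ) +
      κ * (((AC w (insert d T)).card : ℝ) * τ)) =
      ∑ a ∈ AC w T, ((4 + κ) / Λ * ((Xa a).card * Aa N w a E) + κ * ((Xa a).card * τ)) := by
    have h3 := hsw (fun a _ => (4 + κ) / Λ * (Aa N w a E : ℝ) + κ * τ)
    have h4 : ∀ d ∈ X, (4 + κ) / Λ * ∑ a ∈ AC w (insert d T), (Aa N w a E : ℝ) +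
        κ * (((AC w (insert d T)).card : ℝ) * τ) =
        ∑ a ∈ AC w (insert d T), ((4 + κ) / Λ * (Aa N w a E : ℝ) + κ * τ) := by
      intro d _
      rw [sum_add_distrib, ← mul_sum, sum_const, nsmul_eq_mul]
      ring
    rw [sum_congr rfl h4, h3]
    refine sum_congr rfl fun a _ => ?_
    rw [sum_const, nsmul_eq_mul]
    ring
  rw [h2, hsw] at h1
  have h5 : ∀ a ∈ AC w T, ∑ d ∈ Xa a, (Aa N w a (insert d E) : ℝ) ≤
      (4 + κ) / Λ * ((Xa a).card * Aa N w a E) + κ / 2 * ((Xa a).card * τ) + C * K' * Λ * τ := by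
    intro a _
    have hsub : Xa a ⊆ X := filter_subset _ _
    by_cases hbig : K' * Λ ≤ (Xa a).card
    · have := hstar a (Xa a) hsub hbig
      have h6 : 0 ≤ C * K' * Λ * τ := by positivity
      linarith
    · push Not at hbig
      have h6 : ∑ d ∈ Xa a, (Aa N w a (insert d E) : ℝ) ≤ ∑ d ∈ Xa a, C * τ :=
        sum_le_sum fun d hd => htriv a d (hsub hd)
      rw [sum_const, nsmul_eq_mul] at h6
      have h7 : ((Xa a).card : ℝ) * (C * τ) ≤ (K' * Λ) * (C * τ) :=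
        mul_le_mul_of_nonneg_right hbig.le (by positivity)
      have h8 : 0 ≤ (4 + κ) / Λ * ((Xa a).card * Aa N w a E) + κ / 2 * ((Xa a).card * τ) := by
        positivity
      linarith
  have h6 := sum_le_sum h5
  have h7 : ∑ a ∈ AC w T, ((4 + κ) / Λ * ((Xa a).card * Aa N w a E) + κ * ((Xa a).card * τ)) <
      ∑ a ∈ AC w T, ((4 + κ) / Λ * ((Xa a).card * Aa N w a E) + κ / 2 * ((Xa a).card * τ) +
        C * K' * Λ * τ) := lt_of_lt_of_le h1 h6
  have h8 : ∑ a ∈ AC w T, (κ / 2 * ((Xa a).card * τ)) < ∑ a ∈ AC w T, (C * K' * Λ * τ) := by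
    have e1 : ∀ a, (4 + κ) / Λ * ((Xa a).card * Aa N w a E) + κ * ((Xa a).card * τ) =
        ((4 + κ) / Λ * ((Xa a).card * Aa N w a E) + κ / 2 * ((Xa a).card * τ)) +
          κ / 2 * ((Xa a).card * τ) := by
      intro a; ring
    simp_rw [e1] at h7
    rw [sum_add_distrib, sum_add_distrib (g := fun _ => C * K' * Λ * τ)] at h7
    linarith
  have h9 : ∑ a ∈ AC w T, (κ / 2 * ((Xa a).card * τ)) =
      κ / 2 * τ * ∑ d ∈ X, ((AC w (insert d T)).card : ℝ) := by
    have h10 := hsw (fun _ _ => (1:ℝ))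
    simp only [sum_const, nsmul_eq_mul, mul_one] at h10
    rw [h10, mul_sum]
    refine sum_congr rfl fun a _ => ?_
    ring
  rw [h9, sum_const, nsmul_eq_mul] at h8
  have h11 : (X.card : ℝ) * (ck * c * ((AC w T).card : ℝ)) ≤
      ∑ d ∈ X, ((AC w (insert d T)).card : ℝ) := by
    rw [← nsmul_eq_mul, ← sum_const]
    exact sum_le_sum hratio
  have h12 := mul_le_mul_of_nonneg_left h11 (by positivity : 0 ≤ κ / 2 * τ)
  have h13 : κ / 2 * τ * ((X.card : ℝ) * (ck * c * ((AC w T).card : ℝ))) <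
      ((AC w T).card : ℝ) * (C * K' * Λ * τ) := lt_of_le_of_lt h12 h8
  have hAC : (0:ℝ) < (AC w T).card := by
    by_contra h
    push Not at h
    have h0 : ((AC w T).card : ℝ) = 0 := le_antisymm h (Nat.cast_nonneg _)
    rw [h0] at h13
    simp at h13
  have h14 : κ * ck * (X.card : ℝ) < 2 * C * K' * L := by
    have e2 : κ / 2 * τ * ((X.card : ℝ) * (ck * c * ((AC w T).card : ℝ))) =
        (κ * ck * (X.card : ℝ)) * (c * τ * ((AC w T).card : ℝ) / 2) := by ring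
    have e3 : ((AC w T).card : ℝ) * (C * K' * Λ * τ) =
        (2 * C * K' * L) * (c * τ * ((AC w T).card : ℝ) / 2) := by
      rw [hΛL]; ring
    rw [e2, e3] at h13
    exact lt_of_mul_lt_mul_right h13 (by positivity)
  have h15 : (X.card : ℝ) < 2 * C * K' * L / (κ * ck) := by
    rw [lt_div_iff₀ (by positivity)]
    linarith
  have e4 : 2 * C * K' / (κ * ck) * L = 2 * C * K' * L / (κ * ck) := by ring
  rw [e4]
  exact h15.le

/-- the chain: a set with no bad step -/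
lemma chain_det {N w : ℕ} {κ Λ t : ℝ} {D : Finset ℕ} (hκ : 0 < κ) (hΛ : 0 < Λ) (ht : 0 ≤ t)
    (h0 : ∑ a ∈ AC w (insert 0 D), (Aa N w a {0} : ℝ) ≤
      (1 + κ) * (((AC w (insert 0 D)).card : ℝ) * (t / Λ)))
    (hnb : ∀ d ∈ D, ∀ E ⊆ insert 0 (D.erase d), 0 ∈ E → d ∉ E →
      ¬ Bad N w κ Λ (t / Λ ^ (E.card + 1)) E (insert 0 (D.erase d)) d) (hD0 : 0 ∉ D) :
    ∀ E ⊆ D, ∑ a ∈ AC w (insert 0 D), (Aa N w a (insert 0 E) : ℝ) ≤
      (4 + 2 * κ) ^ E.card * (1 + κ) * (((AC w (insert 0 D)).card : ℝ) * (t / Λ ^ (E.card + 1))) := by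
  intro E
  induction E using Finset.induction_on with
  | empty =>
    intro _
    rw [card_empty, pow_zero, one_mul, zero_add, pow_one]
    exact h0
  | insert d E hd ih =>
    intro hsub
    have hdD : d ∈ D := hsub (mem_insert_self _ _)
    have hED : E ⊆ D := fun x hx => hsub (mem_insert_of_mem hx)
    have ih' := ih hED
    have hd0 : d ≠ 0 := fun h => hD0 (h ▸ hdD)
    have h0E : 0 ∉ E := fun h => hD0 (hED h)
    have hE1 : insert 0 E ⊆ insert 0 (D.erase d) := by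
      intro x hx
      rw [mem_insert] at hx ⊢
      rcases hx with h | h
      · exact Or.inl h
      · exact Or.inr (mem_erase.2 ⟨fun hh => hd (hh ▸ h), hED h⟩)
    have hdE : d ∉ insert 0 E := by
      rw [mem_insert, not_or]
      exact ⟨hd0, hd⟩
    have h1 := hnb d hdD (insert 0 E) hE1 (mem_insert_self _ _) hdE
    unfold Bad at h1
    push Not at h1
    have e1 : insert d (insert 0 (D.erase d)) = insert 0 D := by
      rw [insert_comm, insert_erase hdD]
    have e2 : (insert 0 E).card = E.card + 1 := card_insert_of_notMem h0E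
    have e3 : (insert d E).card = E.card + 1 := card_insert_of_notMem hd
    rw [e1, e2] at h1
    rw [e3, insert_comm]
    refine h1.trans ?_
    set n : ℝ := ((AC w (insert 0 D)).card : ℝ) with hn
    have hn0 : 0 ≤ n := Nat.cast_nonneg _
    have h2 := mul_le_mul_of_nonneg_left ih' (by positivity : 0 ≤ (4 + κ) / Λ)
    have e4 : (4 + κ) / Λ * ((4 + 2 * κ) ^ E.card * (1 + κ) * (n * (t / Λ ^ (E.card + 1)))) =
        (4 + κ) * ((4 + 2 * κ) ^ E.card * (1 + κ)) * (n * (t / Λ ^ (E.card + 1 + 1))) := by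
      rw [pow_succ Λ (E.card + 1)]
      field_simp
    rw [e4] at h2
    have h3 : 1 ≤ (4 + 2 * κ) ^ E.card * (1 + κ) := by
      have := one_le_pow₀ (by linarith : 1 ≤ 4 + 2 * κ) (n := E.card)
      nlinarith
    have h4 : 0 ≤ n * (t / Λ ^ (E.card + 1 + 1)) := by positivity
    have h5 : κ * (n * (t / Λ ^ (E.card + 1 + 1))) ≤
        κ * ((4 + 2 * κ) ^ E.card * (1 + κ)) * (n * (t / Λ ^ (E.card + 1 + 1))) := by
      rw [mul_assoc]
      refine mul_le_mul_of_nonneg_left ?_ hκ.le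
      exact le_mul_of_one_le_left h4 h3
    calc _ ≤ (4 + κ) * ((4 + 2 * κ) ^ E.card * (1 + κ)) * (n * (t / Λ ^ (E.card + 1 + 1))) +
          κ * ((4 + 2 * κ) ^ E.card * (1 + κ)) * (n * (t / Λ ^ (E.card + 1 + 1))) :=
          add_le_add h2 h5
      _ = (4 + 2 * κ) ^ (E.card + 1) * (1 + κ) * (n * (t / Λ ^ (E.card + 1 + 1))) := by
          rw [pow_succ (4 + 2 * κ)]
          ring

end H34P
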