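import Mathlib
import Pool.Agent.H34P.PSf2
import Pool.Agent.H34P.PSg2
import Pool.Agent.HL26.Defs

/-!
One dyadic block: all but few of the `k`-subsets of any set.
-/

set_option autoImplicit false

namespace H34P

open Finset Filter Pool.Agent.HLT Pool.Agent.HL26 Pool.Agent.Maynard

lemma exists_kappa (k : ℕ) (ε : ℝ) (hε : 0 < ε) : ∃ κ : ℝ, 0 < κ ∧ κ ≤ 1 ∧
    (4 + 2 * κ) ^ k * (1 + κ) ^ 2 ≤ 4 ^ k + ε := by
  have h1 : Tendsto (fun κ : ℝ => (4 + 2 * κ) ^ k * (1 + κ) ^ 2) (nhds 0)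
      (nhds ((4 + 2 * 0) ^ k * (1 + 0) ^ 2)) := by
    apply Continuous.tendsto
    fun_prop
  have h2 : ((4:ℝ) + 2 * 0) ^ k * (1 + 0) ^ 2 < 4 ^ k + ε := by
    norm_num
    exact hε
  have h3 := h1.eventually_lt_const h2
  obtain ⟨δ, hδ, h4⟩ := Metric.eventually_nhds_iff.1 h3
  refine ⟨min (δ / 2) 1, by positivity, min_le_right _ _, ?_⟩
  refine (h4 ?_).le
  rw [Real.dist_eq, sub_zero, abs_of_pos (by positivity)]
  have := min_le_left (δ / 2) 1
  linarith

/-- the counting of the exceptional sets -/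
lemma exc_card {k : ℕ} (hk : 1 ≤ k) (B : Finset ℕ) (P : Finset ℕ → Finset ℕ → ℕ → Prop) (M : ℝ)
    (hM : 0 ≤ M)
    (h : ∀ D' ∈ B.powersetCard (k - 1), ∀ E ⊆ insert 0 D', ∀ S ⊆ B,
      (∀ d ∈ S, d ∉ D' ∧ P E D' d) → (S.card : ℝ) ≤ M) :
    ∃ X : Finset (Finset ℕ), (X.card : ℝ) ≤ 2 ^ k * (B.card : ℝ) ^ (k - 1) * M ∧
      ∀ D ∈ B.powersetCard k, (∃ d ∈ D, ∃ E ⊆ insert 0 (D.erase d), P E (D.erase d) d) → D ∈ X := by
  classical
  refine ⟨(B.powersetCard (k - 1)).biUnion (fun D' => (insert 0 D').powerset.biUnion (fun E =>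
        (B.filter (fun d => d ∉ D' ∧ P E D' d)).image (fun d => insert d D'))), ?_, ?_⟩
  swap
  · intro D hD hE
    rw [mem_powersetCard] at hD
    obtain ⟨d, hdD, E, hE, hP⟩ := hE
    rw [mem_biUnion]
    refine ⟨D.erase d, ?_, ?_⟩
    · rw [mem_powersetCard]
      refine ⟨(erase_subset _ _).trans hD.1, ?_⟩
      rw [card_erase_of_mem hdD, hD.2]
    · rw [mem_biUnion]
      refine ⟨E, mem_powerset.2 hE, ?_⟩
      rw [mem_image]
      exact ⟨d, mem_filter.2 ⟨hD.1 hdD, notMem_erase d D, hP⟩, insert_erase hdD⟩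
  have h1 : (((B.powersetCard (k - 1)).biUnion (fun D' => (insert 0 D').powerset.biUnion (fun E =>
        (B.filter (fun d => d ∉ D' ∧ P E D' d)).image (fun d => insert d D')))).card : ℝ) ≤
        ∑ D' ∈ B.powersetCard (k - 1), ∑ E ∈ (insert 0 D').powerset,
        ((B.filter (fun d => d ∉ D' ∧ P E D' d)).card : ℝ) := by
    have h3 : ∑ D' ∈ B.powersetCard (k - 1), ((insert 0 D').powerset.biUnion (fun E =>
        (B.filter (fun d => d ∉ D' ∧ P E D' d)).image (fun d => insert d D'))).card ≤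
        ∑ D' ∈ B.powersetCard (k - 1), ∑ E ∈ (insert 0 D').powerset,
          (B.filter (fun d => d ∉ D' ∧ P E D' d)).card := by
      refine sum_le_sum fun D' _ => card_biUnion_le.trans ?_
      exact sum_le_sum fun E _ => card_image_le
    exact_mod_cast card_biUnion_le.trans h3
  refine h1.trans ?_
  have h4 : ∀ D' ∈ B.powersetCard (k - 1), ∑ E ∈ (insert 0 D').powerset,
        ((B.filter (fun d => d ∉ D' ∧ P E D' d)).card : ℝ) ≤ 2 ^ k * M := by
    intro D' hD'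
    have h5 : ∑ E ∈ (insert 0 D').powerset,
        ((B.filter (fun d => d ∉ D' ∧ P E D' d)).card : ℝ) ≤ ∑ E ∈ (insert 0 D').powerset, M :=
      sum_le_sum fun E hE => h D' hD' E (mem_powerset.1 hE) _ (filter_subset _ _)
        fun d hd => (mem_filter.1 hd).2
    refine h5.trans ?_
    rw [sum_const, nsmul_eq_mul, card_powerset]
    refine mul_le_mul_of_nonneg_right ?_ hM
    have h6 : (insert 0 D').card ≤ k := by
      have := card_insert_le 0 D'
      have h7 := (mem_powersetCard.1 hD').2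
      omega
    exact_mod_cast Nat.pow_le_pow_right (by norm_num) h6
  refine (sum_le_sum h4).trans ?_
  rw [sum_const, nsmul_eq_mul, card_powersetCard]
  have h8 : ((B.card.choose (k - 1) : ℕ) : ℝ) ≤ (B.card : ℝ) ^ (k - 1) := by
    exact_mod_cast Nat.choose_le_pow _ _
  have h9 : 0 ≤ 2 ^ k * M := by positivity
  calc ((B.card.choose (k - 1) : ℕ) : ℝ) * (2 ^ k * M) ≤ (B.card : ℝ) ^ (k - 1) * (2 ^ k * M) :=
        mul_le_mul_of_nonneg_right h8 h9
    _ = 2 ^ k * (B.card : ℝ) ^ (k - 1) * M := by ring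

lemma final_arith {k : ℕ} {κ ε n W c L N SPv S cnt q : ℝ} (hκ : 0 < κ) (hκ1 : κ ≤ 1)
    (hW : 0 < W) (hc : 0 < c) (hL : 0 < L) (hN : 0 < N)
    (hcnt : cnt ≤ (4 + 2 * κ) ^ k * (1 + κ) * (n * ((N / W) / (c * L) ^ (k + 1))))
    (hn : n = W * c ^ (k + 1) * SPv) (hSP : 0 ≤ SPv) (hq : q ≤ κ / 2) (hS : (1 - q) * SPv ≤ S)
    (hfin : (4 + 2 * κ) ^ k * (1 + κ) ^ 2 ≤ 4 ^ k + ε) :
    cnt ≤ (4 ^ k + ε) * S * (N / L ^ (k + 1)) := by
  have h1 : SPv ≤ (1 + κ) * S := by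
    have h2 : 1 ≤ (1 + κ) * (1 - q) := by nlinarith
    have h3 : SPv ≤ (1 + κ) * (1 - q) * SPv := le_mul_of_one_le_left hSP h2
    have h4 := mul_le_mul_of_nonneg_left hS (by linarith : 0 ≤ 1 + κ)
    linarith
  have h2 : n * ((N / W) / (c * L) ^ (k + 1)) = SPv * (N / L ^ (k + 1)) := by
    rw [hn, mul_pow]
    field_simp
  rw [h2] at hcnt
  have h3 : 0 ≤ N / L ^ (k + 1) := by positivity
  have h4 : 0 ≤ (4 + 2 * κ) ^ k * (1 + κ) := by positivity
  have hS0 : 0 ≤ S := by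
    have : 0 ≤ (1 + κ) * S := hSP.trans h1
    by_contra h
    push Not at h
    nlinarith
  calc cnt ≤ (4 + 2 * κ) ^ k * (1 + κ) * (SPv * (N / L ^ (k + 1))) := hcnt
    _ ≤ (4 + 2 * κ) ^ k * (1 + κ) * (((1 + κ) * S) * (N / L ^ (k + 1))) :=
        mul_le_mul_of_nonneg_left (mul_le_mul_of_nonneg_right h1 h3) h4
    _ = ((4 + 2 * κ) ^ k * (1 + κ) ^ 2) * (S * (N / L ^ (k + 1))) := by ring
    _ ≤ (4 ^ k + ε) * (S * (N / L ^ (k + 1))) :=
        mul_le_mul_of_nonneg_right hfin (by positivity)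
    _ = (4 ^ k + ε) * S * (N / L ^ (k + 1)) := by ring

/-- one dyadic block -/
theorem block_bound (k : ℕ) (hk : 1 ≤ k) (ε : ℝ) (hε : 0 < ε) : ∃ K : ℝ, 0 < K ∧ ∀ A : ℕ,
    ∀ᶠ N : ℕ in atTop, ∀ B : Finset ℕ, (∀ b ∈ B, 1 ≤ b ∧ (b:ℝ) ≤ (Real.log N) ^ A) →
    ∃ X : Finset (Finset ℕ), (X.card : ℝ) ≤ K * (B.card : ℝ) ^ (k - 1) * Real.log N ∧
      ∀ D ∈ B.powersetCard k, (∀ p : ℕ, p.Prime → nu (insert 0 D) p < p) → D ∉ X →
        (((Ioc N (2 * N)).filter (fun n => ∀ e ∈ insert 0 D, (n + e).Prime)).card : ℝ) ≤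
          (4 ^ k + ε) * singularSeries (insert 0 D) * ((N:ℝ) / (Real.log N) ^ (k + 1)) := by
  classical
  obtain ⟨κ, hκ, hκ1, hκε⟩ := exists_kappa k ε hε
  obtain ⟨K', hK', C, hC, hstar⟩ := star k (κ / 2) (by positivity) (by linarith)
  obtain ⟨ck, hck, hratio⟩ := AC_ratio k
  have hM0 : 0 < 2 * C * K' / (κ * ck) := by positivity
  refine ⟨2 ^ k * (2 * C * K' / (κ * ck)), by positivity, fun A => ?_⟩
  obtain ⟨w1, hw1⟩ := exists_nat_ge (2 * ((k:ℝ) + 1) ^ 2 / κ)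
  filter_upwards [hstar A, ev_primes κ hκ, ev_w_ge (max w1 2), ev_Wp_le,
    tendsto_logN.eventually_ge_atTop 1, ev_pow_le_self 1] with N h1 h2 h3 h4 h5 h6 B hB
  have hL0 : 0 < Real.log N := by linarith
  have hL0' : (0:ℝ) ≤ Real.log N ^ A := by positivity
  have hNpos : (0:ℝ) < N := by
    rw [pow_one] at h6
    linarith
  have hc0 := cW_pos' (wN N)
  have hΛ0 : 0 < cW (Wp (wN N)) * Real.log N := mul_pos hc0 hL0
  have hW0 : (0:ℝ) < Wp (wN N) := by exact_mod_cast SelDAux.Wp_pos (wN N)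
  have hWN : Wp (wN N) ≤ N := by
    have h7 : Real.sqrt (Real.log N) ≤ Real.log N := by
      rw [Real.sqrt_le_left (by linarith)]
      nlinarith
    rw [pow_one] at h6
    exact_mod_cast h4.trans (h7.trans h6)
  have hw2 : 2 ≤ wN N := (le_max_right _ _).trans h3
  have hwR : (0:ℝ) < wN N := by exact_mod_cast (by omega : 0 < wN N)
  have hq : ((k:ℝ) + 1) ^ 2 / wN N ≤ κ / 2 := by
    have h7 : 2 * ((k:ℝ) + 1) ^ 2 / κ ≤ wN N := hw1.trans (by exact_mod_cast (le_max_left _ _).trans h3)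
    rw [div_le_iff₀ hκ] at h7
    rw [div_le_iff₀ hwR]
    linarith
  have hBA : ∀ D' ⊆ B, ∀ E ⊆ insert 0 D', ∀ e ∈ E, (e:ℝ) ≤ Real.log N ^ A := by
    intro D' hD' E hE e he
    have := hE he
    rw [mem_insert] at this
    rcases this with rfl | h
    · simpa using hL0'
    · exact (hB e (hD' h)).2
  -- the exceptional family
  obtain ⟨P, hP⟩ : ∃ P : Finset ℕ → Finset ℕ → ℕ → Prop, ∀ E D' d, P E D' d ↔
      ((∀ p : ℕ, p.Prime → nu (insert d (insert 0 D')) p < p) ∧ 0 ∈ E ∧ d ∉ E ∧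
      Bad N (wN N) κ (cW (Wp (wN N)) * Real.log N)
        (((N:ℝ) / Wp (wN N)) / (cW (Wp (wN N)) * Real.log N) ^ (E.card + 1)) E (insert 0 D') d) :=
    ⟨fun E D' d => (∀ p : ℕ, p.Prime → nu (insert d (insert 0 D')) p < p) ∧ 0 ∈ E ∧ d ∉ E ∧
      Bad N (wN N) κ (cW (Wp (wN N)) * Real.log N)
        (((N:ℝ) / Wp (wN N)) / (cW (Wp (wN N)) * Real.log N) ^ (E.card + 1)) E (insert 0 D') d,
      fun _ _ _ => Iff.rfl⟩
  obtain ⟨X, hXc, hX⟩ := exc_card hk B P (2 * C * K' / (κ * ck) * Real.log N) (by positivity) (by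
      intro D' hD' E hE S0 hS0 hP0
      rw [mem_powersetCard] at hD'
      have hEk : E.card ≤ k := by
        have h8 := card_le_card hE
        have h9 := card_insert_le 0 D'
        omega
      have hTk : (insert 0 D').card ≤ k := by
        have h9 := card_insert_le 0 D'
        omega
      have hτ : 0 < ((N:ℝ) / Wp (wN N)) / (cW (Wp (wN N)) * Real.log N) ^ (E.card + 1) := by
        positivity
      refine bad_det (N := N) (w := wN N) (E := E) (T := insert 0 D') hκ hΛ0 rfl hc0 hck hτ hC hK'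
        ?_ ?_ ?_ ?_
      · intro a S hS hSc
        have h8 := (h1 a E hEk (hBA D' hD'.1 E hE)).1 S
          (fun d hd => (hB d (hS0 (hS hd))).2)
          (fun d hd => ((hP _ _ _).1 (hP0 d (hS hd)).2).2.2.1) hSc
        refine h8.trans (add_le_add ?_ le_rfl)
        refine mul_le_mul_of_nonneg_right ?_ (by positivity)
        exact div_le_div_of_nonneg_right (by linarith) hΛ0.le
      · intro a d hd
        exact (h1 a E hEk (hBA D' hD'.1 E hE)).2 d (hB d (hS0 hd)).2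
          ((hP _ _ _).1 (hP0 d hd).2).2.2.1
      · intro d hd
        exact hratio (wN N) (insert 0 D') d hTk ((hP _ _ _).1 (hP0 d hd).2).1
      · intro d hd
        exact ((hP _ _ _).1 (hP0 d hd).2).2.2.2)
  refine ⟨X, ?_, ?_⟩
  · refine hXc.trans (le_of_eq ?_)
    ring
  · intro D hD hadm hDX
    rw [mem_powersetCard] at hD
    have hD0 : 0 ∉ D := fun h => by
      have := (hB 0 (hD.1 h)).1
      omega
    have hcardT : (insert 0 D).card = k + 1 := by
      rw [card_insert_of_notMem hD0, hD.2]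
    have hnb : ∀ d ∈ D, ∀ E ⊆ insert 0 (D.erase d), 0 ∈ E → d ∉ E →
        ¬ Bad N (wN N) κ (cW (Wp (wN N)) * Real.log N)
          (((N:ℝ) / Wp (wN N)) / (cW (Wp (wN N)) * Real.log N) ^ (E.card + 1)) E
          (insert 0 (D.erase d)) d := by
      intro d hd E hE h0 hdE hbad
      apply hDX
      refine hX D (mem_powersetCard.2 hD) ⟨d, hd, E, hE, (hP _ _ _).2 ⟨?_, h0, hdE, hbad⟩⟩
      rw [insert_comm, insert_erase hd]
      exact hadm
    have hbase : ∑ a ∈ AC (wN N) (insert 0 D), (Aa N (wN N) a {0} : ℝ) ≤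
        (1 + κ) * (((AC (wN N) (insert 0 D)).card : ℝ) *
          (((N:ℝ) / Wp (wN N)) / (cW (Wp (wN N)) * Real.log N))) := by
      have h8 : ∀ a ∈ AC (wN N) (insert 0 D), (Aa N (wN N) a {0} : ℝ) ≤
          (1 + κ) * (((N:ℝ) / Wp (wN N)) / (cW (Wp (wN N)) * Real.log N)) := by
        intro a ha
        have h9 := (mem_filter.1 ha).2 0 (mem_insert_self _ _)
        rw [add_zero] at h9
        have h10 := h2 a h9
        unfold Aa AE
        simpa using h10
      refine (sum_le_sum h8).trans (le_of_eq ?_)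
      rw [sum_const, nsmul_eq_mul]
      ring
    have h11 := chain_det hκ hΛ0 (by positivity) hbase hnb hD0 D (Subset.refl D)
    rw [hD.2] at h11
    have h12 := (block_le_classes hWN (insert 0 D)).trans h11
    have h13 := AC_card_SP (wN N) (insert 0 D)
    have h14 := singularSeries_ge (insert 0 D) (wN N) (by omega)
    rw [hcardT] at h13 h14
    push_cast at h14
    exact final_arith hκ hκ1 hW0 hc0 hL0 hNpos h12 h13 (SP_nonneg _ (PPy_prime _) _) hq h14 hκε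

end H34P
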