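import Mathlib
import Pool.Agent.H34P.PSh
import Pool.Agent.HLT.ApShift

set_option autoImplicit false

namespace H34P

open Finset Filter Pool.Agent.HL26 Pool.Agent.HLT

/-- the logarithm of a block -/
lemma log_block (i : ℕ) {x : ℝ} (hx : 1 ≤ x) (hN : 1 ≤ ⌊x⌋₊ / 2 ^ (i + 1)) :
    Real.log x ≤ Real.log ((⌊x⌋₊ / 2 ^ (i + 1) : ℕ) : ℝ) + (i + 2) * Real.log 2 := by
  set N := ⌊x⌋₊ / 2 ^ (i + 1) with hNd
  have h1 : x < ⌊x⌋₊ + 1 := Nat.lt_floor_add_one x
  have h2 : ⌊x⌋₊ < 2 ^ (i + 1) * (N + 1) := by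
    rw [hNd]
    exact Nat.lt_mul_div_succ _ (by positivity)
  have h3 : ⌊x⌋₊ + 1 ≤ 2 ^ (i + 2) * N := by
    calc ⌊x⌋₊ + 1 ≤ 2 ^ (i + 1) * (N + 1) := h2
      _ ≤ 2 ^ (i + 1) * (N + N) := Nat.mul_le_mul_left _ (by omega)
      _ = 2 ^ (i + 2) * N := by ring
  have h4 : x ≤ 2 ^ (i + 2) * (N : ℝ) := by
    have : ((⌊x⌋₊ + 1 : ℕ) : ℝ) ≤ ((2 ^ (i + 2) * N : ℕ) : ℝ) := by exact_mod_cast h3
    push_cast at this
    linarith
  have hN0 : (0:ℝ) < N := by exact_mod_cast hN
  calc Real.log x ≤ Real.log (2 ^ (i + 2) * (N : ℝ)) := Real.log_le_log (by linarith) h4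
    _ = Real.log N + (i + 2) * Real.log 2 := by
        rw [Real.log_mul (by positivity) hN0.ne', Real.log_pow]
        push_cast
        ring

lemma tendsto_block (i : ℕ) : Tendsto (fun x : ℝ => ⌊x⌋₊ / 2 ^ (i + 1)) atTop atTop :=
  (Nat.tendsto_div_const_atTop (by positivity)).comp tendsto_nat_floor_atTop

/-- the asymptotics of the logarithm of a block -/
lemma ev_block (i A r : ℕ) (δ : ℝ) (hδ : 0 < δ) (P : ℕ → Prop) (hP : ∀ᶠ N : ℕ in atTop, P N) :
    ∀ᶠ x : ℝ in atTop, P (⌊x⌋₊ / 2 ^ (i + 1)) ∧ 2 ≤ ⌊x⌋₊ / 2 ^ (i + 1) ∧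
      (Real.log x) ^ A ≤ (Real.log ((⌊x⌋₊ / 2 ^ (i + 1) : ℕ) : ℝ)) ^ (A + 1) ∧
      (Real.log x / Real.log ((⌊x⌋₊ / 2 ^ (i + 1) : ℕ) : ℝ)) ^ r ≤ 1 + δ ∧
      Real.log ((⌊x⌋₊ / 2 ^ (i + 1) : ℕ) : ℝ) ≤ Real.log x := by
  have hlogN : Tendsto (fun N : ℕ => Real.log (N : ℝ)) atTop atTop :=
    Real.tendsto_log_atTop.comp tendsto_natCast_atTop_atTop
  have h1 : Tendsto (fun N : ℕ => (1 + ((i + 2) * Real.log 2) / Real.log (N : ℝ)) ^ r) atTop
      (nhds 1) := by
    have h : Tendsto (fun N : ℕ => (1 + ((i + 2) * Real.log 2) / Real.log (N : ℝ)) ^ r) atTop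
        (nhds ((1 + 0) ^ r)) :=
      (tendsto_const_nhds.add (tendsto_const_nhds.div_atTop hlogN)).pow r
    simpa using h
  have h2 := h1.eventually (Iic_mem_nhds (show (1:ℝ) < 1 + δ by linarith))
  have h3 := hlogN.eventually_ge_atTop ((i + 2) * Real.log 2)
  have h4 := hlogN.eventually_ge_atTop (2 ^ A)
  have h5 := hP.and (h2.and (h3.and (h4.and (eventually_ge_atTop 2))))
  filter_upwards [(tendsto_block i).eventually h5, eventually_ge_atTop 1] with x hx hx1
  obtain ⟨a1, a2, a3, a4, a5⟩ := hx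
  set N := ⌊x⌋₊ / 2 ^ (i + 1) with hN
  have hl := log_block i hx1 (by omega)
  rw [← hN] at hl
  have hx0 : 0 ≤ Real.log x := Real.log_nonneg hx1
  have hNpos : 0 < Real.log (N : ℝ) := Real.log_pos (by exact_mod_cast (by omega : 1 < N))
  have hNx : (N : ℝ) ≤ x := by
    have h6 : (N : ℝ) ≤ (⌊x⌋₊ : ℝ) := by
      exact_mod_cast Nat.div_le_self _ _
    exact h6.trans (Nat.floor_le (by linarith))
  refine ⟨a1, a5, ?_, ?_, Real.log_le_log (by exact_mod_cast (by omega : 0 < N)) hNx⟩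
  · calc (Real.log x) ^ A ≤ (2 * Real.log (N : ℝ)) ^ A := by
          apply pow_le_pow_left₀ hx0
          linarith
      _ = 2 ^ A * (Real.log (N : ℝ)) ^ A := mul_pow _ _ _
      _ ≤ Real.log (N : ℝ) * (Real.log (N : ℝ)) ^ A :=
          mul_le_mul_of_nonneg_right a4 (by positivity)
      _ = (Real.log (N : ℝ)) ^ (A + 1) := by ring
  · refine le_trans ?_ a2
    apply pow_le_pow_left₀ (div_nonneg hx0 hNpos.le)
    rw [div_le_iff₀ hNpos]
    have : (1 + (i + 2) * Real.log 2 / Real.log (N : ℝ)) * Real.log (N : ℝ) =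
        Real.log (N : ℝ) + (i + 2) * Real.log 2 := by
      field_simp
    rw [this]
    exact hl

lemma exists_pow_small (C ε : ℝ) (hε : 0 < ε) : ∃ I : ℕ, C / 2 ^ I ≤ ε := by
  have h : Tendsto (fun I : ℕ => C / 2 ^ I) atTop (nhds 0) :=
    tendsto_const_nhds.div_atTop (tendsto_pow_atTop_atTop_of_one_lt (by norm_num))
  exact (h.eventually (Iic_mem_nhds hε)).exists

lemma sum_half (I : ℕ) : ∑ i ∈ Finset.range I, (1 / 2 ^ (i + 1) : ℝ) ≤ 1 := by
  have h : ∑ i ∈ Finset.range I, (1 / 2 ^ (i + 1) : ℝ) = 1 - 1 / 2 ^ I := by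
    induction I with
    | zero => simp
    | succ I ih =>
      rw [Finset.sum_range_succ, ih]
      have : (2:ℝ) ^ I ≠ 0 := by positivity
      field_simp
      ring
  rw [h]
  have : (0:ℝ) ≤ 1 / 2 ^ I := by positivity
  linarith

open Classical in
/-- For all `k ≥ 1`, `ε > 0` there is `K` such that for every `A`, all large `x` and every finite
set `B` of integers in `[1, (log x)^A]`: all but at most `K |B|^(k-1) log x` of the `k`-subsets `D`
of `B` with `{0} ∪ D` admissible satisfy `π(x, {0} ∪ D) ≤ (4^k + ε) 𝔖 x/(log x)^(k+1)`. -/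
theorem upper_every_set (k : ℕ) (hk : 1 ≤ k) (ε : ℝ) (hε : 0 < ε) : ∃ K : ℝ, ∀ A : ℕ,
    ∃ X : ℝ, ∀ x : ℝ, X ≤ x → ∀ B : Finset ℕ, (∀ b ∈ B, 1 ≤ b ∧ (b:ℝ) ≤ (Real.log x) ^ A) →
      (((B.powersetCard k).filter (fun D =>
        (∀ p : ℕ, p.Prime → nu (insert 0 D) p < p) ∧
        (4 ^ k + ε) * (singularSeries (insert 0 D) * (x / (Real.log x) ^ (k + 1))) <
          (tupleCount x (insert 0 D) : ℝ))).card : ℝ) ≤
      K * (B.card : ℝ) ^ (k - 1) * Real.log x := by
  obtain ⟨C, hC, hblk⟩ := tupleCount_blocks (k + 1) (by omega)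
  obtain ⟨c, hc, hlow⟩ := exists_singularSeries_lower (k + 1)
  obtain ⟨I0, hI0⟩ := exists_pow_small C (ε / 4) (by positivity)
  obtain ⟨K, hK, hbb⟩ := block_bound k hk (ε / 4) (by positivity)
  set M : ℝ := 4 ^ k with hM
  have hM0 : 0 < M := by positivity
  set δ : ℝ := (ε / 4) / (M + ε / 4) with hδ
  have hδ0 : 0 < δ := by positivity
  have hδ1 : (1 + δ) * (M + ε / 4) = M + ε / 2 := by
    rw [hδ]
    field_simp
    ring
  refine ⟨I0 * K, fun A => ?_⟩
  have hev : ∀ᶠ x : ℝ in atTop, ∀ i ∈ Finset.range I0, _ :=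
    (Filter.eventually_all_finset (Finset.range I0)).2 fun i _ =>
      ev_block i A (k + 1) δ hδ0 _ (hbb (A + 1))
  have hev2 := hblk I0 (c * (ε / 8)) (by positivity)
  obtain ⟨X, hX⟩ := Filter.eventually_atTop.1 (hev.and (hev2.and (eventually_gt_atTop 1)))
  refine ⟨X, fun x hx B hB => ?_⟩
  obtain ⟨h1, h2, h3⟩ := hX x hx
  have hx0 : 0 < x := by linarith
  have hlogx : 0 < Real.log x := Real.log_pos h3
  -- the exceptional sets
  have hch : ∀ i, ∃ Y : Finset (Finset ℕ), i ∈ Finset.range I0 →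
      (Y.card : ℝ) ≤ K * (B.card : ℝ) ^ (k - 1) * Real.log ((⌊x⌋₊ / 2 ^ (i + 1) : ℕ) : ℝ) ∧
      ∀ D ∈ B.powersetCard k, (∀ p : ℕ, p.Prime → nu (insert 0 D) p < p) → D ∉ Y →
        (((Ioc (⌊x⌋₊ / 2 ^ (i + 1)) (2 * (⌊x⌋₊ / 2 ^ (i + 1)))).filter
          (fun n => ∀ e ∈ insert 0 D, (n + e).Prime)).card : ℝ) ≤
          (M + ε / 4) * singularSeries (insert 0 D) * (((⌊x⌋₊ / 2 ^ (i + 1) : ℕ) : ℝ) /
            (Real.log ((⌊x⌋₊ / 2 ^ (i + 1) : ℕ) : ℝ)) ^ (k + 1)) := by
    intro i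
    by_cases hi : i ∈ Finset.range I0
    · obtain ⟨b1, b2, b3, b4, b5⟩ := h1 i hi
      obtain ⟨Y, hY1, hY2⟩ := b1 B fun b hb => ⟨(hB b hb).1, (hB b hb).2.trans b3⟩
      exact ⟨Y, fun _ => ⟨hY1, hY2⟩⟩
    · exact ⟨∅, fun h => absurd h hi⟩
  choose Y hY using hch
  have hsub : (B.powersetCard k).filter (fun D =>
        (∀ p : ℕ, p.Prime → nu (insert 0 D) p < p) ∧
        (M + ε) * (singularSeries (insert 0 D) * (x / (Real.log x) ^ (k + 1))) <
          (tupleCount x (insert 0 D) : ℝ)) ⊆ (Finset.range I0).biUnion Y := by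
    intro D hD
    rw [Finset.mem_filter] at hD
    obtain ⟨hD1, hD2, hD3⟩ := hD
    by_contra hn
    have hn' : ∀ i ∈ Finset.range I0, D ∉ Y i := fun i hi hDi =>
      hn (Finset.mem_biUnion.2 ⟨i, hi, hDi⟩)
    have h0D : (0:ℕ) ∉ D := fun h => by
      have := (hB 0 ((Finset.mem_powersetCard.1 hD1).1 h)).1
      omega
    have hcard : (insert 0 D).card = k + 1 := by
      rw [Finset.card_insert_of_notMem h0D, (Finset.mem_powersetCard.1 hD1).2]
    set E := insert 0 D with hE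
    have hS := hlow E hcard hD2
    set S := singularSeries E with hSd
    have hS0 : 0 < S := lt_of_lt_of_le hc hS
    set e : Fin (k + 1) → ℕ := fun i => E.orderEmbOfFin hcard i with he
    have himg : Finset.image e Finset.univ = E := Finset.image_orderEmbOfFin_univ E hcard
    have hinj : Function.Injective e := (E.orderEmbOfFin hcard).injective
    have h4 := h2 e hinj
    rw [himg] at h4
    -- the blocks
    have h5 : ∑ i ∈ Finset.range I0, (((⌊x⌋₊ / 2 ^ (i + 1) : ℕ) : ℝ) / x *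
          (Real.log x / Real.log ((⌊x⌋₊ / 2 ^ (i + 1) : ℕ) : ℝ)) ^ (k + 1)) *
            rr (⌊x⌋₊ / 2 ^ (i + 1)) e ≤ (M + ε / 2) * S := by
      have h6 : ∀ i ∈ Finset.range I0, (((⌊x⌋₊ / 2 ^ (i + 1) : ℕ) : ℝ) / x *
          (Real.log x / Real.log ((⌊x⌋₊ / 2 ^ (i + 1) : ℕ) : ℝ)) ^ (k + 1)) *
            rr (⌊x⌋₊ / 2 ^ (i + 1)) e ≤ (1 / 2 ^ (i + 1)) * ((M + ε / 2) * S) := by
        intro i hi
        obtain ⟨b1, b2, b3, b4, b5⟩ := h1 i hi
        have h7 := (hY i hi).2 D hD1 hD2 (hn' i hi)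
        set N := ⌊x⌋₊ / 2 ^ (i + 1) with hN
        have hN0 : (0:ℝ) < N := by exact_mod_cast (by omega : 0 < N)
        have hlogN : 0 < Real.log (N : ℝ) := Real.log_pos (by exact_mod_cast (by omega : 1 < N))
        have h8 : rr N e ≤ (M + ε / 4) * S := by
          unfold rr
          have h9 : (Finset.Ioc N (2 * N)).filter (fun n => ∀ i, (n + e i).Prime) =
              (Finset.Ioc N (2 * N)).filter (fun n => ∀ a ∈ E, (n + a).Prime) := by
            apply Finset.filter_congr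
            intro n _
            constructor
            · intro h a ha
              rw [← himg] at ha
              obtain ⟨j, _, rfl⟩ := Finset.mem_image.1 ha
              exact h j
            · intro h j
              exact h _ (himg ▸ Finset.mem_image_of_mem e (Finset.mem_univ j))
          rw [h9, mul_div_assoc]
          calc _ ≤ ((M + ε / 4) * S * ((N : ℝ) / (Real.log N) ^ (k + 1))) *
                ((Real.log N) ^ (k + 1) / N) := mul_le_mul_of_nonneg_right h7 (by positivity)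
            _ = (M + ε / 4) * S := by field_simp
        have h10 : (N : ℝ) / x ≤ 1 / 2 ^ (i + 1) := by
          rw [div_le_div_iff₀ hx0 (by positivity), one_mul]
          have h11 : (N : ℝ) ≤ (⌊x⌋₊ : ℝ) / ((2 ^ (i + 1) : ℕ) : ℝ) := Nat.cast_div_le
          push_cast at h11
          have h12 : (⌊x⌋₊ : ℝ) ≤ x := Nat.floor_le hx0.le
          rw [le_div_iff₀ (by positivity)] at h11
          linarith
        have hrr : 0 ≤ rr N e := by
          unfold rr
          positivity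
        calc _ ≤ ((1 / 2 ^ (i + 1)) * (1 + δ)) * ((M + ε / 4) * S) := by
              apply mul_le_mul _ h8 hrr (by positivity)
              apply mul_le_mul h10 b4 (by positivity) (by positivity)
          _ = (1 / 2 ^ (i + 1)) * (((1 + δ) * (M + ε / 4)) * S) := by ring
          _ = _ := by rw [hδ1]
      refine (Finset.sum_le_sum h6).trans ?_
      rw [← Finset.sum_mul]
      calc _ ≤ 1 * ((M + ε / 2) * S) := mul_le_mul_of_nonneg_right (sum_half I0) (by positivity)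
        _ = _ := one_mul _
    have h6 := (abs_le.1 h4).2
    have h7 : C * S / 2 ^ I0 ≤ ε / 4 * S := by
      rw [mul_div_right_comm]
      exact mul_le_mul_of_nonneg_right hI0 hS0.le
    have h8 : c * (ε / 8) ≤ ε / 8 * S := by
      rw [mul_comm]
      exact mul_le_mul_of_nonneg_left hS (by positivity)
    have h9 : (tupleCount x E : ℝ) * (Real.log x) ^ (k + 1) / x ≤ (M + ε) * S := by
      have : 0 < ε * S := by positivity
      linarith
    have h10 : (M + ε) * S < (tupleCount x E : ℝ) * (Real.log x) ^ (k + 1) / x := by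
      have h11 : 0 < (Real.log x) ^ (k + 1) / x := by positivity
      calc (M + ε) * S = ((M + ε) * (S * (x / (Real.log x) ^ (k + 1)))) *
            ((Real.log x) ^ (k + 1) / x) := by field_simp
        _ < (tupleCount x E : ℝ) * ((Real.log x) ^ (k + 1) / x) :=
            mul_lt_mul_of_pos_right hD3 h11
        _ = _ := by ring
    linarith
  have hc1 : (((B.powersetCard k).filter (fun D =>
        (∀ p : ℕ, p.Prime → nu (insert 0 D) p < p) ∧
        (M + ε) * (singularSeries (insert 0 D) * (x / (Real.log x) ^ (k + 1))) <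
          (tupleCount x (insert 0 D) : ℝ))).card : ℝ) ≤ ∑ i ∈ Finset.range I0, ((Y i).card : ℝ) := by
    have := (Finset.card_le_card hsub).trans Finset.card_biUnion_le
    exact_mod_cast this
  refine hc1.trans ?_
  calc ∑ i ∈ Finset.range I0, ((Y i).card : ℝ) ≤
        ∑ i ∈ Finset.range I0, K * (B.card : ℝ) ^ (k - 1) * Real.log x := by
        refine Finset.sum_le_sum fun i hi => ((hY i hi).1).trans ?_
        exact mul_le_mul_of_nonneg_left (h1 i hi).2.2.2.2 (by positivity)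
    _ = I0 * K * (B.card : ℝ) ^ (k - 1) * Real.log x := by
        rw [Finset.sum_const, Finset.card_range, nsmul_eq_mul]
        ring

end H34P
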